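import Pool.Agent.Q15.JT.NF4
import Pool.Agent.TH831.OE.Dat
import Pool.Agent.Q15.FM2E

/-! Representations congruent to the identity: the rational numbers (project JT). -/

set_option autoImplicit false
set_option linter.unusedSectionVars false

open NumberField Matrix IsLocalRing Pool.Agent.W569.FM Pool.Agent.W571.FM Pool.Agent.W569.UF
  Pool.Agent.Q15.FMNT Pool.Agent.Q15.FMMain Pool.Agent.Q15.FMScal Pool.Agent.Q15.FM2C
  Pool.Agent.Q15.FM3E Pool.Agent.Q15.FM2E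

namespace Pool.Agent.Q15.JT

/-- the primes above -/
def SQ (S : Finset ℕ) : Set (Ideal (𝓞 ℚ)) := {v | ∃ l ∈ S, v = pl l}

/-- a nontrivial character of order `p` -/
theorem exists_char (p : ℕ) [hp : Fact p.Prime] (j : ℕ) (hj : j.Prime) (hpj : p ∣ j - 1) :
    ∃ χ : (ZMod j)ˣ →* Multiplicative (ZMod p), ∃ x, χ x ≠ 1 := by
  have : Fact j.Prime := ⟨hj⟩
  have hc : IsCyclic (ZMod j)ˣ := inferInstance
  have hcard : Nat.card (ZMod j)ˣ = j - 1 := by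
    rw [Nat.card_eq_fintype_card, ZMod.card_units_eq_totient, Nat.totient_prime hj]
  have hd : p ∣ Nat.card (ZMod j)ˣ := by rw [hcard]; exact hpj
  let e := zmodCyclicMulEquiv hc
  let f : Multiplicative (ZMod (Nat.card (ZMod j)ˣ)) →* Multiplicative (ZMod p) :=
    AddMonoidHom.toMultiplicative (ZMod.castHom hd (ZMod p)).toAddMonoidHom
  refine ⟨f.comp e.symm.toMonoidHom, e (Multiplicative.ofAdd 1), ?_⟩
  have h1 : (f.comp e.symm.toMonoidHom) (e (Multiplicative.ofAdd 1)) =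
      Multiplicative.ofAdd ((ZMod.castHom hd (ZMod p)) 1) := by
    show f (e.symm (e (Multiplicative.ofAdd 1))) = _
    rw [MulEquiv.symm_apply_apply]
    rfl
  rw [h1, map_one]
  intro h
  have h2 := congrArg Multiplicative.toAdd h
  rw [toAdd_ofAdd, toAdd_one] at h2
  exact one_ne_zero h2

section
variable {p : ℕ} [hp : Fact p.Prime]

/-- a prime of the algebraic integers above a member -/
theorem mem_of_cm {l : ℕ} (hl : l.Prime) {P : Ideal (OO ℚ)} (hP : P.IsMaximal)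
    (h : cm P = pl l) : (l : OO ℚ) ∈ P := by
  rw [← natCast_mem_cm, h]
  exact Ideal.mem_span_singleton_self _

theorem pl_inj {l j : ℕ} (h : pl l = pl j) : l = j := by
  rw [← absNorm_pl l, h, absNorm_pl]

/-- the quotient of two Frobenius elements is in the inertia -/
theorem frob_diff {q : ℕ} {P : Ideal (OO ℚ)} {σ σ' : GF ℚ} (h : FrobAt q P σ)
    (h' : FrobAt q P σ') : InInertia P (σ * σ'⁻¹) := by
  intro x
  have h1 := h (σ'⁻¹ • x)
  have h2 := h' (σ'⁻¹ • x)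
  have h3 := P.sub_mem h1 h2
  have h4 : σ • σ'⁻¹ • x - (σ'⁻¹ • x) ^ q - (σ' • σ'⁻¹ • x - (σ'⁻¹ • x) ^ q) =
      (σ * σ'⁻¹) • x - x := by
    rw [smul_inv_smul, mul_smul]
    ring
  rwa [h4] at h3

/-- the value of a character on a Frobenius element does not depend on the choice -/
theorem frob_val {q : ℕ} {P Q : Ideal (OO ℚ)} (hP : P.IsMaximal) (hQ : Q.IsMaximal)
    (h : cm P = cm Q) {A : Type} [CommGroup A] (χ : GF ℚ →* A)
    (hur : ∀ τ, InInertia Q τ → χ τ = 1) {σ σ' : GF ℚ} (hσ : FrobAt q P σ)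
    (hσ' : FrobAt q Q σ') : χ σ = χ σ' := by
  obtain ⟨g, -, hg⟩ := conj_same hP hQ h
  have h1 := hur _ (frob_diff (hg q σ hσ) hσ')
  have h2 : χ (g * σ * g⁻¹) = χ σ := by
    rw [map_mul, map_mul, map_inv, mul_comm (χ g), mul_inv_cancel_right]
  rw [map_mul, map_inv, h2] at h1
  exact mul_inv_eq_one.1 h1

/-- the field `ℚ` has exactly one extension of degree `p` unramified outside `p` -/
theorem exists_one (hp2 : p ≠ 2) : ∃ ψ : GF ℚ →* Multiplicative (ZMod p), OneE p ψ ∧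
    ∀ q : ℕ, q.Prime → q ≠ p → ∀ s : ℕ, q = 1 + p * s → ∀ P : Ideal (OO ℚ), P.IsMaximal →
      (q : OO ℚ) ∈ P → ∀ σ : GF ℚ, FrobAt q P σ → ψ σ = Multiplicative.ofAdd (s : ZMod p) := by
  obtain ⟨ψ, w, hw, ho, hur, hne, hfr, -⟩ := Pool.Agent.TH831.OT.exists_psi p
  obtain ⟨P0, hP0, hpP0, -⟩ := (Pool.Agent.W571.FM.main p hp.out).1
  obtain ⟨d⟩ := Pool.Agent.TH831.OE.exists_dat (p := p) hp2 ∅ (fun l hl => by simp at hl)
    (fun _ => 1) (fun l hl => by simp at hl) P0 hP0 hpP0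
  have hsp : ∀ f : GF ℚ →* Multiplicative (ZMod p), IsOpen (f.ker : Set (GF ℚ)) →
      (∀ P : Ideal (OO ℚ), P.IsMaximal → (p : OO ℚ) ∉ P → ∀ τ, InInertia P τ → f τ = 1) →
      ∀ g, Multiplicative.toAdd (f g) =
        Multiplicative.toAdd (d.ψp g) * Multiplicative.toAdd (f d.γ) := by
    intro f hf hfu g
    have h1 := d.span f hf (fun g hg => by
      obtain ⟨P, hP, -, hpP, hg⟩ := hg
      exact hfu P hP hpP g hg) g
    rwa [Finset.filter_empty, Finset.sum_empty, add_zero] at h1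
  refine ⟨ψ, ⟨ho, hur, hne, fun f hf hfu => ?_⟩, hfr⟩
  set c := Multiplicative.toAdd (ψ d.γ) with hc
  have hc0 : c ≠ 0 := by
    intro h0
    obtain ⟨g, hg⟩ := hne
    apply hg
    apply Multiplicative.toAdd.injective
    rw [hsp ψ ho hur g, ← hc, h0, mul_zero, toAdd_one]
  have : NeZero p := ⟨hp.out.ne_zero⟩
  refine ⟨(c⁻¹ * Multiplicative.toAdd (f d.γ)).val, fun g => ?_⟩
  apply Multiplicative.toAdd.injective
  rw [toAdd_pow, nsmul_eq_mul, ZMod.natCast_zmod_val, hsp f hf hfu g, hsp ψ ho hur g, ← hc]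
  field_simp

/-- the conditions on the primes -/
theorem normV {ψ : GF ℚ →* Multiplicative (ZMod p)}
    (hfr : ∀ q : ℕ, q.Prime → q ≠ p → ∀ s : ℕ, q = 1 + p * s → ∀ P : Ideal (OO ℚ), P.IsMaximal →
      (q : OO ℚ) ∈ P → ∀ σ : GF ℚ, FrobAt q P σ → ψ σ = Multiplicative.ofAdd (s : ZMod p))
    (S : Finset ℕ) (hS : ∀ l ∈ S, l.Prime ∧ l ≠ p ∧ ¬ p ^ 2 ∣ l - 1) :
    NormV p 1 (SQ S) ψ := by
  refine ⟨?_, ?_⟩
  · rintro v ⟨l, hl, rfl⟩ h
    have h1 : pl p ≤ pl l := by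
      rw [pl, Ideal.span_singleton_le_iff_mem]
      exact h
    have h2 := (pl_max hp.out).eq_of_le (pl_max (hS l hl).1).ne_top h1
    exact (hS l hl).2.1 (pl_inj h2).symm
  · rintro P hP ⟨l, hl, hPl⟩ hd
    rw [hPl, absNorm_pl] at hd ⊢
    refine ⟨by rwa [pow_one], (hS l hl).2.2, fun σ hσ => ?_⟩
    have hlP := mem_of_cm (hS l hl).1 hP hPl
    have h1 : l = 1 + p * ((l - 1) / p) := by
      rw [Nat.mul_div_cancel' hd]
      have := (hS l hl).1.one_le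
      omega
    rw [hfr l (hS l hl).1 (hS l hl).2.1 _ h1 P hP hlP σ hσ, toAdd_ofAdd, pow_one]

/-- the condition for an axis -/
def PowCond (p : ℕ) (S : Finset ℕ) : Prop :=
  ∀ i ∈ S, ∀ j ∈ S, ∀ k ∈ S, i ≠ j → k ≠ j → p ∣ i - 1 → p ∣ j - 1 → p ∣ k - 1 →
    ∃ x : ZMod j, (i : ZMod j) ^ ((k - 1) / p) = (k : ZMod j) ^ ((i - 1) / p) * x ^ p

theorem exists_axis (hp2 : p ≠ 2) {ψ : GF ℚ →* Multiplicative (ZMod p)} (h : OneE p ψ)
    (hfr : ∀ q : ℕ, q.Prime → q ≠ p → ∀ s : ℕ, q = 1 + p * s → ∀ P : Ideal (OO ℚ), P.IsMaximal →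
      (q : OO ℚ) ∈ P → ∀ σ : GF ℚ, FrobAt q P σ → ψ σ = Multiplicative.ofAdd (s : ZMod p))
    (S : Finset ℕ) (hS : ∀ l ∈ S, l.Prime ∧ l ≠ p ∧ ¬ p ^ 2 ∣ l - 1) (hpc : PowCond p S) :
    ∃ x, AxisAt p 1 (SQ S) x := by
  classical
  have : NeZero p := ⟨hp.out.ne_zero⟩
  obtain ⟨P0, hP0, hpP0, -⟩ := (Pool.Agent.W571.FM.main p hp.out).1
  -- characters
  have e1 : ∀ j : ℕ, ∃ χ : (ZMod j)ˣ →* Multiplicative (ZMod p), j ∈ S → p ∣ j - 1 →
      ∃ x, χ x ≠ 1 := by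
    intro j
    by_cases hj : j ∈ S ∧ p ∣ j - 1
    · obtain ⟨χ, hχ⟩ := exists_char p j (hS j hj.1).1 hj.2
      exact ⟨χ, fun _ _ => hχ⟩
    · exact ⟨1, fun h1 h2 => absurd ⟨h1, h2⟩ hj⟩
  choose χ hχ using e1
  obtain ⟨d⟩ := Pool.Agent.TH831.OE.exists_dat (p := p) hp2 S (fun l hl => ⟨(hS l hl).1,
    (hS l hl).2.1⟩) χ hχ P0 hP0 hpP0
  -- the value of `ψ` in terms of the data
  have hUr : ∀ f : GF ℚ →* Multiplicative (ZMod p),
      (∀ Q : Ideal (OO ℚ), Q.IsMaximal → (p : OO ℚ) ∉ Q → cm Q ∉ SQ S →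
        ∀ τ, InInertia Q τ → f τ = 1) → ∀ g ∈ Pool.Agent.TH831.OT.UrSet p S, f g = 1 := by
    intro f hf g hg
    obtain ⟨P, hP, hPS, hpP, hg⟩ := hg
    refine hf P hP hpP ?_ g hg
    rintro ⟨l, hl, hPl⟩
    exact hPS l hl (mem_of_cm (hS l hl).1 hP hPl)
  have hψτ : ∀ l ∈ S, p ∣ l - 1 → ψ (d.τ l) = 1 := fun l hl hd =>
    h.ur (d.P l) (d.hP l (hS l hl).1).1 (fun h0 => (hS l hl).2.1
      (prime_unique (hS l hl).1 hp.out (d.hP l (hS l hl).1).1 (d.hP l (hS l hl).1).2 h0))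
      _ (d.hτ l hl hd)
  have hψ : ∀ g, Multiplicative.toAdd (ψ g) =
      Multiplicative.toAdd (d.ψp g) * Multiplicative.toAdd (ψ d.γ) := by
    intro g
    have h1 := d.span ψ h.op (hUr ψ fun Q hQ hpQ _ τ hτ => h.ur Q hQ hpQ τ hτ) g
    rw [h1]
    refine (add_eq_left).2 (Finset.sum_eq_zero fun l hl => ?_)
    obtain ⟨hl1, hl2⟩ := Finset.mem_filter.1 hl
    rw [hψτ l hl1 hl2, toAdd_one, mul_zero]
  set c := Multiplicative.toAdd (ψ d.γ) with hc
  have hc0 : c ≠ 0 := by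
    intro h0
    obtain ⟨g, hg⟩ := h.ne
    apply hg
    apply Multiplicative.toAdd.injective
    rw [hψ g, h0, mul_zero, toAdd_one]
  have hψp : ∀ g, Multiplicative.toAdd (d.ψp g) = Multiplicative.toAdd (ψ g) * c⁻¹ := by
    intro g
    rw [hψ g, mul_assoc, mul_inv_cancel₀ hc0, mul_one]
  -- the exponents
  have ha : ∀ l ∈ S, p ∣ l - 1 → (((l - 1) / p : ℕ) : ZMod p) ≠ 0 := by
    intro l hl hd h0
    rw [ZMod.natCast_eq_zero_iff] at h0
    apply (hS l hl).2.2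
    rw [pow_two, ← Nat.mul_div_cancel' hd]
    exact Nat.mul_dvd_mul_left _ h0
  have hcop : ∀ l ∈ S, ∀ j ∈ S, l ≠ j → Nat.Coprime l j := fun l hl j hj hne =>
    (Nat.coprime_primes (hS l hl).1 (hS j hj).1).2 hne
  have hdpow : ∀ j, ∀ i ∈ S, ∀ k ∈ S, ∀ (hj : j ∈ S) (hi : i ≠ j) (hk : k ≠ j), p ∣ i - 1 →
      p ∣ j - 1 → p ∣ k - 1 → ∀ (u v : (ZMod j)ˣ), (u : ZMod j) = i → (v : ZMod j) = k →
      (((k - 1) / p : ℕ) : ZMod p) * Multiplicative.toAdd (χ j u) =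
        (((i - 1) / p : ℕ) : ZMod p) * Multiplicative.toAdd (χ j v) := by
    intro j i hi k hk hj hij hkj hdi hdj hdk u v hu hv
    obtain ⟨x, hx⟩ := hpc i hi j hj k hk hij hkj hdi hdj hdk
    have : Fact j.Prime := ⟨(hS j hj).1⟩
    have hx0 : x ≠ 0 := by
      intro h0
      rw [h0, zero_pow hp.out.ne_zero, mul_zero, ← hu, ← Units.val_pow_eq_pow_val] at hx
      exact (Units.ne_zero _) hx
    have h1 : u ^ ((k - 1) / p) = v ^ ((i - 1) / p) * (Units.mk0 x hx0) ^ p := by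
      apply Units.ext
      rw [Units.val_mul, Units.val_pow_eq_pow_val, Units.val_pow_eq_pow_val,
        Units.val_pow_eq_pow_val, hu, hv, Units.val_mk0]
      exact hx
    have h2 := congrArg (fun y => Multiplicative.toAdd (χ j y)) h1
    have h3 : Multiplicative.toAdd (χ j (u ^ ((k - 1) / p))) =
      Multiplicative.toAdd (χ j (v ^ ((i - 1) / p) * (Units.mk0 x hx0) ^ p)) := h2
    rw [map_mul (χ j), map_pow (χ j), map_pow (χ j), map_pow (χ j), toAdd_mul, toAdd_pow,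
      toAdd_pow, toAdd_pow, nsmul_eq_mul, nsmul_eq_mul, nsmul_eq_mul, ZMod.natCast_self, zero_mul,
      add_zero] at h3
    exact h3
  have e2 : ∀ j : ℕ, ∃ m : ZMod p, j ∈ S → p ∣ j - 1 → ∀ l ∈ S, l ≠ j → p ∣ l - 1 →
      ∀ u : (ZMod j)ˣ, (u : ZMod j) = l →
      Multiplicative.toAdd (χ j u) = (((l - 1) / p : ℕ) : ZMod p) * m := by
    intro j
    by_cases hj : j ∈ S ∧ p ∣ j - 1
    swap
    · exact ⟨0, fun h1 h2 => absurd ⟨h1, h2⟩ hj⟩
    by_cases hi : ∃ i ∈ S, i ≠ j ∧ p ∣ i - 1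
    swap
    · exact ⟨0, fun _ _ l hl hlj hdl => absurd ⟨l, hl, hlj, hdl⟩ hi⟩
    obtain ⟨i, hi, hij, hdi⟩ := hi
    have hui : ((ZMod.unitOfCoprime i (hcop i hi j hj.1 hij) : (ZMod j)ˣ) : ZMod j) = i :=
      ZMod.coe_unitOfCoprime _ _
    refine ⟨(((i - 1) / p : ℕ) : ZMod p)⁻¹ * Multiplicative.toAdd
      (χ j (ZMod.unitOfCoprime i (hcop i hi j hj.1 hij))), fun _ _ l hl hlj hdl u hu => ?_⟩
    have h1 := hdpow j i hi l hl hj.1 hij hlj hdi hj.2 hdl _ u hui hu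
    rw [mul_left_comm, h1, ← mul_assoc, inv_mul_cancel₀ (ha i hi hdi), one_mul]
  choose m hm using e2
  have hprod : ∀ (f : GF ℚ →* Multiplicative (ZMod p)) (L : List ℕ),
      Multiplicative.toAdd (f ((L.map fun j => d.τ j ^ (m j).val).prod)) =
        (L.map fun j => m j * Multiplicative.toAdd (f (d.τ j))).sum := by
    intro f L
    induction L with
    | nil => simp
    | cons j L ih =>
      rw [List.map_cons, List.prod_cons, map_mul, toAdd_mul, ih, List.map_cons, List.sum_cons,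
        map_pow, toAdd_pow, nsmul_eq_mul, ZMod.natCast_zmod_val]
  set L := (S.filter (fun l => p ∣ l - 1)).toList with hL
  refine ⟨d.γ ^ c⁻¹.val * (L.map fun j => d.τ j ^ (m j).val).prod, ?_⟩
  rintro P hP ⟨l, hl, hPl⟩ hd f hfo hfu σ hσ
  rw [hPl, absNorm_pl] at hd hσ ⊢
  have hlp := (hS l hl).1
  have hlP := mem_of_cm hlp hP hPl
  have hcm : cm P = cm (d.P l) := by rw [hPl, cm_eq hlp (d.hP l hlp).1 (d.hP l hlp).2]
  have h1 := d.span f hfo (hUr f fun Q hQ hpQ hQS τ hτ => hfu Q hQ hpQ (Or.inl hQS) τ hτ) σ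
  have h2 : Multiplicative.toAdd (f (d.γ ^ c⁻¹.val * (L.map fun j => d.τ j ^ (m j).val).prod)) =
      c⁻¹ * Multiplicative.toAdd (f d.γ) +
      ∑ j ∈ S.filter (fun l => p ∣ l - 1), m j * Multiplicative.toAdd (f (d.τ j)) := by
    rw [map_mul, toAdd_mul, hprod, map_pow, toAdd_pow, nsmul_eq_mul, ZMod.natCast_zmod_val, hL,
      Finset.sum_map_toList]
  have hfl : f (d.τ l) = 1 := hfu (d.P l) (d.hP l hlp).1 (fun h0 => (hS l hl).2.1
      (prime_unique hlp hp.out (d.hP l hlp).1 (d.hP l hlp).2 h0)) (Or.inr hcm.symm) _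
      (d.hτ l hl hd)
  have hle : l = 1 + p * ((l - 1) / p) := by
    rw [Nat.mul_div_cancel' hd]
    have := hlp.one_le
    omega
  rw [h1, h2, mul_add, Finset.mul_sum, hψp, hfr l hlp (hS l hl).2.1 _ hle P hP hlP σ hσ,
    toAdd_ofAdd, pow_one]
  have h3 : ∑ j ∈ S.filter (fun l => p ∣ l - 1), Multiplicative.toAdd (d.ψ j σ) *
      Multiplicative.toAdd (f (d.τ j)) = ∑ j ∈ S.filter (fun l => p ∣ l - 1),
        (((l - 1) / p : ℕ) : ZMod p) * (m j * Multiplicative.toAdd (f (d.τ j))) := by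
    refine Finset.sum_congr rfl fun j hj => ?_
    obtain ⟨hj1, hj2⟩ := Finset.mem_filter.1 hj
    by_cases hjl : j = l
    · rw [hjl, hfl, toAdd_one, mul_zero, mul_zero, mul_zero]
    · have hne : l ≠ j := fun h => hjl h.symm
      have h4 : d.ψ j σ = d.ψ j (d.σ l) := frob_val hP (d.hP l hlp).1 hcm (d.ψ j)
        (fun τ hτ => d.hψur j hj1 hj2 (d.P l) (d.hP l hlp).1 (fun h0 => hne
          (prime_unique hlp (hS j hj1).1 (d.hP l hlp).1 (d.hP l hlp).2 h0)) τ hτ) hσ (d.hσ l hlp)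
      have hu : ((ZMod.unitOfCoprime l (hcop l hl j hj1 hne) : (ZMod j)ˣ) : ZMod j) = l :=
        ZMod.coe_unitOfCoprime _ _
      rw [h4, d.hlam j hj1 hj2 l hlp hne _ hu, hm j hj1 hj2 l hl hne hd _ hu]
      ring
  rw [h3]
  ring

end

end Pool.Agent.Q15.JT
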