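import Pool.Agent.Q15.JT.Main3

set_option autoImplicit false

open Matrix IsLocalRing

namespace Pool.Agent.Q15.JT

theorem mem_OI {E : Type} [NormedField E] [IsUltrametricDist E] (x : E) :
    x ∈ OI E ↔ ‖x‖ ≤ 1 := by
  rw [Valuation.mem_valuationSubring_iff, NormedField.valuation_apply]
  exact NNReal.coe_le_coe.symm

theorem isUnit_OI {E : Type} [NormedField E] [IsUltrametricDist E] (a : OI E) :
    IsUnit a ↔ ‖(a : E)‖ = 1 := by
  have ha : ‖(a : E)‖ ≤ 1 := (mem_OI _).1 a.2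
  constructor
  · rintro ⟨u, rfl⟩
    have h1 : ‖((u : OI E) : E)‖ * ‖((u⁻¹ : (OI E)ˣ) : E)‖ = 1 := by
      rw [← norm_mul]
      have h2 : ((u : OI E) : E) * ((u⁻¹ : (OI E)ˣ) : E) = ((u * u⁻¹ : (OI E)ˣ) : OI E) := rfl
      rw [h2, mul_inv_cancel]
      simp
    have h2 : ‖((u⁻¹ : (OI E)ˣ) : E)‖ ≤ 1 := (mem_OI _).1 ((u⁻¹ : (OI E)ˣ) : OI E).2
    refine le_antisymm ha ?_
    by_contra hlt
    push Not at hlt
    have h3 : ‖((u : OI E) : E)‖ * ‖((u⁻¹ : (OI E)ˣ) : E)‖ < 1 :=
      (mul_le_of_le_one_right (norm_nonneg _) h2).trans_lt hlt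
    exact h3.ne h1
  · intro h
    have h0 : (a : E) ≠ 0 := by
      intro h0
      rw [h0, norm_zero] at h
      exact zero_ne_one h
    have hinv : (a : E)⁻¹ ∈ OI E := by
      rw [mem_OI, norm_inv, h, inv_one]
    refine IsUnit.of_mul_eq_one ⟨_, hinv⟩ ?_
    apply Subtype.ext
    exact mul_inv_cancel₀ h0

theorem residue_OI {E : Type} [NormedField E] [IsUltrametricDist E] (a : OI E) :
    residue (OI E) a = 0 ↔ ‖(a : E)‖ < 1 := by
  rw [residue_eq_zero_iff, mem_maximalIdeal, mem_nonunits_iff, isUnit_OI]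
  exact ⟨fun h => lt_of_le_of_ne ((mem_OI _).1 a.2) h, fun h => h.ne⟩

theorem base : S_BASE := by
  intro E _ _
  refine ⟨mem_OI, residue_OI, fun hE => ?_⟩
  refine IsAlgClosed.of_exists_root _ fun f hf hirr => ?_
  obtain ⟨q, hq, hdeg, hmon⟩ := Polynomial.lifts_and_degree_eq_and_monic
    (f := residue (OI E)) (by
      rw [Polynomial.mem_lifts]
      exact Polynomial.map_surjective _ residue_surjective f) hf
  have hd : (q.map (algebraMap (OI E) E)).degree ≠ 0 := by
    rw [Polynomial.degree_map_eq_of_injective (FaithfulSMul.algebraMap_injective _ _), hdeg]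
    exact hirr.degree_pos.ne'
  obtain ⟨x, hx⟩ := IsAlgClosed.exists_root (q.map (algebraMap (OI E) E)) hd
  have hint : IsIntegral (OI E) x := ⟨q, hmon, by
    rw [Polynomial.IsRoot.def, Polynomial.eval_map] at hx
    exact hx⟩
  obtain ⟨y, hy⟩ := IsIntegrallyClosed.isIntegral_iff.1 hint
  refine ⟨residue (OI E) y, ?_⟩
  rw [← hq, Polynomial.eval_map, Polynomial.eval₂_at_apply]
  have h1 : q.eval y = 0 := by
    apply FaithfulSMul.algebraMap_injective (OI E) E
    rw [map_zero, ← Polynomial.eval₂_at_apply, hy, ← Polynomial.eval_map]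
    exact hx
  rw [h1, map_zero]

theorem sup : S_SUP := by
  classical
  intro E _ _ G _ _ m n F hF ⟨g, hg⟩
  have hne : Nonempty G := ⟨g⟩
  let φ : G → (Fin m → Fin n → E) := fun g i j => (F g i j : E)
  have hφ : Continuous fun g => ‖φ g‖ :=
    (continuous_pi fun i => continuous_pi fun j => hF i j).norm
  obtain ⟨g0, -, hg0⟩ := isCompact_univ.exists_isMaxOn Set.univ_nonempty hφ.continuousOn
  have hmax : ∀ x, ‖φ x‖ ≤ ‖φ g0‖ := fun x => hg0 (Set.mem_univ x)
  have hnz : φ g ≠ 0 := by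
    intro h
    apply hg
    ext i j
    exact congrFun (congrFun h i) j
  have hpos : 0 < ‖φ g0‖ := (norm_pos_iff.2 hnz).trans_le (hmax g)
  -- an entry of maximal norm
  have hex : ∃ i j, ‖φ g0 i j‖ = ‖φ g0‖ := by
    by_contra hcon
    push Not at hcon
    have h1 : ∀ i j, ‖φ g0 i j‖ < ‖φ g0‖ := fun i j =>
      lt_of_le_of_ne ((norm_le_pi_norm (φ g0 i) j).trans (norm_le_pi_norm (φ g0) i)) (hcon i j)
    exact lt_irrefl _ ((pi_norm_lt_iff hpos).2 fun i => (pi_norm_lt_iff hpos).2 fun j => h1 i j)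
  obtain ⟨i0, j0, hij⟩ := hex
  set c : OI E := F g0 i0 j0 with hc
  have hcn : ‖(c : E)‖ = ‖φ g0‖ := hij
  have hcE : (c : E) ≠ 0 := by
    rw [← norm_pos_iff, hcn]
    exact hpos
  have hmem : ∀ x i j, (F x i j : E) / (c : E) ∈ OI E := by
    intro x i j
    rw [mem_OI, norm_div, hcn]
    refine div_le_one_of_le₀ ?_ (norm_nonneg _)
    exact ((norm_le_pi_norm (φ x i) j).trans (norm_le_pi_norm (φ x) i)).trans (hmax x)
  refine ⟨c, fun x => Matrix.of fun i j => ⟨_, hmem x i j⟩, fun h => hcE (by rw [h]; rfl),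
    fun x => ?_, ⟨g0, fun h => ?_⟩, fun i j => (hF i j).div_const _⟩
  · ext i j
    show (F x i j : E) = (c : E) * ((F x i j : E) / (c : E))
    rw [mul_div_cancel₀ _ hcE]
  · have h1 := congrFun (congrFun h i0) j0
    have h2 : residue (OI E) ⟨_, hmem g0 i0 j0⟩ = 0 := h1
    rw [residue_OI] at h2
    have h3 : (F g0 i0 j0 : E) / (c : E) = 1 := div_self hcE
    rw [show (((⟨_, hmem g0 i0 j0⟩ : OI E)) : E) = (F g0 i0 j0 : E) / (c : E) from rfl, h3,
      norm_one] at h2
    exact lt_irrefl _ h2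

theorem eig : S_EIG := by
  classical
  intro E _ _ G n hn M hM
  have : NeZero n := ⟨hn.ne'⟩
  let V := Fin n → E
  let f : G → Module.End E V := fun g => Matrix.toLin' (M g)
  have hf : ∀ g h, f g * f h = f h * f g := by
    intro g h
    show (Matrix.toLin' (M g)) ∘ₗ (Matrix.toLin' (M h)) = _
    rw [← Matrix.toLin'_mul, hM, Matrix.toLin'_mul]
    rfl
  let Pr : ℕ → Prop := fun d => ∃ W : Submodule E V, W ≠ ⊥ ∧ (∀ g, ∀ w ∈ W, f g w ∈ W) ∧
    Module.finrank E W = d
  have hex : ∃ d, Pr d := ⟨_, ⊤, top_ne_bot, fun g w _ => trivial, rfl⟩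
  obtain ⟨W, hW0, hWst, hWd⟩ := Nat.find_spec hex
  have hmin : ∀ W' : Submodule E V, W' ≠ ⊥ → (∀ g, ∀ w ∈ W', f g w ∈ W') → W' ≤ W → W' = W := by
    intro W' h1 h2 h3
    apply Submodule.eq_of_le_of_finrank_le h3
    rw [hWd]
    exact Nat.find_min' hex ⟨W', h1, h2, rfl⟩
  have hscal : ∀ g, ∃ c : E, ∀ w ∈ W, f g w = c • w := by
    intro g
    have hWn : Nontrivial W := Submodule.nontrivial_iff_ne_bot.2 hW0
    obtain ⟨c, hc⟩ := Module.End.exists_eigenvalue ((f g).restrict (hWst g))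
    obtain ⟨w, hw⟩ := hc.exists_hasEigenvector
    refine ⟨c, ?_⟩
    have h1 : W ⊓ (f g).eigenspace c = W := by
      refine hmin _ ?_ ?_ inf_le_left
      · intro h0
        apply hw.2
        have h2 : (w : V) ∈ W ⊓ (f g).eigenspace c := by
          refine ⟨w.2, ?_⟩
          rw [SetLike.mem_coe, Module.End.mem_eigenspace_iff]
          exact congrArg Subtype.val hw.apply_eq_smul
        rw [h0, Submodule.mem_bot] at h2
        exact Subtype.ext h2
      · rintro h w' ⟨hw1, hw2⟩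
        refine ⟨hWst h w' hw1, ?_⟩
        rw [SetLike.mem_coe, Module.End.mem_eigenspace_iff] at hw2 ⊢
        have h3 : f g (f h w') = f h (f g w') := by
          have := congrArg (fun T : Module.End E V => T w') (hf g h)
          exact this
        rw [h3, hw2, map_smul]
    intro w' hw'
    rw [← h1] at hw'
    exact Module.End.mem_eigenspace_iff.1 hw'.2
  obtain ⟨v, hv, hv0⟩ := Submodule.exists_mem_ne_zero_of_ne_bot hW0
  refine ⟨v, hv0, fun g => ?_⟩
  obtain ⟨c, hc⟩ := hscal g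
  exact ⟨c, by rw [← Matrix.toLin'_apply]; exact hc v hv⟩

theorem lin : S_LIN := by
  intro p _ W _ _ A B x y h
  have h1 : x - y ∈ A ⊔ B := by
    by_contra hcon
    obtain ⟨f, hf1, hf2⟩ := Submodule.exists_dual_map_eq_bot_of_notMem hcon inferInstance
    have hf3 : ∀ w ∈ A ⊔ B, f w = 0 := by
      intro w hw
      have h2 : f w ∈ (A ⊔ B).map f := Submodule.mem_map_of_mem hw
      rw [hf2] at h2
      exact (Submodule.mem_bot _).1 h2
    apply hf1
    rw [map_sub, sub_eq_zero]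
    exact h f (fun a ha => hf3 a (Submodule.mem_sup_left ha))
      fun b hb => hf3 b (Submodule.mem_sup_right hb)
  obtain ⟨a, ha, b, hb, hab⟩ := Submodule.mem_sup.1 h1
  refine ⟨-a, A.neg_mem ha, b, hb, ?_⟩
  have h2 : x = y + (a + b) := by rw [hab]; abel
  rw [h2]
  abel

theorem axis : S_AXIS := by
  intro κ _ _ p _ hp G _ _ _ t hc n hn hnp M hM x hx hcomm
  obtain ⟨l, ⟨w, hw, hwl⟩, hl⟩ := exists_weight hp hn hnp (M x)
  have hτ : ∀ τ σ a, t.T τ σ a → M τ *ᵥ w = 0 := by
    intro τ σ a ht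
    apply hl
    have h1 := hcomm τ σ a ht
    have h2 : M x * M τ = M τ * M x + M τ := sub_eq_iff_eq_add'.1 h1
    rw [Matrix.mulVec_mulVec, h2, Matrix.add_mulVec, ← Matrix.mulVec_mulVec, hwl,
      Matrix.mulVec_smul, add_smul, one_smul]
  have key : ∀ g, M g *ᵥ w = t.ψ g • (M t.γ *ᵥ w) := by
    intro g
    funext i
    refine hc.char (fun g => (M g *ᵥ w) i) (fun g h => ?_) ?_ (fun u hu => ?_)
      (fun τ σ a ht => ?_) g
    · show (M (g * h) *ᵥ w) i = _
      rw [hM.add, Matrix.add_mulVec]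
      rfl
    · have hadd : ∀ g h, (M (g * h) *ᵥ w) i = (M g *ᵥ w) i + (M h *ᵥ w) i := by
        intro g h
        rw [hM.add, Matrix.add_mulVec]
        rfl
      have h1 : (M 1 *ᵥ w) i = 0 := by
        have h2 := hadd 1 1
        rw [mul_one] at h2
        exact left_eq_add.1 h2
      let H : Subgroup G :=
        { carrier := {g | (M g *ᵥ w) i = 0}
          mul_mem' := fun {a b} ha hb => by
            show (M (a * b) *ᵥ w) i = 0
            rw [hadd, show (M a *ᵥ w) i = 0 from ha, show (M b *ᵥ w) i = 0 from hb, add_zero]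
          one_mem' := h1
          inv_mem' := fun {a} ha => by
            show (M a⁻¹ *ᵥ w) i = 0
            have h2 := hadd a a⁻¹
            rw [mul_inv_cancel, h1, show (M a *ᵥ w) i = 0 from ha, zero_add] at h2
            exact h2.symm }
      show IsOpen (H : Set G)
      have hM1 : M 1 = 0 := by
        have h2 := hM.add 1 1
        rw [mul_one] at h2
        exact left_eq_add.1 h2
      refine Subgroup.isOpen_of_mem_nhds H (g := 1) (Filter.mem_of_superset
        (hM.op.mem_nhds hM1) fun y hy => ?_)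
      show (M y *ᵥ w) i = 0
      rw [show M y = 0 from hy, Matrix.zero_mulVec]
      rfl
    · show (M u *ᵥ w) i = 0
      rw [hM.ur u hu, Matrix.zero_mulVec]
      rfl
    · show (M τ *ᵥ w) i = 0
      rw [hτ τ σ a ht]
      rfl
  have h1 : M t.γ *ᵥ w = l • w := by
    have h2 := key x
    rw [hwl, hx, one_smul] at h2
    exact h2.symm
  refine ⟨w, hw, fun g => ⟨t.ψ g * l, ?_⟩⟩
  rw [key, h1, smul_smul]

end Pool.Agent.Q15.JT
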