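import Pool.Agent.Q15.JT.J1

set_option autoImplicit false

open Matrix IsLocalRing

namespace Pool.Agent.Q15.JT

theorem pow_expand {R : Type} [Ring R] (x : R) (q : ℕ) :
    ∃ y : R, Commute x y ∧ (1 + x) ^ q = 1 + (q : R) * x + ((q.choose 2 : ℕ) : R) * x ^ 2 +
      x ^ 3 * y := by
  induction q with
  | zero => exact ⟨0, Commute.zero_right x, by simp⟩
  | succ q ih =>
    obtain ⟨y, hy, h⟩ := ih
    refine ⟨y + y * x + ((q.choose 2 : ℕ) : R), ?_, ?_⟩
    · exact (hy.add_right (hy.mul_right (Commute.refl x))).add_right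
        (Nat.cast_commute _ x).symm
    · have hc : (q + 1).choose 2 = q + q.choose 2 := by
        rw [Nat.choose_succ_succ' q 1, Nat.choose_one_right]
      have e1 : (q : R) * x = x * (q : R) := (Nat.cast_commute q x).eq
      have e2 : ((q.choose 2 : ℕ) : R) * x ^ 2 = x ^ 2 * ((q.choose 2 : ℕ) : R) :=
        (Nat.cast_commute _ _).eq
      have e3 : ((q.choose 2 : ℕ) : R) * x ^ 3 = x ^ 3 * ((q.choose 2 : ℕ) : R) :=
        (Nat.cast_commute _ _).eq
      rw [pow_succ, h, hc]
      push_cast
      have e4 : x ^ 3 * (y + y * x + ((q.choose 2 : ℕ) : R)) =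
          x ^ 3 * y + x ^ 3 * y * x + ((q.choose 2 : ℕ) : R) * x ^ 3 := by
        rw [e3]
        noncomm_ring
      rw [e4]
      noncomm_ring

theorem rel : S_REL := by
  intro O _ _ _ p hp hp2 hpm π c hπ0 hπ hc n q D N h
  have h2 : IsUnit (2 : O) := by
    by_contra h2
    have h3 : (2 : O) ∈ maximalIdeal O := (mem_maximalIdeal _).2 h2
    obtain ⟨m, hm⟩ := hp.odd_of_ne_two hp2
    apply (maximalIdeal.isMaximal O).ne_top
    rw [Ideal.eq_top_iff_one]
    have h4 : (1 : O) = (p : O) - 2 * (m : O) := by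
      rw [hm]
      push_cast
      ring
    rw [h4]
    exact (maximalIdeal O).sub_mem hpm ((maximalIdeal O).mul_mem_right _ h3)
  obtain ⟨y, -, hy⟩ := pow_expand ((π * c) • N) q
  rw [hy] at h
  -- the basic identity
  have e0 : ((1 : O) - q) • N + π • (D * N - (q : O) • (N * D)) =
      (π * (c * (q.choose 2 : ℕ))) • (N * N * (1 + π • D)) +
        (π * (π * (c * c))) • (N * N * N * y * (1 + π • D)) := by
    apply smul_cancel (mul_ne_zero hπ0 hc)
    have hq : ((q : ℕ) : Matrix (Fin n) (Fin n) O) = (q : O) • 1 := by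
      rw [Nat.cast_smul_eq_nsmul, nsmul_one]
    have hq2 : (((q.choose 2 : ℕ) : ℕ) : Matrix (Fin n) (Fin n) O) =
        ((q.choose 2 : ℕ) : O) • 1 := by
      rw [Nat.cast_smul_eq_nsmul, nsmul_one]
    have h' := h
    rw [hq, hq2] at h'
    have h3 := sub_eq_zero.2 h'
    rw [← sub_eq_zero]
    rw [← h3]
    ext i j
    simp only [pow_succ, pow_zero, one_mul, Matrix.smul_mul, Matrix.mul_smul, Matrix.mul_add,
      Matrix.add_mul, Matrix.mul_sub, Matrix.sub_mul, Matrix.one_mul, Matrix.mul_one, smul_add,
      smul_sub, smul_smul, Matrix.mul_assoc, Matrix.sub_apply, Matrix.add_apply, Matrix.smul_apply,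
      smul_eq_mul]
    ring
  have hπr : residue O π = 0 := (residue_eq_zero_iff π).2 hπ
  constructor
  · intro a ha
    have hch : residue O ((q.choose 2 : ℕ) : O) = 0 := by
      rw [residue_eq_zero_iff]
      have h3 : (2 : O) * ((q.choose 2 : ℕ) : O) = (q : O) * ((q : O) - 1) := by
        rw [Nat.choose_two_right]
        rcases Nat.eq_zero_or_pos q with h0 | h0
        · rw [h0]
          simp
        · have h4 : 2 * (q * (q - 1) / 2) = q * (q - 1) :=
            Nat.mul_div_cancel' (Nat.even_mul_pred_self q).two_dvd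
          have h5 := congrArg (fun x : ℕ => (x : O)) h4
          simp only [Nat.cast_mul, Nat.cast_ofNat] at h5
          rw [Nat.cast_sub h0, Nat.cast_one] at h5
          exact h5
      have h4 : (2 : O) * ((q.choose 2 : ℕ) : O) ∈ maximalIdeal O := by
        rw [h3, ha]
        exact (maximalIdeal O).mul_mem_left _ ((maximalIdeal O).mul_mem_right _ hπ)
      rcases (maximalIdeal.isMaximal O).isPrime.mem_or_mem h4 with h5 | h5
      · exact absurd h2 ((mem_maximalIdeal _).1 h5)
      · exact h5
    have e1 : D * N - (q : O) • (N * D) - a • N =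
        (c * (q.choose 2 : ℕ)) • (N * N * (1 + π • D)) +
          (π * (c * c)) • (N * N * N * y * (1 + π • D)) := by
      apply smul_cancel hπ0
      have h3 : ((1 : O) - q) = -(π * a) := by linear_combination -ha
      rw [h3] at e0
      rw [smul_add, smul_smul, smul_smul, ← e0]
      simp only [smul_sub, neg_smul, smul_smul]
      abel
    have e2 := congrArg red e1
    have hqr : residue O (q : O) = 1 := by
      have h3 : (q : O) = 1 + π * a := by linear_combination ha
      rw [h3, map_add, map_one, map_mul, hπr, zero_mul, add_zero]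
    rw [red_sub, red_sub, red_mul, red_smul, red_mul, red_smul, hqr, one_smul, red_add, red_smul,
      red_smul, map_mul, map_mul, hch, hπr, mul_zero, zero_mul, zero_smul, zero_smul, add_zero,
      sub_eq_zero] at e2
    exact e2
  · intro hu
    have e2 := congrArg red e0
    rw [red_add, red_smul, red_smul, red_add, red_smul, red_smul] at e2
    simp only [map_mul, hπr, zero_mul, zero_smul, add_zero] at e2
    have h3 : residue O (1 - q) ≠ 0 := by
      rw [Ne, residue_eq_zero_iff]
      intro h4
      have h5 : (q : O) - 1 ∈ maximalIdeal O := by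
        have h6 := (maximalIdeal O).neg_mem h4
        rwa [neg_sub] at h6
      exact ((mem_maximalIdeal _).1 h5) hu
    exact (smul_eq_zero.1 e2).resolve_left h3

/-- congruences of matrices -/
theorem pow_congr {R : Type} [CommRing R] {p : ℕ} (n : ℕ)
    (x : Matrix (Fin n) (Fin n) R) (j : ℕ) (hj : 1 ≤ j)
    (h : ∃ y : Matrix (Fin n) (Fin n) R, x = 1 + ((p : R) ^ j) • y) :
    ∃ y : Matrix (Fin n) (Fin n) R, x ^ p = 1 + ((p : R) ^ (j + 1)) • y := by
  obtain ⟨y, rfl⟩ := h
  obtain ⟨z, hz⟩ : ∃ z : Matrix (Fin n) (Fin n) R, ∀ m : ℕ, ∃ z : Matrix (Fin n) (Fin n) R,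
      (1 + ((p : R) ^ j) • y) ^ m = 1 + ((m : R) * (p : R) ^ j) • y +
        ((p : R) ^ (2 * j)) • z := by
    refine ⟨0, fun m => ?_⟩
    induction m with
    | zero => exact ⟨0, by simp⟩
    | succ m ih =>
      obtain ⟨z, hz⟩ := ih
      refine ⟨(m : R) • (y * y) + z + ((p : R) ^ j) • (z * y), ?_⟩
      rw [pow_succ, hz]
      ext a b
      simp only [Matrix.mul_add, Matrix.add_mul, Matrix.one_mul, Matrix.mul_one, Matrix.smul_mul,
        Matrix.mul_smul, smul_smul, Matrix.add_apply, Matrix.smul_apply, smul_eq_mul]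
      push_cast
      ring
  obtain ⟨z', hz'⟩ := hz p
  refine ⟨y + ((p : R) ^ (j - 1)) • z', ?_⟩
  rw [hz', smul_add, smul_smul, ← pow_succ', ← pow_add, add_assoc]
  congr 3
  congr 1
  omega

theorem test : S_TEST := by
  classical
  intro E _ _ G _ _ _ p hp hpE0 hpE π hπ n D hlaw hcts x y h
  have hp0 : (p : OI E) ≠ 0 := by
    intro h0
    apply hpE0
    have h1 := congrArg (fun x : OI E => (x : E)) h0
    simpa using h1
  have hpcoe : ((p : OI E) : E) = (p : E) := by push_cast; rfl
  -- divisibility by norms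
  have hdvd : ∀ (a b : OI E), b ≠ 0 → (b ∣ a ↔ ‖(a : E)‖ ≤ ‖(b : E)‖) := by
    intro a b hb
    have hbE : (b : E) ≠ 0 := fun h => hb (Subtype.ext h)
    constructor
    · rintro ⟨c, rfl⟩
      have h1 : ‖((b * c : OI E) : E)‖ = ‖(b : E)‖ * ‖(c : E)‖ := norm_mul _ _
      rw [h1]
      exact mul_le_of_le_one_right (norm_nonneg _) ((mem_OI _).1 c.2)
    · intro h
      refine ⟨⟨(a : E) / b, ?_⟩, ?_⟩
      · rw [mem_OI, norm_div]
        exact div_le_one_of_le₀ h (norm_nonneg _)
      · apply Subtype.ext
        show (a : E) = (b : E) * ((a : E) / b)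
        rw [mul_div_cancel₀ _ hbE]
  obtain ⟨π', hπ'⟩ : (p : OI E) ∣ π := (hdvd π p hp0).2 (by rw [hpcoe]; exact hπ)
  set R : G → Matrix (Fin n) (Fin n) (OI E) := fun g => 1 + π • D g with hR
  have hRmul : ∀ g k, R (g * k) = R g * R k := by
    intro g k
    show 1 + π • D (g * k) = (1 + π • D g) * (1 + π • D k)
    rw [hlaw, Matrix.mul_add, Matrix.mul_one, Matrix.add_mul, Matrix.one_mul, Matrix.smul_mul,
      Matrix.mul_smul, smul_add, smul_add, add_assoc, add_assoc]
  have hRu : ∀ g, IsUnit (R g) := by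
    intro g
    rw [Matrix.isUnit_iff_isUnit_det]
    by_contra hcon
    have h1 : residue (OI E) (R g).det = 0 :=
      (residue_eq_zero_iff _).2 ((mem_maximalIdeal _).2 hcon)
    have h2 : residue (OI E) (R g).det = (red (R g)).det := RingHom.map_det _ _
    have h3 : residue (OI E) π = 0 := by
      rw [residue_OI]
      exact hπ.trans_lt hpE
    rw [h2, hR] at h1
    simp only at h1
    rw [red_add, red_smul, h3, zero_smul, add_zero, red_one, Matrix.det_one] at h1
    exact one_ne_zero h1
  have hR1 : R 1 = 1 := by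
    have h1 := hRmul 1 1
    rw [mul_one] at h1
    have h2 : R 1 * 1 = R 1 * R 1 := by rw [Matrix.mul_one]; exact h1
    exact ((hRu 1).mul_left_cancel h2).symm
  -- equality modulo all powers of `p`
  have key : ∀ N : ℕ, ∀ i j, (p : OI E) ^ N ∣ (R x - R y) i j := by
    intro N i j
    set I : Ideal (OI E) := Ideal.span {(p : OI E) ^ N} with hI
    let q : OI E →+* (OI E ⧸ I) := Ideal.Quotient.mk I
    let f0 : G →* Matrix (Fin n) (Fin n) (OI E ⧸ I) :=
      { toFun := fun g => (R g).map q
        map_one' := by rw [hR1]; exact Matrix.map_one _ (map_zero _) (map_one _)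
        map_mul' := fun a b => by rw [hRmul, Matrix.map_mul] }
    let f1 : G →* (Matrix (Fin n) (Fin n) (OI E ⧸ I))ˣ := f0.toHomUnits
    have hf1 : ∀ g, ((f1 g : (Matrix (Fin n) (Fin n) (OI E ⧸ I))ˣ) :
        Matrix (Fin n) (Fin n) (OI E ⧸ I)) = (R g).map q := fun g => rfl
    let f : G →* f1.range := f1.rangeRestrict
    have hpg : IsPGroup p f1.range := by
      rintro ⟨_, ⟨g, rfl⟩⟩
      refine ⟨N, ?_⟩
      apply Subtype.ext
      apply Units.ext
      show (((f1 g) ^ p ^ N : (Matrix (Fin n) (Fin n) (OI E ⧸ I))ˣ) :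
        Matrix (Fin n) (Fin n) (OI E ⧸ I)) = 1
      rw [Units.val_pow_eq_pow_val, hf1]
      have h1 : ∀ k : ℕ, ∃ z : Matrix (Fin n) (Fin n) (OI E),
          (R g) ^ p ^ k = 1 + ((p : OI E) ^ (k + 1)) • z := by
        intro k
        induction k with
        | zero =>
          refine ⟨π' • D g, ?_⟩
          rw [pow_zero, pow_one, zero_add, pow_one, smul_smul, ← hπ']
        | succ k ih =>
          rw [pow_succ, pow_mul]
          exact pow_congr n _ (k + 1) (by omega) ih
      obtain ⟨z, hz⟩ := h1 N
      have h2 : ((R g).map q) ^ p ^ N = ((R g) ^ p ^ N).map q :=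
        (map_pow q.mapMatrix (R g) (p ^ N)).symm
      rw [h2, hz]
      ext a b
      rw [Matrix.map_apply, Matrix.add_apply, Matrix.smul_apply, map_add, smul_eq_mul, map_mul,
        pow_succ, map_mul]
      have h3 : q ((p : OI E) ^ N) = 0 :=
        Ideal.Quotient.eq_zero_iff_mem.2 (Ideal.mem_span_singleton_self _)
      rw [h3, zero_mul, zero_mul, add_zero, Matrix.one_apply, Matrix.one_apply]
      split_ifs <;> simp
    have hopen : IsOpen (f.ker : Set G) := by
      have hp0N : (p : OI E) ^ N ≠ 0 := pow_ne_zero _ hp0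
      have h1 : (f.ker : Set G) = ⋂ a, ⋂ b, {g | ‖(((R g - 1) a b : OI E) : E)‖ ≤
          ‖(((p : OI E) ^ N : OI E) : E)‖} := by
        ext g
        simp only [Set.mem_iInter, SetLike.mem_coe, MonoidHom.mem_ker]
        have h2 : f g = 1 ↔ (R g).map q = 1 := by
          constructor
          · intro h3
            have h4 := congrArg (fun z : f1.range => ((z : (Matrix (Fin n) (Fin n)
              (OI E ⧸ I))ˣ) : Matrix (Fin n) (Fin n) (OI E ⧸ I))) h3
            exact h4
          · intro h3
            apply Subtype.ext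
            apply Units.ext
            exact h3
        rw [h2]
        have h3 : ∀ a b, ((R g).map q) a b = (1 : Matrix (Fin n) (Fin n) (OI E ⧸ I)) a b ↔
            ‖(((R g - 1) a b : OI E) : E)‖ ≤ ‖(((p : OI E) ^ N : OI E) : E)‖ := by
          intro a b
          rw [← hdvd _ _ hp0N, ← Ideal.mem_span_singleton, ← hI, ← Ideal.Quotient.eq_zero_iff_mem,
            Matrix.sub_apply, map_sub, sub_eq_zero]
          have h4 : (Ideal.Quotient.mk I) ((1 : Matrix (Fin n) (Fin n) (OI E)) a b) =
              (1 : Matrix (Fin n) (Fin n) (OI E ⧸ I)) a b := by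
            rw [Matrix.one_apply, Matrix.one_apply]
            split_ifs <;> simp
          rw [h4]
          exact Iff.rfl
        constructor
        · intro h4 a b
          exact (h3 a b).1 (congrFun (congrFun h4 a) b)
        · intro h4
          ext a b
          exact (h3 a b).2 (h4 a b)
      rw [h1]
      refine isOpen_iInter_of_finite fun a => isOpen_iInter_of_finite fun b => ?_
      have h2 : Continuous fun g => (((R g - 1) a b : OI E) : E) := by
        have h3 : (fun g => (((R g - 1) a b : OI E) : E)) = fun g => (π : E) * (D g a b : E) := by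
          funext g
          have h4 : (R g - 1) a b = π * D g a b := by
            show ((1 + π • D g) - 1) a b = _
            rw [add_sub_cancel_left, Matrix.smul_apply, smul_eq_mul]
          rw [h4]
          rfl
        rw [h3]
        exact continuous_const.mul (hcts a b)
      have h3 : {g | ‖(((R g - 1) a b : OI E) : E)‖ ≤ ‖(((p : OI E) ^ N : OI E) : E)‖} =
          (fun g => (((R g - 1) a b : OI E) : E)) ⁻¹'
            Metric.closedBall 0 ‖(((p : OI E) ^ N : OI E) : E)‖ := by
        ext g
        simp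
      rw [h3]
      refine (IsUltrametricDist.isOpen_closedBall 0 ?_).preimage h2
      rw [norm_ne_zero_iff]
      intro h4
      exact hp0N (Subtype.ext h4)
    have h1 := h f1.range hpg f hopen
    have h2 := congrArg (fun z : f1.range => ((z : (Matrix (Fin n) (Fin n)
      (OI E ⧸ I))ˣ) : Matrix (Fin n) (Fin n) (OI E ⧸ I))) h1
    have h3 : (R x).map q = (R y).map q := h2
    have h4 := congrFun (congrFun h3 i) j
    rw [Matrix.map_apply, Matrix.map_apply] at h4
    have h5 := Ideal.Quotient.eq.1 h4
    rw [hI, Ideal.mem_span_singleton] at h5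
    exact h5
  show R x = R y
  rw [← sub_eq_zero]
  ext i j
  by_contra hne
  have hne' : (R x - R y) i j ≠ 0 := fun h0 => hne (by rw [h0]; rfl)
  have hpos : 0 < ‖(((R x - R y) i j : OI E) : E)‖ := by
    rw [norm_pos_iff]
    exact fun h0 => hne' (Subtype.ext h0)
  obtain ⟨N, hN⟩ := exists_pow_lt_of_lt_one hpos hpE
  have h1 := (hdvd _ _ (pow_ne_zero N hp0)).1 (key N i j)
  have h2 : ‖(((p : OI E) ^ N : OI E) : E)‖ = ‖(p : E)‖ ^ N := by
    push_cast
    rw [norm_pow]
  rw [h2] at h1
  exact absurd hN (not_lt.2 h1)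

end Pool.Agent.Q15.JT
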