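import Pool.Agent.Q15.JT.J1

set_option autoImplicit false

open Matrix IsLocalRing

namespace Pool.Agent.Q15.JT

section
variable {κ : Type} [Field κ] {G : Type} [Group G] [TopologicalSpace G] [IsTopologicalGroup G]

theorem add_one_eq {A : Type} [AddCommGroup A] {F : G → A} (h : ∀ g k, F (g * k) = F g + F k) :
    F 1 = 0 := by
  have h1 := h 1 1
  rw [mul_one] at h1
  exact left_eq_add.1 h1

/-- an additive function which vanishes where an additive function with open kernel vanishes -/
theorem open_of {A B : Type} [AddCommGroup A] [AddCommGroup B] {F : G → A} {f : G → B}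
    (hF : ∀ g k, F (g * k) = F g + F k) (hf : ∀ g k, f (g * k) = f g + f k)
    (ho : IsOpen {g | F g = 0}) (h : ∀ g, F g = 0 → f g = 0) : IsOpen {g | f g = 0} := by
  let H : Subgroup G :=
    { carrier := {g | f g = 0}
      mul_mem' := fun {a b} ha hb => by
        show f (a * b) = 0
        rw [hf, show f a = 0 from ha, show f b = 0 from hb, add_zero]
      one_mem' := add_one_eq hf
      inv_mem' := fun {a} ha => by
        show f a⁻¹ = 0
        have h2 := hf a a⁻¹
        rw [mul_inv_cancel, add_one_eq hf, show f a = 0 from ha, zero_add] at h2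
        exact h2.symm }
  show IsOpen (H : Set G)
  exact Subgroup.isOpen_of_mem_nhds H (g := 1) (Filter.mem_of_superset
    (ho.mem_nhds (add_one_eq hF)) fun y hy => h y hy)

/-- first order families of endomorphisms -/
structure FV (t : Tame κ G) {V : Type} [AddCommGroup V] [Module κ V]
    (M : G → Module.End κ V) : Prop where
  add : ∀ g h, M (g * h) = M g + M h
  op : IsOpen {g | M g = 0}
  ur : ∀ u ∈ t.U, M u = 0
  rel : ∀ τ σ a, t.T τ σ a → M σ * M τ - M τ * M σ = a • M τ

theorem fv_eig {t : Tame κ G} {n : ℕ} (h : FO t n) {V : Type} [AddCommGroup V] [Module κ V]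
    [FiniteDimensional κ V] (hn : Module.finrank κ V = n) {M : G → Module.End κ V} (hM : FV t M) :
    ∃ v : V, v ≠ 0 ∧ ∀ g, ∃ c : κ, M g v = c • v := by
  subst hn
  let b := Module.finBasis κ V
  have hinj : ∀ f : Module.End κ V, LinearMap.toMatrix b b f = 0 ↔ f = 0 := fun f =>
    (LinearMap.toMatrix b b).map_eq_zero_iff
  obtain ⟨v, hv, hvc⟩ := h (fun g => LinearMap.toMatrix b b (M g)) ⟨fun g k => by
      show LinearMap.toMatrix b b (M (g * k)) = _
      rw [hM.add, map_add], by
      have h1 : {g | LinearMap.toMatrix b b (M g) = 0} = {g | M g = 0} := by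
        ext g
        exact hinj _
      rw [h1]
      exact hM.op, fun u hu => by rw [hM.ur u hu, map_zero], fun τ σ a ht => by
      rw [← LinearMap.toMatrix_mul, ← LinearMap.toMatrix_mul, ← map_sub, hM.rel τ σ a ht,
        map_smul]⟩
  refine ⟨b.equivFun.symm v, fun h0 => hv ?_, fun g => ?_⟩
  · rwa [LinearEquiv.map_eq_zero_iff] at h0
  · obtain ⟨c, hc⟩ := hvc g
    refine ⟨c, ?_⟩
    apply b.equivFun.injective
    rw [map_smul, LinearEquiv.apply_symm_apply, ← hc]
    have h1 := LinearMap.toMatrix_mulVec_repr b b (M g) (b.equivFun.symm v)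
    have h2 : (b.repr (b.equivFun.symm v) : Fin _ → κ) = v := b.equivFun.apply_symm_apply v
    rw [h2] at h1
    exact h1.symm

theorem stableV {t : Tame κ G} (hc : CP t) (n : ℕ) (hfo : ∀ m, 0 < m → m ≤ n → FO t m) :
    ∀ (V : Type) [AddCommGroup V] [Module κ V] [FiniteDimensional κ V],
      Module.finrank κ V = n → ∀ M : G → Module.End κ V, FV t M → ∀ l : κ,
      (∀ v : V, M t.γ v = (l + 1) • v → v = 0) → ∀ (N : ℕ) (w : V),
      ((M t.γ - algebraMap κ (Module.End κ V) l) ^ N) w = 0 → ∀ g, M g w = t.ψ g • M t.γ w := by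
  induction n with
  | zero =>
    intro V _ _ _ hn M _ l _ N w _ g
    have : Subsingleton V := Module.finrank_zero_iff.1 hn
    exact Subsingleton.elim _ _
  | succ n ih =>
    intro V _ _ _ hn M hM l hl N w hw g
    obtain ⟨v1, hv1, hv1c⟩ := fv_eig (hfo (n + 1) (Nat.succ_pos n) le_rfl) hn hM
    choose z hz using hv1c
    -- `z` is a character
    have hcancel : ∀ a b : κ, a • v1 = b • v1 → a = b := fun a b h =>
      smul_left_injective κ hv1 h
    have hzadd : ∀ g k, z (g * k) = z g + z k := by
      intro g k
      apply hcancel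
      rw [← hz, hM.add, LinearMap.add_apply, hz, hz, add_smul]
    have hzero : ∀ g, M g = 0 → z g = 0 := by
      intro g h
      apply hcancel
      rw [← hz, h, zero_smul, LinearMap.zero_apply]
    have hzT : ∀ τ σ a, t.T τ σ a → z τ = 0 := by
      intro τ σ a ht
      have h1 := congrArg (fun f : Module.End κ V => f v1) (hM.rel τ σ a ht)
      simp only [LinearMap.sub_apply, Module.End.mul_apply, LinearMap.smul_apply] at h1
      rw [hz τ, map_smul, hz σ, map_smul, hz τ, smul_comm, sub_self, smul_smul] at h1
      have h2 := (smul_eq_zero.1 h1.symm).resolve_right hv1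
      exact (mul_eq_zero.1 h2).resolve_left (hc.ψT τ σ a ht).2.2
    have hzψ : ∀ g, z g = t.ψ g * z t.γ := hc.char z hzadd (open_of hM.add hzadd hM.op hzero)
      (fun u hu => hzero u (hM.ur u hu)) hzT
    set l1 := z t.γ with hl1
    have hl1' : l1 ≠ l + 1 := by
      intro h0
      apply hv1
      apply hl
      rw [hz, ← hl1, h0]
    -- the quotient
    set W : Submodule κ V := Submodule.span κ {v1} with hW
    have hstab : ∀ g, W ≤ W.comap (M g) := by
      intro g
      rw [hW, Submodule.span_le, Set.singleton_subset_iff, SetLike.mem_coe, Submodule.mem_comap,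
        hz]
      exact Submodule.smul_mem _ _ (Submodule.mem_span_singleton_self _)
    let M' : G → Module.End κ (V ⧸ W) := fun g => W.mapQ W (M g) (hstab g)
    have hM' : ∀ g v, M' g (W.mkQ v) = W.mkQ (M g v) := fun g v => rfl
    have hfr : Module.finrank κ (V ⧸ W) = n := by
      have h1 := Submodule.finrank_quotient_add_finrank W
      rw [hW, finrank_span_singleton hv1, hn] at h1
      exact Nat.succ_injective h1
    have hMV : FV t M' := by
      refine ⟨fun g k => ?_, ?_, fun u hu => ?_, fun τ σ a ht => ?_⟩
      · apply LinearMap.ext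
        intro x
        obtain ⟨v, rfl⟩ := W.mkQ_surjective x
        rw [LinearMap.add_apply, hM', hM', hM', hM.add, LinearMap.add_apply, map_add]
      · refine open_of hM.add (fun g k => ?_) hM.op (fun g hg => ?_)
        · apply LinearMap.ext
          intro x
          obtain ⟨v, rfl⟩ := W.mkQ_surjective x
          rw [LinearMap.add_apply, hM', hM', hM', hM.add, LinearMap.add_apply, map_add]
        · apply LinearMap.ext
          intro x
          obtain ⟨v, rfl⟩ := W.mkQ_surjective x
          rw [hM', hg]
          simp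
      · apply LinearMap.ext
        intro x
        obtain ⟨v, rfl⟩ := W.mkQ_surjective x
        rw [hM', hM.ur u hu]
        simp
      · apply LinearMap.ext
        intro x
        obtain ⟨v, rfl⟩ := W.mkQ_surjective x
        rw [LinearMap.sub_apply, Module.End.mul_apply, Module.End.mul_apply, LinearMap.smul_apply,
          hM', hM', hM', hM', ← map_sub, ← map_smul]
        have h1 := congrArg (fun f : Module.End κ V => f v) (hM.rel τ σ a ht)
        simp only [LinearMap.sub_apply, Module.End.mul_apply, LinearMap.smul_apply] at h1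
        rw [h1]
    have hl' : ∀ x : V ⧸ W, M' t.γ x = (l + 1) • x → x = 0 := by
      have hinj : Function.Injective (M t.γ - algebraMap κ (Module.End κ V) (l + 1)) := by
        rw [← LinearMap.ker_eq_bot, Submodule.eq_bot_iff]
        intro v hv
        apply hl
        rw [LinearMap.mem_ker, LinearMap.sub_apply, Module.algebraMap_end_apply, sub_eq_zero] at hv
        exact hv
      have hsurj := LinearMap.injective_iff_surjective.1 hinj
      set f' : Module.End κ (V ⧸ W) := M' t.γ - algebraMap κ (Module.End κ (V ⧸ W)) (l + 1) with hf'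
      have hsurj' : Function.Surjective f' := by
        intro x
        obtain ⟨v, rfl⟩ := W.mkQ_surjective x
        obtain ⟨u, hu⟩ := hsurj v
        refine ⟨W.mkQ u, ?_⟩
        rw [hf', LinearMap.sub_apply, hM', Module.algebraMap_end_apply, ← map_smul, ← map_sub]
        congr 1
      have hinj' := LinearMap.injective_iff_surjective.2 hsurj'
      intro x hx
      apply hinj'
      rw [map_zero, hf', LinearMap.sub_apply, hx, Module.algebraMap_end_apply, sub_self]
    have ih' := ih (fun m h1 h2 => hfo m h1 (h2.trans (Nat.le_succ n))) (V ⧸ W) hfr M' hMV l hl'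
    -- the generalized eigenspace
    set Z := M t.γ - algebraMap κ (Module.End κ V) l with hZ
    have hZq : ∀ (k : ℕ) (v : V), ((M' t.γ - algebraMap κ (Module.End κ (V ⧸ W)) l) ^ k)
        (W.mkQ v) = W.mkQ ((Z ^ k) v) := by
      intro k
      induction k with
      | zero => intro v; rfl
      | succ k ihk =>
        intro v
        rw [pow_succ, Module.End.mul_apply, pow_succ, Module.End.mul_apply]
        have h1 : (M' t.γ - algebraMap κ (Module.End κ (V ⧸ W)) l) (W.mkQ v) = W.mkQ (Z v) := by
          rw [hZ, LinearMap.sub_apply, hM', Module.algebraMap_end_apply, LinearMap.sub_apply,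
            Module.algebraMap_end_apply, map_sub, map_smul]
        rw [h1, ihk]
    have hb : ∀ (N : ℕ) (w : V), (Z ^ N) w = 0 → ∀ g, ∃ b : κ,
        M g w = t.ψ g • M t.γ w + b • v1 := by
      intro N w hw g
      have h1 := ih' N (W.mkQ w) (by rw [hZq, hw, map_zero]) g
      rw [hM', hM', ← map_smul, ← sub_eq_zero, ← map_sub, Submodule.mkQ_apply,
        Submodule.Quotient.mk_eq_zero, hW, Submodule.mem_span_singleton] at h1
      obtain ⟨b, hb⟩ := h1
      exact ⟨b, by rw [hb]; abel⟩
    have hZcomm : ∀ (N : ℕ) (w : V), (Z ^ N) w = 0 → (Z ^ N) (M t.γ w) = 0 := by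
      intro N w hw
      have h1 : Commute (Z ^ N) (M t.γ) := by
        apply Commute.pow_left
        rw [hZ]
        exact (Commute.refl _).sub_left (Algebra.commutes l (M t.γ))
      have h2 := congrArg (fun f : Module.End κ V => f w) h1.eq
      simp only [Module.End.mul_apply] at h2
      rw [h2, hw, map_zero]
    -- on inertia elements
    have hτ : ∀ τ σ a, t.T τ σ a → ∀ (j N : ℕ) (w : V), (Z ^ N) w = 0 →
        M τ ((Z ^ j) w) = (l1 - 1 - l) ^ j • M τ w := by
      intro τ σ a ht j
      obtain ⟨hψτ, hψσ, ha⟩ := hc.ψT τ σ a ht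
      have step : ∀ (N : ℕ) (w : V), (Z ^ N) w = 0 → M τ (Z w) = (l1 - 1 - l) • M τ w := by
        intro N w hw
        obtain ⟨b1, hb1⟩ := hb N w hw τ
        obtain ⟨b2, hb2⟩ := hb N w hw σ
        obtain ⟨b3, hb3⟩ := hb N (M t.γ w) (hZcomm N w hw) τ
        rw [hψτ, zero_smul, zero_add] at hb1 hb3
        have hzτ : M τ v1 = 0 := by rw [hz, hzT τ σ a ht, zero_smul]
        have hzσ : M σ v1 = (a * l1) • v1 := by rw [hz, hzψ, hψσ]
        have h1 := congrArg (fun f : Module.End κ V => f w) (hM.rel τ σ a ht)
        simp only [LinearMap.sub_apply, Module.End.mul_apply, LinearMap.smul_apply] at h1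
        rw [hb2, map_add, map_smul, map_smul, hzτ, smul_zero, add_zero, hb1, map_smul, hzσ, hb3,
          hψσ, smul_smul, smul_smul, smul_smul, ← sub_smul] at h1
        have h2 := hcancel _ _ h1
        have h3 : b3 = (l1 - 1) * b1 := by
          apply mul_left_cancel₀ ha
          linear_combination -h2
        rw [hZ, LinearMap.sub_apply, map_sub, Module.algebraMap_end_apply, map_smul, hb3, hb1, h3,
          smul_smul, smul_smul, ← sub_smul]
        congr 1
        ring
      induction j with
      | zero => intro N w _; rw [pow_zero, pow_zero, one_smul]; rfl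
      | succ j ihj =>
        intro N w hw
        have hw' : (Z ^ N) (Z w) = 0 := by
          have h1 : (Z ^ N) (Z w) = Z ((Z ^ N) w) := by
            rw [← Module.End.mul_apply, ← Module.End.mul_apply, ← pow_succ, ← pow_succ']
          rw [h1, hw, map_zero]
        rw [pow_succ, Module.End.mul_apply, ihj N (Z w) hw', step N w hw, smul_smul, pow_succ]
    have hτ0 : ∀ τ σ a, t.T τ σ a → ∀ (N : ℕ) (w : V), (Z ^ N) w = 0 → M τ w = 0 := by
      intro τ σ a ht N w hw
      have h1 := hτ τ σ a ht N N w hw
      rw [hw, map_zero] at h1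
      refine (smul_eq_zero.1 h1.symm).resolve_left (pow_ne_zero _ fun h0 => hl1' ?_)
      linear_combination h0
    -- conclusion
    choose b hb' using fun g => hb N w hw g
    have hψadd : ∀ g k, t.ψ (g * k) = t.ψ g + t.ψ k ∨ z t.γ = 0 := by
      intro g k
      by_cases h0 : z t.γ = 0
      · exact Or.inr h0
      · left
        apply mul_right_cancel₀ h0
        rw [add_mul, ← hzψ, ← hzψ, ← hzψ, hzadd]
    -- the function `g ↦ M g w` itself
    let φs := fun (φ : V →ₗ[κ] κ) (g : G) => φ (M g w)
    have hφ : ∀ φ : V →ₗ[κ] κ, φ (M g w) = t.ψ g * φ (M t.γ w) := by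
      intro φ
      refine hc.char (fun g => φ (M g w)) (fun g k => ?_) ?_ (fun u hu => ?_)
        (fun τ σ a ht => ?_) g
      · show φ (M (g * k) w) = _
        rw [hM.add, LinearMap.add_apply, map_add]
      · refine open_of hM.add (fun g k => ?_) hM.op (fun g hg => ?_)
        · show φ (M (g * k) w) = φ (M g w) + φ (M k w)
          rw [hM.add, LinearMap.add_apply, map_add]
        · show φ (M g w) = 0
          rw [hg, LinearMap.zero_apply, map_zero]
      · show φ (M u w) = 0
        rw [hM.ur u hu, LinearMap.zero_apply, map_zero]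
      · show φ (M τ w) = 0
        rw [hτ0 τ σ a ht N w hw, map_zero]
    rw [← sub_eq_zero, ← Module.forall_dual_apply_eq_zero_iff κ]
    intro φ
    rw [map_sub, map_smul, hφ φ, smul_eq_mul, sub_self]

end

theorem stable : S_STABLE := by
  intro κ _ G _ _ _ t hc n hfo M hM l hl N w hw g
  have hV : FV t (V := Fin n → κ) fun g => Matrix.toLin' (M g) := by
    refine ⟨fun g k => ?_, ?_, fun u hu => ?_, fun τ σ a ht => ?_⟩
    · show Matrix.toLin' (M (g * k)) = _
      rw [hM.add, map_add]
    · have h1 : {g | Matrix.toLin' (M g) = 0} = {g | M g = 0} := by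
        ext g
        exact LinearEquiv.map_eq_zero_iff _
      rw [h1]
      exact hM.op
    · rw [hM.ur u hu, map_zero]
    · have h1 := congrArg Matrix.toLin' (hM.rel τ σ a ht)
      rw [map_sub, Matrix.toLin'_mul, Matrix.toLin'_mul, map_smul] at h1
      exact h1
  have h2 : (Matrix.toLin' (M t.γ) - algebraMap κ (Module.End κ (Fin n → κ)) l) =
      Matrix.toLin' (M t.γ - l • (1 : Matrix (Fin n) (Fin n) κ)) := by
    rw [map_sub, map_smul, Matrix.toLin'_one]
    rfl
  have h3 : ∀ k, (Matrix.toLin' (M t.γ) - algebraMap κ (Module.End κ (Fin n → κ)) l) ^ k =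
      Matrix.toLin' ((M t.γ - l • (1 : Matrix (Fin n) (Fin n) κ)) ^ k) := by
    intro k
    rw [h2]
    induction k with
    | zero => rw [pow_zero, pow_zero, Matrix.toLin'_one]; rfl
    | succ k ih => rw [pow_succ, pow_succ, Matrix.toLin'_mul, ih]; rfl
  exact stableV hc n hfo (Fin n → κ) (Module.finrank_fin_fun κ) _ hV l
    (fun v hv => hl v (by rw [← Matrix.toLin'_apply]; exact hv)) N w
    (by rw [h3, Matrix.toLin'_apply]; exact hw) g

end Pool.Agent.Q15.JT
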