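import Pool.Agent.Q15.JT.J1

set_option autoImplicit false

open Matrix IsLocalRing

namespace Pool.Agent.Q15.JT

theorem split : S_SPLIT := by
  classical
  intro O _ _ n e he he0 he1
  let f : (Fin n → O) →ₗ[O] (Fin n → O) := Matrix.toLin' e
  have hff : f ∘ₗ f = f := by
    show Matrix.toLin' e ∘ₗ Matrix.toLin' e = Matrix.toLin' e
    rw [← Matrix.toLin'_mul, he]
  let N := LinearMap.range f
  have hrs : f.rangeRestrict ∘ₗ N.subtype = LinearMap.id := by
    apply LinearMap.ext
    rintro ⟨x, y, rfl⟩
    apply Subtype.ext
    show f (f y) = f y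
    exact congrArg (fun T : (Fin n → O) →ₗ[O] (Fin n → O) => T y) hff
  have : Module.Projective O N := Module.Projective.of_split N.subtype f.rangeRestrict hrs
  have : Module.Finite O N := Module.Finite.of_surjective f.rangeRestrict
    (LinearMap.surjective_rangeRestrict f)
  have : Module.Free O N := Module.free_of_flat_of_isLocalRing
  let b := Module.finBasis O N
  set m := Module.finrank O N with hm
  let ι : Matrix (Fin n) (Fin m) O := LinearMap.toMatrix' (N.subtype ∘ₗ b.equivFun.symm.toLinearMap)
  let r : Matrix (Fin m) (Fin n) O := LinearMap.toMatrix' (b.equivFun.toLinearMap ∘ₗ f.rangeRestrict)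
  have h1 : r * ι = 1 := by
    show LinearMap.toMatrix' _ * LinearMap.toMatrix' _ = 1
    rw [← LinearMap.toMatrix'_comp]
    have h2 : (b.equivFun.toLinearMap ∘ₗ f.rangeRestrict) ∘ₗ
        (N.subtype ∘ₗ b.equivFun.symm.toLinearMap) = LinearMap.id := by
      rw [LinearMap.comp_assoc, ← LinearMap.comp_assoc _ N.subtype, hrs, LinearMap.id_comp]
      apply LinearMap.ext
      intro x
      show b.equivFun (b.equivFun.symm x) = x
      exact b.equivFun.apply_symm_apply x
    rw [h2, LinearMap.toMatrix'_id]
  have h2 : ι * r = e := by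
    show LinearMap.toMatrix' _ * LinearMap.toMatrix' _ = e
    rw [← LinearMap.toMatrix'_comp]
    have h3 : (N.subtype ∘ₗ b.equivFun.symm.toLinearMap) ∘ₗ
        (b.equivFun.toLinearMap ∘ₗ f.rangeRestrict) = f := by
      apply LinearMap.ext
      intro x
      show ((b.equivFun.symm (b.equivFun (f.rangeRestrict x)) : N) : Fin n → O) = f x
      rw [LinearEquiv.symm_apply_apply]
      rfl
    rw [h3]
    exact LinearMap.toMatrix'_toLin' e
  refine ⟨m, ι, r, ?_, ?_, h1, h2⟩
  · by_contra h0
    have h3 : m = 0 := by omega
    apply he0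
    rw [← h2]
    ext i j
    rw [Matrix.mul_apply]
    have : IsEmpty (Fin m) := by rw [h3]; infer_instance
    rw [Finset.univ_eq_empty, Finset.sum_empty]
    rfl
  · have hle : m ≤ n := by
      have h3 := card_le_of_injective O (Matrix.toLin' ι) (by
        apply Function.LeftInverse.injective (g := Matrix.toLin' r)
        intro x
        rw [← LinearMap.comp_apply, ← Matrix.toLin'_mul, h1, Matrix.toLin'_one]
        rfl)
      simpa using h3
    rcases hle.lt_or_eq with h3 | h3
    · exact h3
    · exfalso
      apply he1
      rw [← h2]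
      clear_value m
      subst h3
      exact mul_eq_one_comm.1 h1

open Polynomial in
theorem cop1 {R : Type} [CommRing R] (y : R) (s : Multiset R) (h : ∀ z ∈ s, IsUnit (y - z)) :
    IsCoprime (X - C y) (s.map fun z => X - C z).prod := by
  induction s using Multiset.induction with
  | empty => simpa using isCoprime_one_right
  | cons a s ih =>
    rw [Multiset.map_cons, Multiset.prod_cons]
    exact (isCoprime_X_sub_C_of_isUnit_sub (h a (Multiset.mem_cons_self a s))).mul_right
      (ih fun z hz => h z (Multiset.mem_cons_of_mem hz))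

open Polynomial in
theorem cop2 {R : Type} [CommRing R] (t s : Multiset R) (h : ∀ y ∈ t, ∀ z ∈ s, IsUnit (y - z)) :
    IsCoprime (t.map fun z => X - C z).prod (s.map fun z => X - C z).prod := by
  induction t using Multiset.induction with
  | empty => simpa using isCoprime_one_left
  | cons a t ih =>
    rw [Multiset.map_cons, Multiset.prod_cons]
    exact (cop1 a s (h a (Multiset.mem_cons_self a t))).mul_left
      (ih fun y hy => h y (Multiset.mem_cons_of_mem hy))

open Polynomial in
theorem red_aeval {O : Type} [CommRing O] [IsLocalRing O] {n : ℕ} (Y : Matrix (Fin n) (Fin n) O)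
    (q : O[X]) : red (aeval Y q) = aeval (red Y) (q.map (residue O)) := by
  have h1 : red (aeval Y q) = (residue O).mapMatrix (aeval Y q) := rfl
  rw [h1, aeval_def, hom_eval₂, aeval_def, eval₂_map]
  congr 1
  ext x i j
  simp only [RingHom.comp_apply, Matrix.algebraMap_matrix_apply, RingHom.mapMatrix_apply,
    Matrix.map_apply, Algebra.algebraMap_self, RingHom.id_apply]
  split_ifs <;> simp

open Polynomial in
theorem spec : S_SPEC := by
  classical
  intro O _ _ _ _ E _ _ _ _ n Y l
  have hinj : Function.Injective (algebraMap O E) := IsFractionRing.injective O E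
  set f := Y.charpoly with hf
  have hmon : f.Monic := Matrix.charpoly_monic Y
  -- the roots
  obtain ⟨s, hs⟩ : ∃ s : Multiset O, f = (s.map fun z => X - C z).prod := by
    have hint : ∀ x ∈ (f.map (algebraMap O E)).roots, ∃ y : O, algebraMap O E y = x := by
      intro x hx
      have h1 := (mem_roots'.1 hx).2
      have h2 : IsIntegral O x := ⟨f, hmon, by
        rw [IsRoot.def, eval_map] at h1
        exact h1⟩
      exact IsIntegrallyClosed.isIntegral_iff.1 h2
    choose g hg using hint
    refine ⟨(f.map (algebraMap O E)).roots.attach.map fun x => g x.1 x.2, ?_⟩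
    apply Polynomial.map_injective _ hinj
    have h1 : (f.map (algebraMap O E)).Splits := IsAlgClosed.splits _
    have h2 := h1.eq_prod_roots_of_monic (hmon.map _)
    rw [Polynomial.map_multiset_prod, Multiset.map_map, Multiset.map_map]
    have h3 : ((f.map (algebraMap O E)).roots.attach.map
        ((Polynomial.map (algebraMap O E) ∘ fun z => X - C z) ∘ fun x => g x.1 x.2)) =
        (f.map (algebraMap O E)).roots.map fun a => X - C a := by
      conv_rhs => rw [← Multiset.attach_map_val (f.map (algebraMap O E)).roots]
      rw [Multiset.map_map]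
      apply Multiset.map_congr rfl
      rintro ⟨x, hx⟩ -
      show (X - C (g x hx)).map (algebraMap O E) = X - C x
      rw [Polynomial.map_sub, Polynomial.map_X, Polynomial.map_C, hg]
    rw [h3]
    exact h2
  set U := s.filter fun y => residue O y = l with hU
  set U' := s.filter fun y => ¬ residue O y = l with hU'
  set fU := (U.map fun z => X - C z).prod with hfU
  set fU' := (U'.map fun z => X - C z).prod with hfU'
  have hff : fU * fU' = f := by
    rw [hs, hfU, hfU', ← Multiset.prod_add, ← Multiset.map_add, hU, hU', Multiset.filter_add_not]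
  have hcop : IsCoprime fU fU' := by
    apply cop2
    intro y hy z hz
    have h1 : residue O (y - z) ≠ 0 := by
      rw [map_sub, sub_ne_zero, (Multiset.mem_filter.1 hy).2]
      exact fun h => (Multiset.mem_filter.1 hz).2 h.symm
    by_contra h2
    exact h1 ((residue_eq_zero_iff _).2 ((mem_maximalIdeal _).2 h2))
  obtain ⟨u, v, huv⟩ := hcop
  set e := aeval Y (v * fU') with he
  have h1e : 1 - e = aeval Y (u * fU) := by
    rw [he, sub_eq_iff_eq_add, ← map_add, huv, map_one]
  have hch : aeval Y f = 0 := Matrix.aeval_self_charpoly Y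
  have hee : e * (1 - e) = 0 := by
    rw [h1e, he, ← map_mul]
    have h2 : v * fU' * (u * fU) = u * v * f := by rw [← hff]; ring
    rw [h2, map_mul, hch, mul_zero]
  have hcard : Multiset.card U ≤ n := by
    have h1 : Multiset.card s = n := by
      have h2 : f.natDegree = Multiset.card s := by
        rw [hs]
        exact natDegree_multiset_prod_X_sub_C_eq_card s
      rw [← h2, hf, Matrix.charpoly_natDegree_eq_dim, Fintype.card_fin]
    rw [← h1, hU]
    exact Multiset.card_le_card (Multiset.filter_le _ _)
  have hfUr : fU.map (residue O) = (X - C l) ^ Multiset.card U := by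
    rw [hfU, Polynomial.map_multiset_prod, Multiset.map_map]
    have h2 : (U.map (Polynomial.map (residue O) ∘ fun z => X - C z)) =
        U.map fun _ => (X - C l : (ResidueField O)[X]) := by
      apply Multiset.map_congr rfl
      intro y hy
      show (X - C y).map (residue O) = _
      rw [Polynomial.map_sub, Polynomial.map_X, Polynomial.map_C, (Multiset.mem_filter.1 hy).2]
    rw [h2, Multiset.map_const', Multiset.prod_replicate]
  set Z := red Y - l • (1 : Matrix (Fin n) (Fin n) (ResidueField O)) with hZ
  have hZa : ∀ k : ℕ, aeval (red Y) ((X - C l) ^ k) = Z ^ k := by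
    intro k
    rw [map_pow, map_sub, aeval_X, aeval_C, hZ, Algebra.algebraMap_eq_smul_one]
  have hZe : Z ^ Multiset.card U * red e = 0 := by
    rw [← hZa, ← hfUr, ← red_aeval, ← red_mul, he, ← map_mul]
    have h2 : fU * (v * fU') = v * f := by rw [← hff]; ring
    rw [h2, map_mul, hch, mul_zero, red_zero]
  have hcop' : IsCoprime ((X - C l) ^ n) (fU'.map (residue O)) := by
    apply IsCoprime.pow_left
    rw [hfU', Polynomial.map_multiset_prod, Multiset.map_map]
    have h2 : (U'.map (Polynomial.map (residue O) ∘ fun z => X - C z)) =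
        (U'.map (residue O)).map fun z => X - C z := by
      rw [Multiset.map_map]
      apply Multiset.map_congr rfl
      intro y _
      show (X - C y).map (residue O) = _
      rw [Polynomial.map_sub, Polynomial.map_X, Polynomial.map_C]
      rfl
    rw [h2]
    apply cop1
    intro z hz
    obtain ⟨y, hy, rfl⟩ := Multiset.mem_map.1 hz
    exact (sub_ne_zero.2 fun h => (Multiset.mem_filter.1 hy).2 h.symm).isUnit
  obtain ⟨a, b, hab⟩ := hcop'
  refine ⟨e, ?_, ?_, fun w => ⟨fun hw => ?_, fun hw => ?_⟩⟩
  · rw [Matrix.mul_sub, Matrix.mul_one, sub_eq_zero] at hee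
    exact hee.symm
  · have h2 : Y = aeval Y (X : O[X]) := (aeval_X Y).symm
    conv_lhs => rw [h2]
    conv_rhs => rw [h2]
    rw [he]
    simp only [aeval_X]
    have h3 : aeval Y (v * fU') * Y = aeval Y (v * fU' * X) := by rw [map_mul _ _ X, aeval_X]
    have h4 : Y * aeval Y (v * fU') = aeval Y (X * (v * fU')) := by rw [map_mul _ X, aeval_X]
    rw [h3, h4, mul_comm]
  · set w' := (1 - red e) *ᵥ w with hw'
    have h2 : (fU'.map (residue O)).aeval (red Y) *ᵥ w' = 0 := by
      have h3 : (1 : Matrix (Fin n) (Fin n) (ResidueField O)) - red e = red (1 - e) := by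
        rw [red_sub, red_one]
      rw [hw', h3, h1e, ← red_aeval, Matrix.mulVec_mulVec, ← red_mul, ← map_mul]
      have h4 : fU' * (u * fU) = u * f := by rw [← hff]; ring
      rw [h4, map_mul, hch, mul_zero, red_zero, Matrix.zero_mulVec]
    have h3 : Z ^ n *ᵥ w' = 0 := by
      have h4 : (1 : Matrix (Fin n) (Fin n) (ResidueField O)) - red e =
          aeval (red Y) ((u * fU).map (residue O)) := by
        rw [← red_aeval, ← h1e, red_sub, red_one]
      rw [hw', h4, ← hZa, Matrix.mulVec_mulVec, ← map_mul, mul_comm, map_mul, hZa,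
        ← Matrix.mulVec_mulVec, hw, Matrix.mulVec_zero]
    have h4 : w' = 0 := by
      have h5 := congrArg (fun q => aeval (red Y) q *ᵥ w') hab
      simp only [map_add, map_mul, map_one, Matrix.add_mulVec, Matrix.one_mulVec] at h5
      rw [← Matrix.mulVec_mulVec, ← Matrix.mulVec_mulVec, h2, hZa, h3, Matrix.mulVec_zero,
        Matrix.mulVec_zero, add_zero] at h5
      exact h5.symm
    rw [hw', Matrix.sub_mulVec, Matrix.one_mulVec, sub_eq_zero] at h4
    exact h4.symm
  · obtain ⟨k, hk⟩ := Nat.exists_eq_add_of_le' hcard
    have hZn : Z ^ n = Z ^ k * Z ^ Multiset.card U := by rw [← pow_add, ← hk]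
    rw [← hw, hZn, Matrix.mulVec_mulVec, Matrix.mul_assoc, hZe, Matrix.mul_zero,
      Matrix.zero_mulVec]

theorem flag : S_FLAG := by
  classical
  intro O _ _ _ E _ _ _ G P hquot heig n
  have hinj : Function.Injective (algebraMap O E) := IsFractionRing.injective O E
  induction n with
  | zero =>
    intro D _
    exact ⟨1, 1, Matrix.one_mul _, Matrix.one_mul _, fun g i => i.elim0⟩
  | succ n ih =>
    intro D hD
    obtain ⟨v0, hv0, hv0c⟩ := heig (n + 1) D (Nat.succ_pos n) hD
    -- a primitive eigenvector
    obtain ⟨i0, v, hvi, w, hw0, hvw⟩ : ∃ (i0 : Fin (n + 1)) (v : Fin (n + 1) → O), v i0 = 1 ∧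
        ∃ w : E, w ≠ 0 ∧ (fun i => algebraMap O E (v i)) = w • v0 := by
      obtain ⟨i0, hi0⟩ := Finite.exists_max fun i => ValuationRing.valuation O E (v0 i)
      have hne : v0 i0 ≠ 0 := by
        intro h0
        apply hv0
        funext i
        have h1 := hi0 i
        rw [h0, map_zero, le_zero_iff, map_eq_zero] at h1
        exact h1
      have hmem : ∀ i, ∃ y : O, algebraMap O E y = v0 i / v0 i0 := by
        intro i
        rw [← ValuationRing.mem_integer_iff, Valuation.mem_integer_iff, map_div₀]
        have h2 : (ValuationRing.valuation O E (v0 i0)) ≠ 0 := by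
          rwa [Ne, map_eq_zero]
        rw [div_le_iff₀ (zero_lt_iff.2 h2), one_mul]
        exact hi0 i
      choose v hv using hmem
      refine ⟨i0, v, ?_, (v0 i0)⁻¹, inv_ne_zero hne, ?_⟩
      · apply hinj
        rw [hv, map_one, div_self hne]
      · funext i
        rw [hv, Pi.smul_apply, smul_eq_mul, div_eq_inv_mul]
    have hDv : ∀ g, D g *ᵥ v = (D g *ᵥ v) i0 • v := by
      intro g
      obtain ⟨c, hc⟩ := hv0c g
      have h1 : (D g).map (algebraMap O E) *ᵥ (fun i => algebraMap O E (v i)) =
          c • fun i => algebraMap O E (v i) := by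
        rw [hvw, Matrix.mulVec_smul, hc, smul_comm]
      have h2 : ∀ i, algebraMap O E ((D g *ᵥ v) i) = c * algebraMap O E (v i) := by
        intro i
        have h3 := congrFun h1 i
        rw [Pi.smul_apply, smul_eq_mul] at h3
        rw [← h3]
        simp only [Matrix.mulVec, dotProduct, map_sum, map_mul, Matrix.map_apply]
      funext i
      apply hinj
      rw [Pi.smul_apply, smul_eq_mul, map_mul, h2, h2, hvi, map_one, mul_one]
    -- the matrices
    let s : Matrix (Fin (n + 1)) (Fin n) O :=
      Matrix.of fun i j => if i = i0.succAbove j then 1 else 0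
    let r : Matrix (Fin n) (Fin (n + 1)) O := Matrix.of fun j i =>
      (if i = i0.succAbove j then 1 else 0) - (if i = i0 then v (i0.succAbove j) else 0)
    let V : Matrix (Fin (n + 1)) (Fin 1) O := Matrix.of fun i _ => v i
    let e0 : Matrix (Fin 1) (Fin (n + 1)) O := Matrix.of fun _ i => if i = i0 then 1 else 0
    have hrs : r * s = 1 := by
      ext j k
      rw [Matrix.mul_apply, Matrix.one_apply]
      have h1 : ∀ i, r j i * s i k = if i = i0.succAbove k then r j i else 0 := by
        intro i
        show r j i * (if i = i0.succAbove k then 1 else 0) = _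
        split_ifs <;> simp
      simp only [h1]
      rw [Finset.sum_ite_eq' Finset.univ (i0.succAbove k), if_pos (Finset.mem_univ _)]
      show (if i0.succAbove k = i0.succAbove j then (1 : O) else 0) -
        (if i0.succAbove k = i0 then v (i0.succAbove j) else 0) = _
      rw [if_neg (Fin.succAbove_ne i0 k), sub_zero]
      by_cases hjk : j = k
      · rw [hjk, if_pos rfl, if_pos rfl]
      · rw [if_neg (fun h => hjk (Fin.succAbove_right_injective h).symm), if_neg hjk]
    have hrV : r * V = 0 := by
      ext j k
      rw [Matrix.mul_apply, Matrix.zero_apply]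
      have h1 : ∀ i, r j i * V i k = (if i = i0.succAbove j then v i else 0) -
          (if i = i0 then v (i0.succAbove j) * v i else 0) := by
        intro i
        show ((if i = i0.succAbove j then (1 : O) else 0) -
          (if i = i0 then v (i0.succAbove j) else 0)) * v i = _
        split_ifs <;> ring
      simp only [h1]
      rw [Finset.sum_sub_distrib, Finset.sum_ite_eq' Finset.univ (i0.succAbove j),
        Finset.sum_ite_eq' Finset.univ i0, if_pos (Finset.mem_univ _), if_pos (Finset.mem_univ _),
        hvi, mul_one, sub_self]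
    have h1s : s * r + V * e0 = 1 := by
      ext i i'
      rw [Matrix.add_apply, Matrix.mul_apply, Matrix.mul_apply, Matrix.one_apply]
      rw [Fin.sum_univ_one]
      show ∑ j, (if i = i0.succAbove j then (1 : O) else 0) *
        ((if i' = i0.succAbove j then 1 else 0) - (if i' = i0 then v (i0.succAbove j) else 0)) +
        v i * (if i' = i0 then 1 else 0) = _
      by_cases hi : i = i0
      · have h2 : ∀ j, (if i = i0.succAbove j then (1 : O) else 0) = 0 := fun j =>
          if_neg fun h => Fin.succAbove_ne i0 j (h.symm.trans hi)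
        simp only [h2, zero_mul, Finset.sum_const_zero, zero_add]
        rw [hi, hvi, one_mul]
        exact if_congr eq_comm rfl rfl
      · obtain ⟨j0, rfl⟩ := Fin.exists_succAbove_eq hi
        have h2 : ∀ j, (if i0.succAbove j0 = i0.succAbove j then (1 : O) else 0) =
            if j0 = j then 1 else 0 := fun j => if_congr
              (Fin.succAbove_right_injective.eq_iff) rfl rfl
        simp only [h2, ite_mul, one_mul, zero_mul]
        rw [Finset.sum_ite_eq Finset.univ j0, if_pos (Finset.mem_univ _)]
        have h3 : (if i' = i0.succAbove j0 then (1 : O) else 0) =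
            if i0.succAbove j0 = i' then 1 else 0 := if_congr eq_comm rfl rfl
        rw [h3]
        split_ifs <;> simp
    let C : G → Matrix (Fin 1) (Fin 1) O := fun g => Matrix.of fun _ _ => (D g *ᵥ v) i0
    have hDV : ∀ g, D g * V = V * C g := by
      intro g
      ext i k
      rw [Matrix.mul_apply, Matrix.mul_apply, Fin.sum_univ_one]
      have h2 := congrFun (hDv g) i
      rw [Pi.smul_apply, smul_eq_mul, mul_comm] at h2
      exact h2
    have hcomm : ∀ g, r * D g = (r * D g * s) * r := by
      intro g
      have h2 : r * D g * (V * e0) = 0 := by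
        rw [← Matrix.mul_assoc, Matrix.mul_assoc r, hDV, ← Matrix.mul_assoc r, hrV, Matrix.zero_mul,
          Matrix.zero_mul]
      calc r * D g = r * D g * (s * r + V * e0) := by rw [h1s, Matrix.mul_one]
        _ = (r * D g * s) * r := by rw [Matrix.mul_add, h2, add_zero, ← Matrix.mul_assoc]
    obtain ⟨Q1, Q1', hQ, hQ', hQt⟩ := ih (fun g => r * D g * s)
      (hquot n (n + 1) D (fun g => r * D g * s) r s hrs hcomm hD)
    set φ := algebraMap O E with hφ
    let Q : Matrix (Fin (n + 1)) (Fin (n + 1)) E :=
      Matrix.of fun i => Fin.cons (φ (v i)) fun j => (s.map φ * Q1) i j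
    let Q' : Matrix (Fin (n + 1)) (Fin (n + 1)) E :=
      Matrix.of (Fin.cons (fun i => φ (e0 0 i)) fun j i => (Q1' * r.map φ) j i)
    have hrs' : r.map φ * s.map φ = 1 := by
      rw [← Matrix.map_mul, hrs, Matrix.map_one _ (map_zero _) (map_one _)]
    have hrV' : r.map φ * V.map φ = 0 := by
      rw [← Matrix.map_mul, hrV]
      ext i j
      simp
    have hes' : e0.map φ * s.map φ = 0 := by
      rw [← Matrix.map_mul]
      have h2 : e0 * s = 0 := by
        ext i j
        rw [Matrix.mul_apply, Matrix.zero_apply]
        apply Finset.sum_eq_zero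
        intro k _
        show (if k = i0 then (1 : O) else 0) * (if k = i0.succAbove j then 1 else 0) = 0
        by_cases hk : k = i0
        · rw [if_neg (c := k = i0.succAbove j) fun h => Fin.succAbove_ne i0 j (h.symm.trans hk),
            mul_zero]
        · rw [if_neg hk, zero_mul]
      rw [h2]
      ext i j
      simp
    have heV' : e0.map φ * V.map φ = 1 := by
      rw [← Matrix.map_mul]
      have h2 : e0 * V = 1 := by
        ext i j
        rw [Matrix.mul_apply, Matrix.one_apply, if_pos (Subsingleton.elim _ _)]
        have h3 : ∀ k, e0 i k * V k j = if k = i0 then v k else 0 := by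
          intro k
          show (if k = i0 then (1 : O) else 0) * v k = _
          split_ifs <;> simp
        simp only [h3]
        rw [Finset.sum_ite_eq' Finset.univ i0, if_pos (Finset.mem_univ _), hvi]
      rw [h2, Matrix.map_one _ (map_zero _) (map_one _)]
    -- block products
    have b00 : ∀ A : Matrix (Fin (n + 1)) (Fin (n + 1)) E,
        (Q' * A * Q) 0 0 = (e0.map φ * A * V.map φ) 0 0 := fun A => rfl
    have b01 : ∀ (A : Matrix (Fin (n + 1)) (Fin (n + 1)) E) (j : Fin n),
        (Q' * A * Q) 0 j.succ = (e0.map φ * A * (s.map φ * Q1)) 0 j := fun A j => rfl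
    have b10 : ∀ (A : Matrix (Fin (n + 1)) (Fin (n + 1)) E) (i : Fin n),
        (Q' * A * Q) i.succ 0 = ((Q1' * r.map φ) * A * V.map φ) i 0 := fun A i => rfl
    have b11 : ∀ (A : Matrix (Fin (n + 1)) (Fin (n + 1)) E) (i j : Fin n),
        (Q' * A * Q) i.succ j.succ = ((Q1' * r.map φ) * A * (s.map φ * Q1)) i j :=
      fun A i j => rfl
    have hQQ : Q' * Q = 1 := by
      have h2 : Q' * Q = Q' * 1 * Q := by rw [Matrix.mul_one]
      rw [h2]
      ext i j
      refine Fin.cases ?_ (fun i => ?_) i
      · refine Fin.cases ?_ (fun j => ?_) j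
        · rw [b00, Matrix.mul_one, heV', Matrix.one_apply_eq, Matrix.one_apply_eq]
        · rw [b01, Matrix.mul_one, ← Matrix.mul_assoc, hes', Matrix.zero_mul,
            Matrix.one_apply_ne (Fin.succ_ne_zero j).symm]
          rfl
      · refine Fin.cases ?_ (fun j => ?_) j
        · rw [b10, Matrix.mul_one, Matrix.mul_assoc, hrV', Matrix.mul_zero,
            Matrix.one_apply_ne (Fin.succ_ne_zero i)]
          rfl
        · rw [b11, Matrix.mul_one, Matrix.mul_assoc, ← Matrix.mul_assoc (r.map φ), hrs',
            Matrix.one_mul, hQ', Matrix.one_apply, Matrix.one_apply]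
          exact if_congr (Fin.succ_injective n).eq_iff.symm rfl rfl
    refine ⟨Q, Q', mul_eq_one_comm.1 hQQ, hQQ, fun g i j hji => ?_⟩
    revert hji
    refine Fin.cases (fun h => absurd h (Fin.not_lt_zero j)) (fun i => ?_) i
    refine Fin.cases (fun _ => ?_) (fun j hji => ?_) j
    · rw [b10, Matrix.mul_assoc, Matrix.mul_assoc, ← Matrix.map_mul, hDV, Matrix.map_mul,
        ← Matrix.mul_assoc (r.map φ), hrV', Matrix.zero_mul, Matrix.mul_zero]
      rfl
    · rw [b11]
      have h2 := hQt g i j (Fin.succ_lt_succ_iff.1 hji)
      rw [← h2]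
      have h3 : Q1' * r.map φ * (D g).map φ * (s.map φ * Q1) =
          Q1' * (r * D g * s).map φ * Q1 := by
        rw [Matrix.map_mul, Matrix.map_mul]
        simp only [Matrix.mul_assoc]
      rw [h3]

end Pool.Agent.Q15.JT
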