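import Pool.Agent.Q15.JT.Stm

/-! Representations of a compact group congruent to the identity: assembly (project JT). -/

set_option autoImplicit false
set_option linter.unusedSectionVars false

open Matrix IsLocalRing

namespace Pool.Agent.Q15.JT

section red

variable {O : Type} [CommRing O] [IsLocalRing O] {l m n : Type} [Fintype m]

theorem red_mul (A : Matrix l m O) (B : Matrix m n O) : red (A * B) = red A * red B :=
  Matrix.map_mul

theorem red_add (A B : Matrix l n O) : red (A + B) = red A + red B :=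
  Matrix.map_add _ (map_add _) A B

theorem red_sub (A B : Matrix l n O) : red (A - B) = red A - red B :=
  Matrix.map_sub _ (map_sub _) A B

theorem red_smul (c : O) (A : Matrix l n O) : red (c • A) = residue O c • red A := by
  ext i j
  simp [red]

theorem red_zero : red (0 : Matrix l n O) = 0 := by
  ext i j
  simp [red]

theorem red_one [DecidableEq m] : red (1 : Matrix m m O) = 1 := by
  ext i j
  simp only [red, Matrix.map_apply, Matrix.one_apply]
  split_ifs <;> simp

end red

/-- the representations `1 + π D` -/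
structure Good {E : Type} [NormedField E] [IsUltrametricDist E] {G : Type} [Group G]
    [TopologicalSpace G] (π : OI E) (U : Set G) (T : G → G → ℕ → Prop) {n : ℕ}
    (D : G → Matrix (Fin n) (Fin n) (OI E)) : Prop where
  law : Law π D
  cont : ∀ i j, Continuous fun g => ((D g i j : OI E) : E)
  ur : ∀ u ∈ U, D u = 0
  rel : ∀ τ σ q, T τ σ q →
    (1 + π • D σ) * (1 + π • D τ) = (1 + π • D τ) ^ q * (1 + π • D σ)

section

variable {E : Type} [NormedField E] [IsUltrametricDist E] {G : Type} [Group G]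
  [TopologicalSpace G] {π : OI E} {U : Set G} {T : G → G → ℕ → Prop}

/-- transport along an injective intertwiner -/
theorem Good.of_inter {n m : ℕ} {D : G → Matrix (Fin n) (Fin n) (OI E)} (hD : Good π U T D)
    {D' : G → Matrix (Fin m) (Fin m) (OI E)} (h : Matrix (Fin n) (Fin m) (OI E))
    (hinj : ∀ X : Matrix (Fin m) (Fin m) (OI E), h * X = 0 → X = 0)
    (hcomm : ∀ g, D g * h = h * D' g)
    (hcont : ∀ i j, Continuous fun g => ((D' g i j : OI E) : E)) : Good π U T D' := by
  have hc : ∀ X Y : Matrix (Fin m) (Fin m) (OI E), h * X = h * Y → X = Y := by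
    intro X Y e
    rw [← sub_eq_zero]
    apply hinj
    rw [Matrix.mul_sub, e, sub_self]
  have h1 : ∀ g, (1 + π • D g) * h = h * (1 + π • D' g) := by
    intro g
    rw [Matrix.add_mul, Matrix.one_mul, Matrix.smul_mul, hcomm, Matrix.mul_add, Matrix.mul_one,
      Matrix.mul_smul]
  have h2 : ∀ (g : G) (q : ℕ), (1 + π • D g) ^ q * h = h * (1 + π • D' g) ^ q := by
    intro g q
    induction q with
    | zero => rw [pow_zero, pow_zero, Matrix.one_mul, Matrix.mul_one]
    | succ q ih => rw [pow_succ, pow_succ, Matrix.mul_assoc, h1, ← Matrix.mul_assoc, ih,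
        Matrix.mul_assoc]
  refine ⟨fun g k => hc _ _ ?_, hcont, fun u hu => hinj _ ?_, fun τ σ q ht => hc _ _ ?_⟩
  · rw [← hcomm, hD.law, Matrix.add_mul, Matrix.add_mul, Matrix.smul_mul, Matrix.mul_assoc,
      hcomm, hcomm, ← Matrix.mul_assoc, hcomm, Matrix.mul_add, Matrix.mul_add, Matrix.mul_smul,
      Matrix.mul_assoc]
  · rw [← hcomm, hD.ur u hu, Matrix.zero_mul]
  · rw [← Matrix.mul_assoc, ← h1, Matrix.mul_assoc, ← h1, ← Matrix.mul_assoc, hD.rel τ σ q ht,
      Matrix.mul_assoc, h1, ← Matrix.mul_assoc, h2, Matrix.mul_assoc]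

theorem cont_sum {ι : Type} (s : Finset ι) {F : ι → G → OI E}
    (h : ∀ i ∈ s, Continuous fun g => ((F i g : OI E) : E)) :
    Continuous fun g => ((∑ i ∈ s, F i g : OI E) : E) := by
  have : (fun g => ((∑ i ∈ s, F i g : OI E) : E)) = fun g => ∑ i ∈ s, ((F i g : OI E) : E) := by
    funext g
    push_cast
    rfl
  rw [this]
  exact continuous_finsetSum s h

/-- families with continuous entries -/
def Cts {m n : ℕ} (D : G → Matrix (Fin m) (Fin n) (OI E)) : Prop :=
  ∀ i j, Continuous fun g => ((D g i j : OI E) : E)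

theorem Cts.mul {l m n : ℕ} {A : G → Matrix (Fin l) (Fin m) (OI E)}
    {B : G → Matrix (Fin m) (Fin n) (OI E)} (hA : Cts A) (hB : Cts B) :
    Cts fun g => A g * B g := by
  intro i j
  simp only [Matrix.mul_apply]
  refine cont_sum _ fun k _ => ?_
  have : (fun g => ((A g i k * B g k j : OI E) : E)) =
      fun g => ((A g i k : OI E) : E) * ((B g k j : OI E) : E) := rfl
  rw [this]
  exact (hA i k).mul (hB k j)

theorem Cts.const {m n : ℕ} (A : Matrix (Fin m) (Fin n) (OI E)) : Cts fun _ : G => A :=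
  fun _ _ => continuous_const

theorem Cts.add {m n : ℕ} {A B : G → Matrix (Fin m) (Fin n) (OI E)} (hA : Cts A) (hB : Cts B) :
    Cts fun g => A g + B g := fun i j => (hA i j).add (hB i j)

theorem Cts.sub {m n : ℕ} {A B : G → Matrix (Fin m) (Fin n) (OI E)} (hA : Cts A) (hB : Cts B) :
    Cts fun g => A g - B g := fun i j => (hA i j).sub (hB i j)

theorem Cts.smul {m n : ℕ} {A : G → Matrix (Fin m) (Fin n) (OI E)} (c : OI E) (hA : Cts A) :
    Cts fun g => c • A g := fun i j => continuous_const.mul (hA i j)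

/-- subrepresentations -/
theorem Good.sub {n m : ℕ} {D : G → Matrix (Fin n) (Fin n) (OI E)} (hD : Good π U T D)
    (ι : Matrix (Fin n) (Fin m) (OI E)) (r : Matrix (Fin m) (Fin n) (OI E)) (hr : r * ι = 1)
    (hcomm : ∀ g, D g * ι = ι * (r * D g * ι)) : Good π U T fun g => r * D g * ι := by
  refine hD.of_inter ι (fun X hX => ?_) hcomm ?_
  · rw [← Matrix.one_mul X, ← hr, Matrix.mul_assoc, hX, Matrix.mul_zero]
  · exact ((Cts.const r).mul hD.cont).mul (Cts.const ι)

/-- quotients -/
theorem Good.quot {n m : ℕ} {D : G → Matrix (Fin n) (Fin n) (OI E)} (hD : Good π U T D)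
    {B : G → Matrix (Fin m) (Fin m) (OI E)}
    (r : Matrix (Fin m) (Fin n) (OI E)) (s : Matrix (Fin n) (Fin m) (OI E)) (hr : r * s = 1)
    (hcomm : ∀ g, r * D g = B g * r) : Good π U T B := by
  have hc : ∀ X Y : Matrix (Fin m) (Fin m) (OI E), X * r = Y * r → X = Y := by
    intro X Y e
    rw [← Matrix.mul_one X, ← Matrix.mul_one Y, ← hr, ← Matrix.mul_assoc, e, Matrix.mul_assoc]
  have h1 : ∀ g, r * (1 + π • D g) = (1 + π • B g) * r := by
    intro g
    rw [Matrix.mul_add, Matrix.mul_one, Matrix.mul_smul, hcomm, Matrix.add_mul, Matrix.one_mul,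
      Matrix.smul_mul]
  have h2 : ∀ (g : G) (q : ℕ), r * (1 + π • D g) ^ q = (1 + π • B g) ^ q * r := by
    intro g q
    induction q with
    | zero => rw [pow_zero, pow_zero, Matrix.one_mul, Matrix.mul_one]
    | succ q ih => rw [pow_succ, pow_succ, ← Matrix.mul_assoc, ih, Matrix.mul_assoc, h1,
        Matrix.mul_assoc]
  have hB : B = fun g => r * D g * s := by
    funext g
    rw [hcomm, Matrix.mul_assoc, hr, Matrix.mul_one]
  refine ⟨fun g k => hc _ _ ?_, ?_, fun u hu => ?_, fun τ σ q ht => hc _ _ ?_⟩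
  · rw [← hcomm, hD.law, Matrix.mul_add, Matrix.mul_add, Matrix.mul_smul, ← Matrix.mul_assoc,
      hcomm, hcomm, Matrix.mul_assoc, hcomm, Matrix.add_mul, Matrix.add_mul, Matrix.smul_mul,
      Matrix.mul_assoc]
  · rw [hB]
    exact ((Cts.const r).mul hD.cont).mul (Cts.const s)
  · rw [hB]
    show r * D u * s = 0
    rw [hD.ur u hu, Matrix.mul_zero, Matrix.zero_mul]
  · rw [Matrix.mul_assoc, ← h1, ← Matrix.mul_assoc, ← h1, Matrix.mul_assoc, hD.rel τ σ q ht,
      ← Matrix.mul_assoc, h2, Matrix.mul_assoc, h1, ← Matrix.mul_assoc]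

variable [IsTopologicalGroup G]

/-- the first order families -/
theorem Good.fo (hbase : S_BASE) (hrel : S_REL) {p : ℕ} (hp : p.Prime) (hp2 : p ≠ 2)
    (hpE : ‖(p : E)‖ < 1) (hπ0 : π ≠ 0) (hπ : π ∈ maximalIdeal (OI E))
    (t : Tame (ResidueField (OI E)) G) (hU : t.U = U)
    (hT : ∀ τ σ a, t.T τ σ a → ∃ q, T τ σ q ∧ ∃ b : OI E, (q : OI E) - 1 = π * b ∧
      residue (OI E) b = a) {n : ℕ} {D : G → Matrix (Fin n) (Fin n) (OI E)}
    (hD : Good π U T D) : FOrel t fun g => red (D g) := by
  have hb := hbase E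
  have hpm : (p : OI E) ∈ maximalIdeal (OI E) := by
    rw [← residue_eq_zero_iff, hb.2.1]
    push_cast
    exact hpE
  have hπr : residue (OI E) π = 0 := (residue_eq_zero_iff π).2 hπ
  refine ⟨fun g h => ?_, ?_, fun u hu => ?_, fun τ σ a hta => ?_⟩
  · show red (D (g * h)) = _
    rw [hD.law, red_add, red_add, red_smul, hπr, zero_smul, add_zero]
  · have h1 : {g : G | red (D g) = 0} = ⋂ i, ⋂ j, {g | ‖((D g i j : OI E) : E)‖ < 1} := by
      ext g
      simp only [Set.mem_ofPred_eq, Set.mem_iInter]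
      constructor
      · intro h i j
        rw [← hb.2.1]
        exact congrFun (congrFun h i) j
      · intro h
        ext i j
        exact (hb.2.1 _).2 (h i j)
    rw [h1]
    exact isOpen_iInter_of_finite fun i => isOpen_iInter_of_finite fun j =>
      isOpen_lt (hD.cont i j).norm continuous_const
  · rw [hU] at hu
    rw [hD.ur u hu, red_zero]
  · obtain ⟨q, hq, b, hb1, hb2⟩ := hT τ σ a hta
    have h1 := hrel (OI E) p hp hp2 hpm π 1 hπ0 hπ one_ne_zero n q (D σ) (D τ)
      (by rw [mul_one]; exact hD.rel τ σ q hq)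
    have h2 := h1.1 b hb1
    rw [hb2] at h2
    exact h2

end

end Pool.Agent.Q15.JT
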