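import Pool.Agent.Q15.JT.Main

/-! Representations of a compact group congruent to the identity: the two cases (project JT). -/

set_option autoImplicit false
set_option linter.unusedSectionVars false

open Matrix IsLocalRing

namespace Pool.Agent.Q15.JT

/-- the standing data -/
structure Setup (E : Type) [NormedField E] [IsUltrametricDist E] (G : Type) [Group G]
    [TopologicalSpace G] (p : ℕ) (π : OI E) (U : Set G) (T : G → G → ℕ → Prop)
    (t : Tame (ResidueField (OI E)) G) : Prop where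
  hp : p.Prime
  hp2 : p ≠ 2
  hpE : ‖(p : E)‖ < 1
  hπ0 : π ≠ 0
  hπ : π ∈ maximalIdeal (OI E)
  hU : t.U = U
  hT : ∀ τ σ a, t.T τ σ a ↔ ∃ q, T τ σ q ∧ ∃ b : OI E, (q : OI E) - 1 = π * b ∧
      residue (OI E) b = a
  hb : ∀ τ σ q, T τ σ q → ∃ b : OI E, (q : OI E) - 1 = π * b
  cp : CP t

section

variable {E : Type} [NormedField E] [IsUltrametricDist E] [IsAlgClosed E] {G : Type} [Group G]
  [TopologicalSpace G] [IsTopologicalGroup G] [CompactSpace G]
  {p : ℕ} {π : OI E} {U : Set G} {T : G → G → ℕ → Prop} {t : Tame (ResidueField (OI E)) G}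

theorem Setup.hpm (h : Setup E G p π U T t) (hbase : S_BASE) :
    (p : OI E) ∈ maximalIdeal (OI E) := by
  rw [← residue_eq_zero_iff, (hbase E).2.1]
  push_cast
  exact h.hpE

theorem Setup.fo (h : Setup E G p π U T t) (hbase : S_BASE) (hrel : S_REL) {n : ℕ}
    {D : G → Matrix (Fin n) (Fin n) (OI E)} (hD : Good π U T D) : FOrel t fun g => red (D g) :=
  hD.fo hbase hrel h.hp h.hp2 h.hpE h.hπ0 h.hπ t h.hU (fun τ σ a hta => (h.hT τ σ a).1 hta)

theorem smul_cancel {R : Type} [CommRing R] [IsDomain R] {m n : Type} {c : R} (hc : c ≠ 0)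
    {A B : Matrix m n R} (h : c • A = c • B) : A = B := by
  ext i j
  exact mul_left_cancel₀ hc (congrFun (congrFun h i) j)

/-- the values on inertia elements vanish in the unipotent case -/
theorem inertia_zero (h : Setup E G p π U T t) (hbase : S_BASE) (hsup : S_SUP) (hrel : S_REL)
    {n : ℕ} {D : G → Matrix (Fin n) (Fin n) (OI E)} (hD : Good π U T D)
    {l : ResidueField (OI E)}
    (hX : (red (D t.γ) - l • (1 : Matrix (Fin n) (Fin n) (ResidueField (OI E)))) ^ n = 0)
    (hM : ∀ g, red (D g) = t.ψ g • red (D t.γ)) {τ σ : G} {q : ℕ} (ht : T τ σ q) : D τ = 0 := by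
  by_contra hne
  obtain ⟨c, F1, hc, hF, ⟨g, hg⟩, -⟩ := hsup E Unit n n (fun _ => D τ)
    (fun _ _ => continuous_const) ⟨(), hne⟩
  set N := F1 g with hN
  have h1 : D τ = c • N := hF g
  obtain ⟨b, hb⟩ := h.hb τ σ q ht
  have h2 : t.T τ σ (residue (OI E) b) := (h.hT _ _ _).2 ⟨q, ht, b, hb, rfl⟩
  obtain ⟨-, h3, h4⟩ := h.cp.ψT _ _ _ h2
  have h5 := (hrel (OI E) p h.hp h.hp2 (h.hpm hbase) π c h.hπ0 h.hπ hc n q (D σ) N (by
    have h6 := hD.rel τ σ q ht
    rw [h1, smul_smul] at h6
    exact h6)).1 b hb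
  rw [hM σ, h3] at h5
  set a := residue (OI E) b with ha
  set X := red (D t.γ) with hXd
  have h6 : X * red N - red N * X = red N := by
    rw [Matrix.smul_mul, Matrix.mul_smul, ← smul_sub] at h5
    exact smul_cancel h4 h5
  set Z := X - l • (1 : Matrix (Fin n) (Fin n) (ResidueField (OI E))) with hZ
  have h7 : Z * red N = red N * (Z + 1) := by
    rw [hZ, Matrix.sub_mul, Matrix.mul_add, Matrix.mul_sub, Matrix.smul_mul, Matrix.mul_smul,
      Matrix.one_mul, Matrix.mul_one]
    rw [sub_eq_iff_eq_add] at h6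
    rw [h6]
    abel
  have h8 : ∀ k, Z ^ k * red N = red N * (Z + 1) ^ k := by
    intro k
    induction k with
    | zero => rw [pow_zero, pow_zero, Matrix.one_mul, Matrix.mul_one]
    | succ k ih => rw [pow_succ, Matrix.mul_assoc, h7, ← Matrix.mul_assoc, ih, Matrix.mul_assoc,
        ← pow_succ]
  have h9 : IsUnit (Z + 1) := by
    have : IsNilpotent Z := ⟨n, hX⟩
    exact this.isUnit_add_one
  obtain ⟨u, hu⟩ := h9.pow n
  have h10 := h8 n
  rw [hX, Matrix.zero_mul, ← hu] at h10
  apply hg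
  show red N = 0
  have h11 : red N * (u : Matrix (Fin n) (Fin n) (ResidueField (OI E))) * (u⁻¹ : Units _) = 0 := by
    rw [← h10, Matrix.zero_mul]
  rwa [Matrix.mul_assoc, Units.mul_inv, Matrix.mul_one] at h11

/-- if `D γ` commutes with `D k` then all `D g` do -/
theorem comm_aux (h : Setup E G p π U T t) (hbase : S_BASE) (hsup : S_SUP)
    {n : ℕ} {D : G → Matrix (Fin n) (Fin n) (OI E)} (hD : Good π U T D)
    (hτ : ∀ τ σ q, T τ σ q → D τ = 0) (k : G) (hγ : D t.γ * D k = D k * D t.γ) (g : G) :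
    D g * D k = D k * D g := by
  by_contra hne
  have hb := hbase E
  have hcont : Cts fun g => D g * D k - D k * D g :=
    (Cts.mul hD.cont (Cts.const _)).sub (Cts.mul (Cts.const _) hD.cont)
  obtain ⟨c, F1, hc, hF, ⟨g0, hg0⟩, hF1⟩ := hsup E G n n (fun g => D g * D k - D k * D g)
    hcont ⟨g, fun h0 => hne (sub_eq_zero.1 h0)⟩
  have hF' : ∀ g, D g * D k - D k * D g = c • F1 g := hF
  have hadd : ∀ x y, F1 (x * y) = F1 x + F1 y + π • (D x * F1 y + F1 x * D y) := by
    intro x y
    apply smul_cancel hc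
    have e1 : c • (D x * F1 y) = D x * (c • F1 y) := (Matrix.mul_smul _ _ _).symm
    have e2 : c • (F1 x * D y) = (c • F1 x) * D y := (Matrix.smul_mul _ _ _).symm
    rw [smul_add, smul_add, smul_comm c π, smul_add, e1, e2, ← hF', ← hF', ← hF', hD.law]
    simp only [Matrix.add_mul, Matrix.mul_add, Matrix.mul_sub, Matrix.sub_mul, Matrix.smul_mul,
      Matrix.mul_smul, Matrix.mul_assoc, smul_sub, smul_add]
    abel
  have hπr : residue (OI E) π = 0 := (residue_eq_zero_iff π).2 h.hπ
  apply hg0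
  ext i j
  have key := h.cp.char (fun g => residue (OI E) (F1 g i j)) (fun x y => by
      show residue (OI E) (F1 (x * y) i j) = _
      rw [hadd, Matrix.add_apply, Matrix.add_apply, Matrix.smul_apply, smul_eq_mul, map_add,
        map_add, map_mul, hπr, zero_mul, add_zero]) (by
      have h1 : {g : G | residue (OI E) (F1 g i j) = 0} = {g | ‖((F1 g i j : OI E) : E)‖ < 1} := by
        ext g
        exact hb.2.1 _
      rw [h1]
      exact isOpen_lt (hF1 i j).norm continuous_const) (fun u hu => by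
      rw [h.hU] at hu
      have h1 : c • F1 u = c • 0 := by
        rw [← hF', hD.ur u hu, Matrix.zero_mul, Matrix.mul_zero, sub_zero, smul_zero]
      rw [smul_cancel hc h1, Matrix.zero_apply, map_zero]) (fun τ σ a hta => by
      obtain ⟨q, hq, -⟩ := (h.hT _ _ _).1 hta
      have h1 : c • F1 τ = c • 0 := by
        rw [← hF', hτ τ σ q hq, Matrix.zero_mul, Matrix.mul_zero, sub_zero, smul_zero]
      rw [smul_cancel hc h1, Matrix.zero_apply, map_zero]) g0
  have h2 : F1 t.γ = 0 := by
    have h1 : c • F1 t.γ = c • 0 := by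
      rw [← hF', hγ, sub_self, smul_zero]
    exact smul_cancel hc h1
  show residue (OI E) (F1 g0 i j) = 0
  rw [key, h2, Matrix.zero_apply, map_zero, mul_zero]

/-- all `D g` commute in the unipotent case -/
theorem comm_all (h : Setup E G p π U T t) (hbase : S_BASE) (hsup : S_SUP)
    {n : ℕ} {D : G → Matrix (Fin n) (Fin n) (OI E)} (hD : Good π U T D)
    (hτ : ∀ τ σ q, T τ σ q → D τ = 0) (g k : G) : D g * D k = D k * D g := by
  have h1 : ∀ g, D g * D t.γ = D t.γ * D g := comm_aux h hbase hsup hD hτ t.γ rfl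
  exact comm_aux h hbase hsup hD hτ k (h1 k).symm g

/-- the conclusion: a common eigenvector -/
def HasEig {n : ℕ} (D : G → Matrix (Fin n) (Fin n) (OI E)) : Prop :=
  ∃ v : Fin n → E, v ≠ 0 ∧ ∀ g, ∃ c : E, (D g).map (algebraMap (OI E) E) *ᵥ v = c • v

/-- the unipotent case -/
theorem case_uni (h : Setup E G p π U T t) (hbase : S_BASE) (hsup : S_SUP) (hrel : S_REL)
    (hstab : S_STABLE) (heig : S_EIG)
    {n : ℕ} (hn : 0 < n) (hfo : ∀ m, 0 < m → m ≤ n → FO t m)
    {D : G → Matrix (Fin n) (Fin n) (OI E)} (hD : Good π U T D) {l : ResidueField (OI E)}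
    (hX : (red (D t.γ) - l • (1 : Matrix (Fin n) (Fin n) (ResidueField (OI E)))) ^ n = 0) :
    HasEig D := by
  have hl : ∀ v : Fin n → ResidueField (OI E), red (D t.γ) *ᵥ v = (l + 1) • v → v = 0 := by
    intro v hv
    have h1 : (red (D t.γ) - l • (1 : Matrix (Fin n) (Fin n) (ResidueField (OI E)))) *ᵥ v = v := by
      rw [Matrix.sub_mulVec, hv, Matrix.smul_mulVec, Matrix.one_mulVec, ← sub_smul,
        add_sub_cancel_left, one_smul]
    have h2 : ∀ k, ((red (D t.γ) - l • (1 : Matrix (Fin n) (Fin n) (ResidueField (OI E)))) ^ k) *ᵥ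
        v = v := by
      intro k
      induction k with
      | zero => rw [pow_zero, Matrix.one_mulVec]
      | succ k ih => rw [pow_succ, ← Matrix.mulVec_mulVec, h1, ih]
    rw [← h2 n, hX, Matrix.zero_mulVec]
  have hM : ∀ g, red (D g) = t.ψ g • red (D t.γ) := by
    intro g
    apply Matrix.ext_of_mulVec_single
    intro j
    rw [Matrix.smul_mulVec]
    exact hstab (ResidueField (OI E)) G t h.cp n hfo (fun g => red (D g)) (h.fo hbase hrel hD) l hl
      n _ (by rw [hX, Matrix.zero_mulVec]) g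
  have hτ : ∀ τ σ q, T τ σ q → D τ = 0 := fun τ σ q ht =>
    inertia_zero h hbase hsup hrel hD hX hM ht
  have hcomm := comm_all h hbase hsup hD hτ
  refine heig E G n hn (fun g => (D g).map (algebraMap (OI E) E)) fun g k => ?_
  show (D g).map (algebraMap (OI E) E) * (D k).map (algebraMap (OI E) E) = _
  rw [← Matrix.map_mul, hcomm, Matrix.map_mul]

end

end Pool.Agent.Q15.JT
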