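import Pool.Agent.Q15.JT.Main2

/-! Representations of a compact group congruent to the identity: the induction (project JT). -/

set_option autoImplicit false
set_option linter.unusedSectionVars false

open Matrix IsLocalRing

namespace Pool.Agent.Q15.JT

/-- a matrix of size less than the characteristic has an eigenvalue `l` such that `l + 1` is not an
eigenvalue -/
theorem exists_weight {κ : Type} [Field κ] [IsAlgClosed κ] {p : ℕ} [CharP κ p] (hp : p.Prime)
    {n : ℕ} (hn : 0 < n) (hnp : n < p) (X : Matrix (Fin n) (Fin n) κ) :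
    ∃ l : κ, (∃ v : Fin n → κ, v ≠ 0 ∧ X *ᵥ v = l • v) ∧
      ∀ v : Fin n → κ, X *ᵥ v = (l + 1) • v → v = 0 := by
  classical
  have : NeZero n := ⟨hn.ne'⟩
  set f : Module.End κ (Fin n → κ) := Matrix.toLin' X with hf
  have hev : ∀ l : κ, f.HasEigenvalue l ↔ ∃ v : Fin n → κ, v ≠ 0 ∧ X *ᵥ v = l • v := by
    intro l
    constructor
    · intro h
      obtain ⟨v, hv⟩ := h.exists_hasEigenvector
      refine ⟨v, hv.2, ?_⟩
      rw [← Matrix.toLin'_apply]
      exact hv.apply_eq_smul
    · rintro ⟨v, hv, h⟩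
      refine Module.End.hasEigenvalue_of_hasEigenvector (x := v) ⟨?_, hv⟩
      rw [Module.End.mem_eigenspace_iff, hf, Matrix.toLin'_apply, h]
  obtain ⟨l0, hl0⟩ := Module.End.exists_eigenvalue f
  by_contra hcon
  push Not at hcon
  have hstep : ∀ l : κ, f.HasEigenvalue l → f.HasEigenvalue (l + 1) := by
    intro l hl
    obtain ⟨v, hv1, hv2⟩ := hcon l ((hev l).1 hl)
    exact (hev _).2 ⟨v, hv2, hv1⟩
  have hall : ∀ k : ℕ, f.HasEigenvalue (l0 + k) := by
    intro k
    induction k with
    | zero => rwa [Nat.cast_zero, add_zero]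
    | succ k ih =>
      rw [Nat.cast_succ, ← add_assoc]
      exact hstep _ ih
  have hinj : Set.InjOn (fun k : ℕ => l0 + (k : κ)) (Finset.range p : Set ℕ) := by
    intro a ha b hb hab
    have h1 : ((a : ℕ) : κ) = b := add_left_cancel hab
    have h2 := (CharP.natCast_eq_natCast κ p).1 h1
    exact Nat.ModEq.eq_of_lt_of_lt h2 (by simpa using ha) (by simpa using hb)
  have hfin : (Finset.image (fun k : ℕ => l0 + (k : κ)) (Finset.range p)).card = p := by
    rw [Finset.card_image_of_injOn hinj, Finset.card_range]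
  have hsub : Finset.image (fun k : ℕ => l0 + (k : κ)) (Finset.range p) ⊆
      X.charpoly.roots.toFinset := by
    intro x hx
    obtain ⟨k, -, rfl⟩ := Finset.mem_image.1 hx
    rw [Multiset.mem_toFinset, Polynomial.mem_roots (Matrix.charpoly_monic X).ne_zero]
    have h1 := (Module.End.hasEigenvalue_iff_isRoot_charpoly f (l0 + k)).1 (hall k)
    rwa [hf, Matrix.charpoly_toLin'] at h1
  have h1 := Finset.card_le_card hsub
  have h2 := Multiset.toFinset_card_le X.charpoly.roots
  have h3 := Polynomial.card_roots' X.charpoly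
  rw [Matrix.charpoly_natDegree_eq_dim, Fintype.card_fin] at h3
  omega

section

variable {E : Type} [NormedField E] [IsUltrametricDist E] [IsAlgClosed E] {G : Type} [Group G]
  [TopologicalSpace G] [IsTopologicalGroup G] [CompactSpace G]
  {p : ℕ} {π : OI E} {U : Set G} {T : G → G → ℕ → Prop} {t : Tame (ResidueField (OI E)) G}

/-- the idempotent is stable -/
theorem cut (h : Setup E G p π U T t) (hbase : S_BASE) (hsup : S_SUP) (hrel : S_REL)
    (hstab : S_STABLE) {n : ℕ} (hfo : ∀ m, 0 < m → m ≤ n → FO t m)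
    {D : G → Matrix (Fin n) (Fin n) (OI E)} (hD : Good π U T D) {l : ResidueField (OI E)}
    (hl : ∀ v : Fin n → ResidueField (OI E), red (D t.γ) *ᵥ v = (l + 1) • v → v = 0)
    {e : Matrix (Fin n) (Fin n) (OI E)} (he : e * e = e) (heY : e * D t.γ = D t.γ * e)
    (hw : ∀ w : Fin n → ResidueField (OI E), red e *ᵥ w = w →
      ((red (D t.γ) - l • (1 : Matrix (Fin n) (Fin n) (ResidueField (OI E)))) ^ n) *ᵥ w = 0)
    (g : G) : (1 - e) * D g * e = 0 := by
  by_contra hne
  have hcont : Cts fun g => (1 - e) * D g * e :=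
    (Cts.mul (Cts.const _) hD.cont).mul (Cts.const _)
  obtain ⟨c, F1, hc, hF, ⟨g0, hg0⟩, hF1⟩ := hsup E G n n (fun g => (1 - e) * D g * e)
    hcont ⟨g, hne⟩
  have hF' : ∀ g, (1 - e) * D g * e = c • F1 g := hF
  have hee' : e * (1 - e) = 0 := by rw [Matrix.mul_sub, Matrix.mul_one, he, sub_self]
  have he'e : (1 - e) * e = 0 := by rw [Matrix.sub_mul, Matrix.one_mul, he, sub_self]
  have he'e' : (1 - e) * (1 - e) = 1 - e := by rw [Matrix.mul_sub, Matrix.mul_one, he'e, sub_zero]
  have hF1e : ∀ g, F1 g * e = F1 g := by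
    intro g
    apply smul_cancel hc
    rw [← Matrix.smul_mul, ← hF', Matrix.mul_assoc, he]
  have hF1e' : ∀ g, e * F1 g = 0 := by
    intro g
    apply smul_cancel hc
    rw [← Matrix.mul_smul, ← hF', ← Matrix.mul_assoc, ← Matrix.mul_assoc, hee', Matrix.zero_mul,
      Matrix.zero_mul, smul_zero]
  set h0 : Matrix (Fin n) (Fin n) (OI E) := e + c • (1 - e) with hh0
  set D' : G → Matrix (Fin n) (Fin n) (OI E) := fun g =>
    e * D g * e + c • (e * D g * (1 - e)) + F1 g + (1 - e) * D g * (1 - e) with hD'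
  have hcomm : ∀ g, D g * h0 = h0 * D' g := by
    intro g
    have e1 : h0 * D' g = e * D g * e + c • (e * D g * (1 - e)) + c • F1 g +
        c • ((1 - e) * D g * (1 - e)) := by
      have a1 : e * (e * D g * e) = e * D g * e := by
        rw [← Matrix.mul_assoc, ← Matrix.mul_assoc, he]
      have a2 : e * (e * D g * (1 - e)) = e * D g * (1 - e) := by
        rw [← Matrix.mul_assoc, ← Matrix.mul_assoc, he]
      have a3 : e * ((1 - e) * D g * (1 - e)) = 0 := by
        rw [← Matrix.mul_assoc, ← Matrix.mul_assoc, hee', Matrix.zero_mul, Matrix.zero_mul]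
      have b1 : (1 - e) * (e * D g * e) = 0 := by
        rw [← Matrix.mul_assoc, ← Matrix.mul_assoc, he'e, Matrix.zero_mul, Matrix.zero_mul]
      have b2 : (1 - e) * (e * D g * (1 - e)) = 0 := by
        rw [← Matrix.mul_assoc, ← Matrix.mul_assoc, he'e, Matrix.zero_mul, Matrix.zero_mul]
      have b3 : (1 - e) * F1 g = F1 g := by
        rw [Matrix.sub_mul, Matrix.one_mul, hF1e', sub_zero]
      have b4 : (1 - e) * ((1 - e) * D g * (1 - e)) = (1 - e) * D g * (1 - e) := by
        rw [← Matrix.mul_assoc, ← Matrix.mul_assoc, he'e']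
      rw [hh0, hD']
      simp only [Matrix.add_mul, Matrix.mul_add, Matrix.smul_mul, Matrix.mul_smul, a1, a2, a3, b1,
        b2, b3, b4, hF1e', smul_zero, add_zero, zero_add]
    rw [e1, ← hF', hh0, Matrix.mul_add, Matrix.mul_smul]
    have e2 : D g * e = e * D g * e + (1 - e) * D g * e := by
      rw [← Matrix.add_mul, ← Matrix.add_mul, add_sub_cancel, Matrix.one_mul]
    have e3 : D g * (1 - e) = e * D g * (1 - e) + (1 - e) * D g * (1 - e) := by
      rw [← Matrix.add_mul, ← Matrix.add_mul, add_sub_cancel, Matrix.one_mul]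
    nth_rw 1 [e2]
    nth_rw 1 [e3]
    rw [smul_add]
    abel
  have hgood : Good π U T D' := by
    refine hD.of_inter h0 (fun X hX => ?_) hcomm ?_
    · have h1 : (c • e + (1 - e)) * h0 = c • (1 : Matrix (Fin n) (Fin n) (OI E)) := by
        rw [hh0, Matrix.add_mul, Matrix.mul_add, Matrix.mul_add, Matrix.smul_mul, Matrix.smul_mul,
          Matrix.mul_smul, Matrix.mul_smul, he, hee', he'e, he'e', smul_zero, smul_zero, add_zero,
          zero_add, ← smul_add, add_sub_cancel]
      apply smul_cancel hc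
      rw [smul_zero, ← Matrix.one_mul X, ← Matrix.smul_mul, ← h1, Matrix.mul_assoc, hX,
        Matrix.mul_zero]
    · exact (((Cts.mul (Cts.mul (Cts.const _) hD.cont) (Cts.const _)).add
        (Cts.smul c (Cts.mul (Cts.mul (Cts.const _) hD.cont) (Cts.const _)))).add hF1).add
        (Cts.mul (Cts.mul (Cts.const _) hD.cont) (Cts.const _))
  have hYe : (1 - e) * D t.γ * e = 0 := by
    rw [Matrix.mul_assoc, ← heY, ← Matrix.mul_assoc, he'e, Matrix.zero_mul]
  have hYe' : e * D t.γ * (1 - e) = 0 := by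
    rw [heY, Matrix.mul_assoc, hee', Matrix.mul_zero]
  have hγ : D' t.γ = D t.γ := by
    have h1 : F1 t.γ = 0 := smul_cancel hc (by rw [← hF', hYe, smul_zero])
    show e * D t.γ * e + c • (e * D t.γ * (1 - e)) + F1 t.γ + (1 - e) * D t.γ * (1 - e) = _
    have h2 : (1 - e) * D t.γ = D t.γ * (1 - e) := by
      rw [Matrix.sub_mul, Matrix.one_mul, heY, Matrix.mul_sub, Matrix.mul_one]
    rw [h1, hYe', smul_zero, add_zero, add_zero, heY, Matrix.mul_assoc, he, h2, Matrix.mul_assoc,
      he'e', ← Matrix.mul_add, add_sub_cancel, Matrix.mul_one]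
  apply hg0
  have hfoD' := h.fo hbase hrel hgood
  have key : ∀ w : Fin n → ResidueField (OI E), red (D' g0) *ᵥ (red e *ᵥ w) =
      t.ψ g0 • (red (D t.γ) *ᵥ (red e *ᵥ w)) := by
    intro w
    have h1 := hstab (ResidueField (OI E)) G t h.cp n hfo (fun g => red (D' g)) hfoD' l
      (by
        show ∀ v : Fin n → ResidueField (OI E), red (D' t.γ) *ᵥ v = (l + 1) • v → v = 0
        rw [hγ]
        exact hl) n (red e *ᵥ w) (by
        show ((red (D' t.γ) - l • (1 : Matrix (Fin n) (Fin n) (ResidueField (OI E)))) ^ n) *ᵥ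
          (red e *ᵥ w) = 0
        rw [hγ]
        exact hw _ (by rw [Matrix.mulVec_mulVec, ← red_mul, he])) g0
    have h2 : red (D' g0) *ᵥ (red e *ᵥ w) = t.ψ g0 • (red (D' t.γ) *ᵥ (red e *ᵥ w)) := h1
    rw [hγ] at h2
    exact h2
  have key2 : red (D' g0) * red e = t.ψ g0 • (red (D t.γ) * red e) := by
    apply Matrix.ext_of_mulVec_single
    intro j
    rw [Matrix.smul_mulVec, ← Matrix.mulVec_mulVec, ← Matrix.mulVec_mulVec]
    exact key _
  have h3 : (1 - e) * D' g0 * e = F1 g0 := by
    have b1 : (1 - e) * (e * D g0 * e) = 0 := by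
      rw [← Matrix.mul_assoc, ← Matrix.mul_assoc, he'e, Matrix.zero_mul, Matrix.zero_mul]
    have b2 : (1 - e) * (e * D g0 * (1 - e)) = 0 := by
      rw [← Matrix.mul_assoc, ← Matrix.mul_assoc, he'e, Matrix.zero_mul, Matrix.zero_mul]
    have b3 : (1 - e) * F1 g0 = F1 g0 := by
      rw [Matrix.sub_mul, Matrix.one_mul, hF1e', sub_zero]
    have b4 : (1 - e) * D g0 * (1 - e) * e = 0 := by
      rw [Matrix.mul_assoc, he'e, Matrix.mul_zero]
    have b5 : (1 - e) * ((1 - e) * D g0 * (1 - e)) = (1 - e) * D g0 * (1 - e) := by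
      rw [← Matrix.mul_assoc, ← Matrix.mul_assoc, he'e']
    show (1 - e) * (e * D g0 * e + c • (e * D g0 * (1 - e)) + F1 g0 +
      (1 - e) * D g0 * (1 - e)) * e = _
    rw [Matrix.mul_add, Matrix.mul_add, Matrix.mul_add, Matrix.mul_smul, b1, b2, b3, b5, smul_zero,
      zero_add, zero_add, Matrix.add_mul, b4, add_zero, hF1e]
  rw [← h3, Matrix.mul_assoc, red_mul, red_mul, key2, Matrix.mul_smul, ← red_mul, ← red_mul,
    ← Matrix.mul_assoc, hYe, red_zero, smul_zero]

/-- **the main induction** -/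
theorem eigen (h : Setup E G p π U T t) (hbase : S_BASE) (hsup : S_SUP) (hrel : S_REL)
    (hsplit : S_SPLIT) (hspec : S_SPEC) (hstab : S_STABLE) (heig : S_EIG) (n : ℕ) (hn : 0 < n)
    (hnp : n < p) (hfo : ∀ m, 0 < m → m ≤ n → FO t m)
    (D : G → Matrix (Fin n) (Fin n) (OI E)) (hD : Good π U T D) : HasEig D := by
  induction n using Nat.strong_induction_on with
  | _ n ih =>
    have hκ : IsAlgClosed (ResidueField (OI E)) := (hbase E).2.2 inferInstance
    have hchar : CharP (ResidueField (OI E)) p := by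
      refine (CharP.charP_iff_prime_eq_zero h.hp).2 ?_
      have h1 := (residue_eq_zero_iff _).2 (h.hpm hbase)
      rwa [map_natCast] at h1
    obtain ⟨l, ⟨v, hv, hvl⟩, hl⟩ := exists_weight h.hp hn hnp (red (D t.γ))
    by_cases hX : (red (D t.γ) - l • (1 : Matrix (Fin n) (Fin n) (ResidueField (OI E)))) ^ n = 0
    · exact case_uni h hbase hsup hrel hstab heig hn hfo hD hX
    · obtain ⟨e, he, heY, hw⟩ := hspec (OI E) E n (D t.γ) l
      have hcut := cut h hbase hsup hrel hstab hfo hD hl he heY (fun w => (hw w).2)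
      have he0 : e ≠ 0 := by
        rintro rfl
        have h1 : ∀ k, 0 < k → ((red (D t.γ) -
            l • (1 : Matrix (Fin n) (Fin n) (ResidueField (OI E)))) ^ k) *ᵥ v = 0 := by
          intro k hk
          obtain ⟨k, rfl⟩ := Nat.exists_eq_succ_of_ne_zero hk.ne'
          rw [pow_succ, ← Matrix.mulVec_mulVec, Matrix.sub_mulVec, hvl, Matrix.smul_mulVec,
            Matrix.one_mulVec, sub_self, Matrix.mulVec_zero]
        have h2 := (hw v).1 (h1 n hn)
        rw [red_zero, Matrix.zero_mulVec] at h2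
        exact hv h2.symm
      have he1 : e ≠ 1 := by
        rintro rfl
        apply hX
        apply Matrix.ext_of_mulVec_single
        intro j
        rw [Matrix.zero_mulVec]
        exact (hw _).2 (by rw [red_one, Matrix.one_mulVec])
      obtain ⟨m, ι, r, hm0, hmn, hrι, hιr⟩ := hsplit (OI E) n e he he0 he1
      have heι : e * ι = ι := by rw [← hιr, Matrix.mul_assoc, hrι, Matrix.mul_one]
      have hcomm : ∀ g, D g * ι = ι * (r * D g * ι) := by
        intro g
        have h1 : D g * e = e * D g * e := by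
          have h2 := hcut g
          rw [Matrix.sub_mul, Matrix.one_mul, Matrix.sub_mul, sub_eq_zero] at h2
          exact h2
        have h2 : D g * ι = e * D g * ι := by
          calc D g * ι = D g * e * ι := by rw [Matrix.mul_assoc, heι]
            _ = e * D g * e * ι := by rw [h1]
            _ = e * D g * ι := by rw [Matrix.mul_assoc, heι]
        rw [← Matrix.mul_assoc, ← Matrix.mul_assoc, hιr]
        exact h2
      have hsub := hD.sub ι r hrι hcomm
      obtain ⟨u, hu, huc⟩ := ih m hmn hm0 (hmn.trans hnp)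
        (fun k hk hkm => hfo k hk (hkm.trans hmn.le)) _ hsub
      refine ⟨ι.map (algebraMap (OI E) E) *ᵥ u, fun h0 => hu ?_, fun g => ?_⟩
      · have h1 : r.map (algebraMap (OI E) E) *ᵥ (ι.map (algebraMap (OI E) E) *ᵥ u) = u := by
          rw [Matrix.mulVec_mulVec, ← Matrix.map_mul, hrι, Matrix.map_one _ (map_zero _)
            (map_one _), Matrix.one_mulVec]
        rw [← h1, h0, Matrix.mulVec_zero]
      · obtain ⟨c, hc⟩ := huc g
        refine ⟨c, ?_⟩
        have h1 : (r * D g * ι).map (algebraMap (OI E) E) *ᵥ u = c • u := hc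
        rw [Matrix.mulVec_mulVec, ← Matrix.map_mul, hcomm, Matrix.map_mul, ← Matrix.mulVec_mulVec,
          h1, Matrix.mulVec_smul]

end

end Pool.Agent.Q15.JT
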