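import Pool.Agent.Q15.JT.Main3
import Pool.Agent.Q15.FM3E

/-! Representations of number fields congruent to the identity: the arithmetic data (project JT). -/

set_option autoImplicit false
set_option linter.unusedSectionVars false

open NumberField Matrix IsLocalRing Pool.Agent.W569.FM Pool.Agent.W571.FM Pool.Agent.W569.UF
  Pool.Agent.Q15.FMNT Pool.Agent.Q15.FMMain Pool.Agent.Q15.FMScal Pool.Agent.Q15.FM2C

namespace Pool.Agent.Q15.JT

variable {k : Type} [Field k] [NumberField k]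

/-- the field has exactly one extension of degree `p` unramified outside `p` -/
structure OneE (p : ℕ) (ψ : GF k →* Multiplicative (ZMod p)) : Prop where
  op : IsOpen (ψ.ker : Set (GF k))
  ur : ∀ P : Ideal (OO k), P.IsMaximal → (p : OO k) ∉ P → ∀ τ, InInertia P τ → ψ τ = 1
  ne : ∃ g, ψ g ≠ 1
  uni : ∀ f : GF k →* Multiplicative (ZMod p), IsOpen (f.ker : Set (GF k)) →
    (∀ P : Ideal (OO k), P.IsMaximal → (p : OO k) ∉ P → ∀ τ, InInertia P τ → f τ = 1) →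
    ∃ n : ℕ, ∀ g, f g = ψ g ^ n

/-- the conditions on the primes in `S` -/
structure NormV (p s : ℕ) (S : Set (Ideal (𝓞 k))) (ψ : GF k →* Multiplicative (ZMod p)) :
    Prop where
  hS : ∀ v ∈ S, (p : 𝓞 k) ∉ v
  val : ∀ P : Ideal (OO k), P.IsMaximal → cm P ∈ S → p ∣ Ideal.absNorm (cm P) - 1 →
    p ^ s ∣ Ideal.absNorm (cm P) - 1 ∧ ¬ p ^ (s + 1) ∣ Ideal.absNorm (cm P) - 1 ∧
    ∀ σ, FrobAt (Ideal.absNorm (cm P)) P σ →
      Multiplicative.toAdd (ψ σ) = (((Ideal.absNorm (cm P) - 1) / p ^ s : ℕ) : ZMod p)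

theorem exists_gen {p : ℕ} [hp : Fact p.Prime] {ψ : GF k →* Multiplicative (ZMod p)}
    (h : OneE p ψ) : ∃ g, Multiplicative.toAdd (ψ g) = 1 := by
  obtain ⟨g0, hg0⟩ := h.ne
  have ht : Multiplicative.toAdd (ψ g0) ≠ 0 := fun h0 => hg0
    (Multiplicative.toAdd.injective (h0.trans toAdd_one.symm))
  refine ⟨g0 ^ (Multiplicative.toAdd (ψ g0))⁻¹.val, ?_⟩
  rw [map_pow, toAdd_pow, nsmul_eq_mul, ZMod.natCast_val, ZMod.cast_id', id_eq,
    inv_mul_cancel₀ ht]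

/-- additive functions which vanish on the inertia outside `p` -/
theorem one_char' {p : ℕ} [hp : Fact p.Prime] {κ : Type} [Field κ] [CharP κ p]
    {ψ : GF k →* Multiplicative (ZMod p)} (h : OneE p ψ) {γ : GF k}
    (hγ : Multiplicative.toAdd (ψ γ) = 1) {f : GF k → κ} (hf : ∀ g h, f (g * h) = f g + f h)
    (ho : IsOpen {g | f g = 0})
    (hur : ∀ P : Ideal (OO k), P.IsMaximal → (p : OO k) ∉ P → ∀ τ, InInertia P τ → f τ = 0)
    (g : GF k) : f g = ZMod.castHom (dvd_refl p) κ (Multiplicative.toAdd (ψ g)) * f γ := by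
  let _ : Algebra (ZMod p) κ := ZMod.algebra κ p
  have h3 : algebraMap (ZMod p) κ = ZMod.castHom (dvd_refl p) κ := Subsingleton.elim _ _
  rw [← h3, ← Algebra.smul_def, ← sub_eq_zero, ← Module.forall_dual_apply_eq_zero_iff (ZMod p)]
  intro φ
  have hf1 : f 1 = 0 := by
    have h1 := hf 1 1
    rw [mul_one] at h1
    exact left_eq_add.1 h1
  let F : GF k →* Multiplicative (ZMod p) :=
    { toFun := fun g => Multiplicative.ofAdd (φ (f g))
      map_one' := by rw [hf1, map_zero, ofAdd_zero]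
      map_mul' := fun g h => by rw [hf, map_add, ofAdd_add] }
  have hF : ∀ g, F g = Multiplicative.ofAdd (φ (f g)) := fun g => rfl
  obtain ⟨n, hn⟩ := h.uni F (by
      refine Subgroup.isOpen_of_mem_nhds _ (g := 1) (Filter.mem_of_superset
        (ho.mem_nhds hf1) fun x hx => ?_)
      show F x = 1
      rw [hF, show f x = 0 from hx, map_zero, ofAdd_zero]) (fun P hP hpP τ hτ => by
      rw [hF, hur P hP hpP τ hτ, map_zero, ofAdd_zero])
  have hn' : ∀ g, φ (f g) = n * Multiplicative.toAdd (ψ g) := by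
    intro g
    have h1 := congrArg Multiplicative.toAdd (hn g)
    rw [hF, toAdd_ofAdd, toAdd_pow, nsmul_eq_mul] at h1
    exact h1
  rw [map_sub, map_smul, hn', hn', hγ, smul_eq_mul]
  ring

/-- the tame pairs -/
def TT (p : ℕ) (S : Set (Ideal (𝓞 k))) (τ σ : GF k) (q : ℕ) : Prop :=
  ∃ P : Ideal (OO k), P.IsMaximal ∧ cm P ∈ S ∧ p ∣ Ideal.absNorm (cm P) - 1 ∧ InInertia P τ ∧
    FrobAt q P σ ∧ q = Ideal.absNorm (cm P)

/-- the elements which are killed -/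
def UU (p : ℕ) (S : Set (Ideal (𝓞 k))) : Set (GF k) :=
  {τ | ∃ P : Ideal (OO k), P.IsMaximal ∧ InInertia P τ ∧ (p : OO k) ∉ P ∧
    (cm P ∈ S → ¬ p ∣ Ideal.absNorm (cm P) - 1)}

/-- the tame data -/
noncomputable def tame' (κ : Type) [Field κ] [Algebra ℤ κ] (p s : ℕ) [CharP κ p]
    (S : Set (Ideal (𝓞 k)))
    (ψ : GF k →* Multiplicative (ZMod p)) (γ : GF k) : Tame κ (GF k) where
  U := UU p S
  T := fun τ σ a => ∃ q, TT p S τ σ q ∧ a = (((q - 1) / p ^ s : ℕ) : κ)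
  ψ := fun g => ZMod.castHom (dvd_refl p) κ (Multiplicative.toAdd (ψ g))
  γ := γ

variable {p s : ℕ} [hp : Fact p.Prime] {κ : Type} [Field κ] [CharP κ p]
  {S : Set (Ideal (𝓞 k))} {ψ : GF k →* Multiplicative (ZMod p)} {γ : GF k}

theorem cp (h : OneE p ψ) (hN : NormV p s S ψ) (hγ : Multiplicative.toAdd (ψ γ) = 1) :
    CP (tame' κ p s S ψ γ) := by
  refine ⟨?_, ?_, ?_, ?_⟩
  · show ZMod.castHom (dvd_refl p) κ (Multiplicative.toAdd (ψ γ)) = 1
    rw [hγ, map_one]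
  · rintro u ⟨P, hP, hu, hpP, -⟩
    show ZMod.castHom (dvd_refl p) κ (Multiplicative.toAdd (ψ u)) = 0
    rw [h.ur P hP hpP u hu, toAdd_one, map_zero]
  · rintro τ σ a ⟨q, ⟨P, hP, hPS, hd, hτ, hσ, hq⟩, rfl⟩
    have hpP : (p : OO k) ∉ P := fun h0 => hN.hS _ hPS (natCast_mem_cm.2 h0)
    obtain ⟨h1, h2, h3⟩ := hN.val P hP hPS hd
    refine ⟨?_, ?_, ?_⟩
    · show ZMod.castHom (dvd_refl p) κ (Multiplicative.toAdd (ψ τ)) = 0
      rw [h.ur P hP hpP τ hτ, toAdd_one, map_zero]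
    · show ZMod.castHom (dvd_refl p) κ (Multiplicative.toAdd (ψ σ)) = _
      rw [h3 σ (hq ▸ hσ), map_natCast, hq]
    · rw [Ne, CharP.cast_eq_zero_iff κ p, hq]
      intro h4
      apply h2
      rw [pow_succ, ← Nat.mul_div_cancel' h1]
      exact Nat.mul_dvd_mul_left _ h4
  · intro f hf ho hU hT g
    refine one_char' h hγ hf ho (fun P hP hpP τ hτ => ?_) g
    by_cases hPS : cm P ∈ S ∧ p ∣ Ideal.absNorm (cm P) - 1
    · obtain ⟨σ, hσ⟩ := exists_frobAt hP (cm_ne_bot hP)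
      exact hT τ σ _ ⟨_, ⟨P, hP, hPS.1, hPS.2, hτ, hσ, rfl⟩, rfl⟩
    · exact hU τ ⟨P, hP, hτ, hpP, fun h1 h2 => hPS ⟨h1, h2⟩⟩

end Pool.Agent.Q15.JT
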