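import Pool.Agent.Q15.JT.NF

/-! Representations of number fields congruent to the identity: from `ρ` to `D` (project JT). -/

set_option autoImplicit false
set_option linter.unusedSectionVars false

open NumberField Matrix IsLocalRing Pool.Agent.W569.FM Pool.Agent.W571.FM Pool.Agent.W569.UF
  Pool.Agent.Q15.FMNT Pool.Agent.Q15.FMMain Pool.Agent.Q15.FMScal Pool.Agent.Q15.FM2C

namespace Pool.Agent.Q15.JT

section
variable {E : Type} [NormedField E] [IsUltrametricDist E] {G : Type} [Group G] [TopologicalSpace G]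

theorem map_inj {m n : ℕ} {A B : Matrix (Fin m) (Fin n) (OI E)}
    (h : A.map (algebraMap (OI E) E) = B.map (algebraMap (OI E) E)) : A = B := by
  ext i j
  exact congrFun (congrFun h i) j

/-- the family `D = (ρ - 1) / π` -/
theorem exists_D (hbase : S_BASE) {π : OI E} (hπ0 : π ≠ 0) {n : ℕ} (ρ : G →* GL (Fin n) E)
    (hρ : Continuous ρ)
    (hc : ∀ g i j, ‖((ρ g : Matrix (Fin n) (Fin n) E) - 1) i j‖ ≤ ‖(π : E)‖) :
    ∃ D : G → Matrix (Fin n) (Fin n) (OI E),
      (∀ g, (1 + π • D g).map (algebraMap (OI E) E) = (ρ g : Matrix (Fin n) (Fin n) E)) ∧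
      Law π D ∧ Cts D := by
  have hπE : (π : E) ≠ 0 := fun h => hπ0 (Subtype.ext h)
  have hmem : ∀ g i j, ((ρ g : Matrix (Fin n) (Fin n) E) - 1) i j / (π : E) ∈ OI E := by
    intro g i j
    rw [(hbase E).1, norm_div]
    exact div_le_one_of_le₀ (hc g i j) (norm_nonneg _)
  let D : G → Matrix (Fin n) (Fin n) (OI E) := fun g => Matrix.of fun i j => ⟨_, hmem g i j⟩
  have hD : ∀ g i j, ((D g i j : OI E) : E) =
      ((ρ g : Matrix (Fin n) (Fin n) E) - 1) i j / (π : E) := fun g i j => rfl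
  have h1 : ∀ g, (1 + π • D g).map (algebraMap (OI E) E) = (ρ g : Matrix (Fin n) (Fin n) E) := by
    intro g
    ext i j
    have e1 : ((1 + π • D g).map (algebraMap (OI E) E)) i j =
        ((1 : Matrix (Fin n) (Fin n) (OI E)) i j : E) + (π : E) * ((D g i j : OI E) : E) := rfl
    rw [e1, hD, mul_div_cancel₀ _ hπE, Matrix.sub_apply]
    have e2 : (((1 : Matrix (Fin n) (Fin n) (OI E)) i j : OI E) : E) =
        (1 : Matrix (Fin n) (Fin n) E) i j := by
      rw [Matrix.one_apply, Matrix.one_apply]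
      split_ifs <;> simp
    rw [e2]
    ring
  refine ⟨D, h1, fun g h => ?_, fun i j => ?_⟩
  · have h2 : 1 + π • D (g * h) = (1 + π • D g) * (1 + π • D h) := by
      apply map_inj
      rw [h1, Matrix.map_mul, h1, h1, map_mul]
      rfl
    rw [Matrix.mul_add, Matrix.mul_one, Matrix.add_mul, Matrix.one_mul, Matrix.smul_mul,
      Matrix.mul_smul, add_assoc, add_left_cancel_iff, ← smul_add, ← smul_add] at h2
    rw [smul_cancel hπ0 h2]
    abel
  · have h2 : (fun g => ((D g i j : OI E) : E)) = fun g =>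
        ((ρ g : Matrix (Fin n) (Fin n) E) i j - (1 : Matrix (Fin n) (Fin n) E) i j) / (π : E) := rfl
    rw [h2]
    exact (((Units.continuous_val.comp hρ).matrix_elem i j).sub continuous_const).div_const _

end

variable {k : Type} [Field k] [NumberField k]
  {E : Type} [NormedField E] [IsUltrametricDist E]

theorem rel_test (hbase : S_BASE) (htest : S_TEST) {p : ℕ} (hp : p.Prime) (hpE0 : (p : E) ≠ 0)
    (hpE : ‖(p : E)‖ < 1) {π : OI E} (hπ : ‖(π : E)‖ ≤ ‖(p : E)‖)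
    {n : ℕ} {ρ : GF k →* GL (Fin n) E} {D : GF k → Matrix (Fin n) (Fin n) (OI E)}
    (h1 : ∀ g, (1 + π • D g).map (algebraMap (OI E) E) = (ρ g : Matrix (Fin n) (Fin n) E))
    (hlaw : Law π D) (hcts : Cts D) {P : Ideal (OO k)} (hP : P.IsMaximal) (hpP : (p : OO k) ∉ P)
    {τ σ : GF k} (hτ : InInertia P τ) (hσ : FrobAt (Ideal.absNorm (cm P)) P σ) :
    (1 + π • D σ) * (1 + π • D τ) = (1 + π • D τ) ^ (Ideal.absNorm (cm P)) * (1 + π • D σ) := by
  obtain ⟨l, hl, hpl, hlP⟩ := prime_ne hP hpP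
  have hq0 := absNorm_ne_zero (cm_ne_bot hP)
  set q := Ideal.absNorm (cm P) with hq
  have key := htest E (GF k) p hp hpE0 hpE π hπ n D hlaw hcts (σ * τ) (τ ^ q * σ)
    fun H _ hH f hf => by
      have h2 := tame k hp hl hpl hq0 ⊤ isOpen_univ H hH (f.comp (⊤ : Subgroup (GF k)).subtype)
        (hf.preimage continuous_subtype_val) P hP hlP ⟨τ, trivial⟩ σ hτ hσ
      have h3 : f (σ * τ * σ⁻¹) = f τ ^ q := h2
      rw [map_mul f (τ ^ q), map_pow, ← h3, ← map_mul, inv_mul_cancel_right]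
  apply map_inj
  have h2 := congrArg (fun M : Matrix (Fin n) (Fin n) (OI E) => M.map (algebraMap (OI E) E)) key
  have h2' : (ρ (σ * τ) : Matrix (Fin n) (Fin n) E) = (ρ (τ ^ q * σ) : Matrix (Fin n) (Fin n) E) :=
    ((h1 _).symm.trans h2).trans (h1 _)
  rw [map_mul, map_mul, map_pow] at h2'
  have h3 : ((1 + π • D τ) ^ q).map (algebraMap (OI E) E) =
      (ρ τ : Matrix (Fin n) (Fin n) E) ^ q := by
    rw [← h1 τ]
    exact map_pow (algebraMap (OI E) E).mapMatrix (1 + π • D τ) q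
  rw [Matrix.map_mul, Matrix.map_mul, h3, h1, h1]
  rw [Units.val_mul, Units.val_mul, Units.val_pow_eq_pow_val] at h2'
  exact h2'

theorem charP_res (hbase : S_BASE) {p : ℕ} (hp : p.Prime) (hpE : ‖(p : E)‖ < 1) :
    CharP (ResidueField (OI E)) p := by
  refine (CharP.charP_iff_prime_eq_zero hp).2 ?_
  have h1 : residue (OI E) (p : OI E) = 0 := by
    rw [(hbase E).2.1]
    push_cast
    exact hpE
  rwa [map_natCast] at h1

/-- the setup for a number field -/
theorem setup (hbase : S_BASE) {p s : ℕ} [hp : Fact p.Prime] (hp2 : p ≠ 2) (hs : s ≠ 0)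
    (hpE0 : (p : E) ≠ 0) (hpE : ‖(p : E)‖ < 1) [CharP (ResidueField (OI E)) p]
    {S : Set (Ideal (𝓞 k))} {ψ : GF k →* Multiplicative (ZMod p)} {γ : GF k}
    (h : OneE p ψ) (hN : NormV p s S ψ) (hγ : Multiplicative.toAdd (ψ γ) = 1) :
    Setup E (GF k) p ((p : OI E) ^ s) (UU p S) (TT p S)
      (tame' (ResidueField (OI E)) p s S ψ γ) := by
  have hp0 : (p : OI E) ≠ 0 := by
    intro h0
    apply hpE0
    have h1 := congrArg (fun x : OI E => (x : E)) h0
    simpa using h1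
  have hπ0 : ((p : OI E) ^ s) ≠ 0 := pow_ne_zero _ hp0
  have hdiv : ∀ τ σ q, TT p S τ σ q →
      (q : OI E) - 1 = (p : OI E) ^ s * (((q - 1) / p ^ s : ℕ) : OI E) := by
    rintro τ σ q ⟨P, hP, hPS, hd, -, -, hq⟩
    obtain ⟨h1, -⟩ := hN.val P hP hPS hd
    rw [← hq] at h1
    have hq1 : 1 ≤ q := by
      rw [hq]
      exact Nat.one_le_iff_ne_zero.2 (absNorm_ne_zero (cm_ne_bot hP))
    have h2 : ((q - 1 : ℕ) : OI E) = (p : OI E) ^ s * (((q - 1) / p ^ s : ℕ) : OI E) := by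
      conv_lhs => rw [← Nat.mul_div_cancel' h1]
      push_cast
      rfl
    rw [← h2, Nat.cast_sub hq1, Nat.cast_one]
  refine ⟨hp.out, hp2, hpE, hπ0, ?_, rfl, ?_, ?_, cp h hN hγ⟩
  · rw [← residue_eq_zero_iff, map_pow, map_natCast, CharP.cast_eq_zero, zero_pow hs]
  · intro τ σ a
    constructor
    · rintro ⟨q, hq, rfl⟩
      exact ⟨q, hq, _, hdiv τ σ q hq, map_natCast _ _⟩
    · rintro ⟨q, hq, b, hb, rfl⟩
      refine ⟨q, hq, ?_⟩
      rw [hdiv τ σ q hq] at hb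
      rw [← mul_left_cancel₀ hπ0 hb, map_natCast]
  · intro τ σ q hq
    exact ⟨_, hdiv τ σ q hq⟩

/-- `D` is good -/
theorem good (hbase : S_BASE) (hsup : S_SUP) (hrel : S_REL) (htest : S_TEST) {p s : ℕ}
    [hp : Fact p.Prime] (hp2 : p ≠ 2) (hs : s ≠ 0)
    (hpE0 : (p : E) ≠ 0) (hpE : ‖(p : E)‖ < 1)
    {S : Set (Ideal (𝓞 k))} (hS : ∀ v ∈ S, (p : 𝓞 k) ∉ v)
    {n : ℕ} {ρ : GF k →* GL (Fin n) E} {D : GF k → Matrix (Fin n) (Fin n) (OI E)}
    (h1 : ∀ g, (1 + ((p : OI E) ^ s) • D g).map (algebraMap (OI E) E) =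
      (ρ g : Matrix (Fin n) (Fin n) E))
    (hlaw : Law ((p : OI E) ^ s) D) (hcts : Cts D)
    (hur : ∀ P : Ideal (OO k), P.IsMaximal → cm P ∉ S → (p : OO k) ∉ P →
      ∀ τ, InInertia P τ → ρ τ = 1) : Good ((p : OI E) ^ s) (UU p S) (TT p S) D := by
  have hp0 : (p : OI E) ≠ 0 := by
    intro h0
    apply hpE0
    have h1 := congrArg (fun x : OI E => (x : E)) h0
    simpa using h1
  have hπ0 : ((p : OI E) ^ s) ≠ 0 := pow_ne_zero _ hp0
  have hpm : (p : OI E) ∈ maximalIdeal (OI E) := by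
    rw [← residue_eq_zero_iff, (hbase E).2.1]
    push_cast
    exact hpE
  have hπm : (p : OI E) ^ s ∈ maximalIdeal (OI E) :=
    Ideal.pow_mem_of_mem _ hpm s (Nat.pos_of_ne_zero hs)
  have hπ : ‖(((p : OI E) ^ s : OI E) : E)‖ ≤ ‖(p : E)‖ := by
    push_cast
    rw [norm_pow]
    exact pow_le_of_le_one (norm_nonneg _) hpE.le hs
  refine ⟨hlaw, hcts, ?_, ?_⟩
  · rintro u ⟨P, hP, hu, hpP, hPS⟩
    by_cases hPS' : cm P ∈ S
    · by_contra hne
      obtain ⟨c, F1, hc, hF, ⟨g, hg⟩, -⟩ := hsup E Unit n n (fun _ => D u)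
        (fun _ _ => continuous_const) ⟨(), hne⟩
      have h2 : D u = c • F1 g := hF g
      obtain ⟨σ, hσ⟩ := exists_frobAt hP (cm_ne_bot hP)
      have h3 := rel_test hbase htest hp.out hpE0 hpE hπ h1 hlaw hcts hP hpP hu hσ
      rw [h2, smul_smul] at h3
      have hq0 := absNorm_ne_zero (cm_ne_bot hP)
      refine hg ((hrel (OI E) p hp.out hp2 hpm _ c hπ0 hπm hc n _ (D σ) (F1 g) h3).2 ?_)
      have h4 : ((Ideal.absNorm (cm P) : ℕ) : OI E) - 1 =
          ((Ideal.absNorm (cm P) - 1 : ℕ) : OI E) := by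
        rw [Nat.cast_sub (Nat.one_le_iff_ne_zero.2 hq0), Nat.cast_one]
      rw [h4]
      by_contra h5
      have h6 : residue (OI E) ((Ideal.absNorm (cm P) - 1 : ℕ) : OI E) = 0 :=
        (residue_eq_zero_iff _).2 ((mem_maximalIdeal _).2 h5)
      have := charP_res (E := E) hbase hp.out hpE
      rw [map_natCast, CharP.cast_eq_zero_iff _ p] at h6
      exact hPS hPS' h6
    · have h2 := h1 u
      rw [hur P hP hPS' hpP u hu] at h2
      have h3 : 1 + ((p : OI E) ^ s) • D u = 1 := by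
        apply map_inj
        rw [h2, Matrix.map_one _ (map_zero _) (map_one _)]
        rfl
      apply smul_cancel hπ0
      rw [smul_zero]
      exact left_eq_add.1 h3.symm
  · rintro τ σ q ⟨P, hP, hPS, hd, hτ, hσ, rfl⟩
    exact rel_test hbase htest hp.out hpE0 hpE hπ h1 hlaw hcts hP
      (fun h0 => hS _ hPS (natCast_mem_cm.2 h0)) hτ hσ

end Pool.Agent.Q15.JT
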