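import Pool.Agent.Q15.JT.NF2

/-! First order families for number fields: two primes, or an axis (project JT). -/

set_option autoImplicit false
set_option linter.unusedSectionVars false

open NumberField Matrix IsLocalRing Pool.Agent.W569.FM Pool.Agent.W571.FM Pool.Agent.W569.UF
  Pool.Agent.Q15.FMNT Pool.Agent.Q15.FMMain Pool.Agent.Q15.FMScal Pool.Agent.Q15.FM2C
  Pool.Agent.Q15.FM3E

namespace Pool.Agent.Q15.JT

variable {k : Type} [Field k] [NumberField k]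

/-- first order families have eigenvectors -/
def FOk (κ : Type) [Field κ] (p s : ℕ) (S : Set (Ideal (𝓞 k))) (m : ℕ) : Prop :=
  ∀ M : GF k → Matrix (Fin m) (Fin m) κ, (∀ g h, M (g * h) = M g + M h) →
    IsOpen {g | M g = 0} →
    (∀ P : Ideal (OO k), P.IsMaximal → cm P ∉ S → (p : OO k) ∉ P → ∀ τ, InInertia P τ →
      M τ = 0) →
    (∀ P : Ideal (OO k), P.IsMaximal → cm P ∈ S → ∀ τ, InInertia P τ →
      (¬ p ∣ Ideal.absNorm (cm P) - 1 → M τ = 0) ∧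
      ∀ σ, FrobAt (Ideal.absNorm (cm P)) P σ →
        M σ * M τ - M τ * M σ = (((Ideal.absNorm (cm P) - 1) / p ^ s : ℕ) : κ) • M τ) →
    ∃ v : Fin m → κ, v ≠ 0 ∧ ∀ g, ∃ c : κ, M g *ᵥ v = c • v

section
variable {p s : ℕ} [hp : Fact p.Prime] {κ : Type} [Field κ] [CharP κ p]
  {S : Set (Ideal (𝓞 k))} {ψ : GF k →* Multiplicative (ZMod p)} {γ : GF k}

theorem fo_of (hS : ∀ v ∈ S, (p : 𝓞 k) ∉ v) {m : ℕ} (h : FOk κ p s S m) :
    FO (tame' κ p s S ψ γ) m := by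
  intro M hM
  refine h M hM.add hM.op (fun P hP hPS hpP τ hτ => ?_) (fun P hP hPS τ hτ => ?_)
  · exact hM.ur τ ⟨P, hP, hτ, hpP, fun h1 => absurd h1 hPS⟩
  · have hpP : (p : OO k) ∉ P := fun h0 => hS _ hPS (natCast_mem_cm.2 h0)
    have h1 : ¬ p ∣ Ideal.absNorm (cm P) - 1 → M τ = 0 := fun hd =>
      hM.ur τ ⟨P, hP, hτ, hpP, fun _ => hd⟩
    refine ⟨h1, fun σ hσ => ?_⟩
    by_cases hd : p ∣ Ideal.absNorm (cm P) - 1
    · exact hM.rel τ σ _ ⟨_, ⟨P, hP, hPS, hd, hτ, hσ, rfl⟩, rfl⟩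
    · rw [h1 hd, Matrix.mul_zero, Matrix.zero_mul, sub_zero, smul_zero]

theorem inertia_mul' {P : Ideal (OO k)} {σ τ : GF k} (hσ : InInertia P σ) (hτ : InInertia P τ) :
    InInertia P (σ * τ) := by
  intro x
  have h1 : (σ * τ) • x - x = (σ • (τ • x) - τ • x) + (τ • x - x) := by
    rw [mul_smul]
    ring
  rw [h1]
  exact P.add_mem (hσ _) (hτ _)

theorem inertia_one (P : Ideal (OO k)) : InInertia P (1 : GF k) := by
  intro x
  rw [one_smul, sub_self]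
  exact P.zero_mem

theorem frob_mul_inertia {P : Ideal (OO k)} {q : ℕ} (hq : q ≠ 0) {σ τ : GF k}
    (hσ : FrobAt q P σ) (hτ : InInertia P τ) : FrobAt q P (σ * τ) := by
  intro x
  have h1 : (σ * τ) • x - x ^ q = (σ • (τ • x - x) - (τ • x - x) ^ q) + (τ • x - x) ^ q +
      (σ • x - x ^ q) := by
    rw [mul_smul, smul_sub]
    ring
  rw [h1]
  exact P.add_mem (P.add_mem (hσ _) (Ideal.pow_mem_of_mem _ (hτ x) q (Nat.pos_of_ne_zero hq)))
    (hσ x)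

/-- the image of inertia as a subspace -/
def img {W : Type} [AddCommGroup W] [Module (ZMod p) W] (F : GF k → W)
    (hF : ∀ g h, F (g * h) = F g + F h) (P : Ideal (OO k)) : Submodule (ZMod p) W where
  carrier := {w | ∃ τ, InInertia P τ ∧ F τ = w}
  add_mem' := by
    rintro _ _ ⟨τ, hτ, rfl⟩ ⟨τ', hτ', rfl⟩
    exact ⟨τ * τ', inertia_mul' hτ hτ', hF _ _⟩
  zero_mem' := by
    refine ⟨1, inertia_one P, ?_⟩
    have h1 := hF 1 1
    rw [mul_one] at h1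
    exact left_eq_add.1 h1
  smul_mem' := by
    rintro c _ ⟨τ, hτ, rfl⟩
    have h0 : F 1 = 0 := by
      have h1 := hF 1 1
      rw [mul_one] at h1
      exact left_eq_add.1 h1
    have hpow : ∀ n : ℕ, F (τ ^ n) = n • F τ := by
      intro n
      induction n with
      | zero => rw [pow_zero, h0, zero_smul]
      | succ n ih => rw [pow_succ, hF, ih, succ_nsmul]
    refine ⟨τ ^ c.val, inertia_pow hτ _, ?_⟩
    rw [hpow]
    have : NeZero p := ⟨hp.out.ne_zero⟩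
    rw [← Nat.cast_smul_eq_nsmul (ZMod p), ZMod.natCast_val, ZMod.cast_id', id_eq]

theorem F_one {W : Type} [AddCommGroup W] {F : GF k → W}
    (hF : ∀ g h, F (g * h) = F g + F h) : F 1 = 0 := by
  have h1 := hF 1 1
  rw [mul_one] at h1
  exact left_eq_add.1 h1

theorem F_pow {W : Type} [AddCommGroup W] {F : GF k → W}
    (hF : ∀ g h, F (g * h) = F g + F h) (g : GF k) (n : ℕ) : F (g ^ n) = n • F g := by
  induction n with
  | zero => rw [pow_zero, F_one hF, zero_smul]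
  | succ n ih => rw [pow_succ, hF, ih, succ_nsmul]

theorem F_inv {W : Type} [AddCommGroup W] {F : GF k → W}
    (hF : ∀ g h, F (g * h) = F g + F h) (g : GF k) : F g⁻¹ = - F g := by
  have h1 := hF g g⁻¹
  rw [mul_inv_cancel, F_one hF] at h1
  exact (neg_eq_of_add_eq_zero_right h1.symm).symm

theorem F_conj {W : Type} [AddCommGroup W] {F : GF k → W}
    (hF : ∀ g h, F (g * h) = F g + F h) (g x : GF k) : F (g * x * g⁻¹) = F x := by
  rw [hF, hF, F_inv hF]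
  abel

/-- composition of an additive function with a functional -/
noncomputable def comp {W : Type} [AddCommGroup W] [Module (ZMod p) W] (F : GF k → W)
    (hF : ∀ g h, F (g * h) = F g + F h) (f : W →ₗ[ZMod p] ZMod p) :
    GF k →* Multiplicative (ZMod p) where
  toFun g := Multiplicative.ofAdd (f (F g))
  map_one' := by rw [F_one hF, map_zero, ofAdd_zero]
  map_mul' g h := by rw [hF, map_add, ofAdd_add]

theorem comp_open {W : Type} [AddCommGroup W] [Module (ZMod p) W] (F : GF k → W)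
    (hF : ∀ g h, F (g * h) = F g + F h) (ho : IsOpen {g | F g = 0})
    (f : W →ₗ[ZMod p] ZMod p) : IsOpen ((comp F hF f).ker : Set (GF k)) := by
  refine Subgroup.isOpen_of_mem_nhds _ (g := 1) (Filter.mem_of_superset
    (ho.mem_nhds (F_one hF)) fun x hx => ?_)
  show Multiplicative.ofAdd (f (F x)) = 1
  rw [show F x = 0 from hx, map_zero, ofAdd_zero]

variable {m : ℕ} {M : GF k → Matrix (Fin m) (Fin m) κ}

theorem comm_inertia (hM : FOrel (tame' κ p s S ψ γ) M) {P : Ideal (OO k)} (hP : P.IsMaximal)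
    (hPS : cm P ∈ S) (hd : p ∣ Ideal.absNorm (cm P) - 1) {τ τ' : GF k} (hτ : InInertia P τ)
    (hτ' : InInertia P τ') : M τ' * M τ - M τ * M τ' = 0 := by
  obtain ⟨σ, hσ⟩ := exists_frobAt hP (cm_ne_bot hP)
  have h1 := hM.rel τ σ _ ⟨_, ⟨P, hP, hPS, hd, hτ, hσ, rfl⟩, rfl⟩
  have h2 := hM.rel τ (σ * τ') _ ⟨_, ⟨P, hP, hPS, hd, hτ,
    frob_mul_inertia (absNorm_ne_zero (cm_ne_bot hP)) hσ hτ', rfl⟩, rfl⟩
  rw [hM.add, Matrix.add_mul, Matrix.mul_add, ← h1] at h2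
  have h3 : M τ' * M τ - M τ * M τ' =
      (M σ * M τ + M τ' * M τ - (M τ * M σ + M τ * M τ')) - (M σ * M τ - M τ * M σ) := by abel
  rw [h3, h2, sub_self]

/-- a point `x` with `M x` in the inertia coset of a multiple of a Frobenius element -/
theorem comm_of_coset (hM : FOrel (tame' κ p s S ψ γ) M) {P : Ideal (OO k)} (hP : P.IsMaximal)
    (hPS : cm P ∈ S) (hd : p ∣ Ideal.absNorm (cm P) - 1) {σ x τ₁ : GF k}
    (hσ : FrobAt (Ideal.absNorm (cm P)) P σ) (hτ₁ : InInertia P τ₁)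
    (ha : (((Ideal.absNorm (cm P) - 1) / p ^ s : ℕ) : κ) ≠ 0)
    (h : M σ + M τ₁ = (((Ideal.absNorm (cm P) - 1) / p ^ s : ℕ) : κ) • M x)
    {Q : Ideal (OO k)} (hQ : Q.IsMaximal) (hQP : cm Q = cm P) {τ : GF k} (hτ : InInertia Q τ) :
    M x * M τ - M τ * M x = M τ := by
  obtain ⟨g, hg, -⟩ := conj_same hQ hP hQP
  have h0 : M τ = M (g * τ * g⁻¹) := (F_conj hM.add g τ).symm
  rw [h0]
  have hτ' := hg τ hτ
  set t := g * τ * g⁻¹ with ht
  have h1 := hM.rel t σ _ ⟨_, ⟨P, hP, hPS, hd, hτ', hσ, rfl⟩, rfl⟩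
  have h2 := comm_inertia hM hP hPS hd hτ' hτ₁
  set a := (((Ideal.absNorm (cm P) - 1) / p ^ s : ℕ) : κ) with hadef
  have h3 : a • (M x * M t - M t * M x) = a • M t := by
    rw [smul_sub, ← Matrix.smul_mul, ← Matrix.mul_smul, ← h, Matrix.add_mul, Matrix.mul_add,
      ← h1]
    have h4 : M τ₁ * M t = M t * M τ₁ := sub_eq_zero.1 h2
    rw [h4]
    abel
  exact smul_cancel ha h3

/-- **an axis** -/
def AxisAt (p s : ℕ) (S : Set (Ideal (𝓞 k))) (x : GF k) : Prop :=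
  ∀ P : Ideal (OO k), P.IsMaximal → cm P ∈ S → p ∣ Ideal.absNorm (cm P) - 1 →
    ∀ χ : GF k →* Multiplicative (ZMod p), IsOpen (χ.ker : Set (GF k)) →
      (∀ Q : Ideal (OO k), Q.IsMaximal → (p : OO k) ∉ Q → cm Q ∉ S ∨ cm Q = cm P →
        ∀ τ, InInertia Q τ → χ τ = 1) →
      ∀ σ, FrobAt (Ideal.absNorm (cm P)) P σ → Multiplicative.toAdd (χ σ) =
        (((Ideal.absNorm (cm P) - 1) / p ^ s : ℕ) : ZMod p) * Multiplicative.toAdd (χ x)

theorem a_ne (hN : NormV p s S ψ) {P : Ideal (OO k)} (hP : P.IsMaximal)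
    (hPS : cm P ∈ S) (hd : p ∣ Ideal.absNorm (cm P) - 1) (R : Type) [Field R] [CharP R p] :
    (((Ideal.absNorm (cm P) - 1) / p ^ s : ℕ) : R) ≠ 0 := by
  obtain ⟨h1, h2, -⟩ := hN.val P hP hPS hd
  rw [Ne, CharP.cast_eq_zero_iff R p]
  intro h4
  apply h2
  rw [pow_succ, ← Nat.mul_div_cancel' h1]
  exact Nat.mul_dvd_mul_left _ h4

theorem fo_trivial [IsAlgClosed κ] (haxis : S_AXIS) (h : OneE p ψ) (hN : NormV p s S ψ)
    (hγ : Multiplicative.toAdd (ψ γ) = 1) (hm : 0 < m) (hmp : m < p)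
    (hno : ¬ ∃ P : Ideal (OO k), P.IsMaximal ∧ cm P ∈ S ∧ p ∣ Ideal.absNorm (cm P) - 1) :
    FO (tame' κ p s S ψ γ) m := by
  intro M hM
  have hc := cp (κ := κ) h hN hγ
  refine haxis κ p hp.out (GF k) _ hc m hm hmp M hM γ hc.ψγ ?_
  rintro τ σ a ⟨q, ⟨P, hP, hPS, hd, -⟩, -⟩
  exact absurd ⟨P, hP, hPS, hd⟩ hno

theorem fo_axis [IsAlgClosed κ] (haxis : S_AXIS) (hlin : S_LIN) (h : OneE p ψ)
    (hN : NormV p s S ψ)
    (hγ : Multiplicative.toAdd (ψ γ) = 1) (hm : 0 < m) (hmp : m < p) {x : GF k}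
    (hx : AxisAt p s S x) : FO (tame' κ p s S ψ γ) m := by
  by_cases hno : ∃ P : Ideal (OO k), P.IsMaximal ∧ cm P ∈ S ∧ p ∣ Ideal.absNorm (cm P) - 1
  swap
  · exact fo_trivial haxis h hN hγ hm hmp hno
  obtain ⟨P0, hP0, hPS0, hd0⟩ := hno
  have hψx : Multiplicative.toAdd (ψ x) = 1 := by
    obtain ⟨σ, hσ⟩ := exists_frobAt hP0 (cm_ne_bot hP0)
    have h1 := hx P0 hP0 hPS0 hd0 ψ h.op (fun Q hQ hpQ _ τ hτ => h.ur Q hQ hpQ τ hτ) σ hσ
    rw [(hN.val P0 hP0 hPS0 hd0).2.2 σ hσ] at h1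
    have h2 := a_ne hN hP0 hPS0 hd0 (ZMod p)
    have h3 := mul_left_cancel₀ h2 ((mul_one _).trans h1)
    exact h3.symm
  intro M hM
  have hc := cp (κ := κ) h hN hγ
  refine haxis κ p hp.out (GF k) _ hc m hm hmp M hM x ?_ ?_
  · show ZMod.castHom (dvd_refl p) κ (Multiplicative.toAdd (ψ x)) = 1
    rw [hψx, map_one]
  rintro τ σ a ⟨q, ⟨P, hP, hPS, hd, hτ, hσ, rfl⟩, -⟩
  let _ : Algebra (ZMod p) κ := ZMod.algebra κ p
  set b : ZMod p := (((Ideal.absNorm (cm P) - 1) / p ^ s : ℕ) : ZMod p) with hb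
  obtain ⟨a₁, ⟨τ₁, hτ₁, rfl⟩, b₁, hb₁, hab⟩ := hlin p (Matrix (Fin m) (Fin m) κ)
    (img (p := p) M hM.add P) ⊥ (M σ) (b • M x) (fun f hf _ => by
      have h1 := hx P hP hPS hd (comp M hM.add f) (comp_open M hM.add hM.op f)
        (fun Q hQ hpQ hQS τ' hτ' => by
          show Multiplicative.ofAdd (f (M τ')) = 1
          have h2 : f (M τ') = 0 := by
            rcases hQS with h3 | h3
            · rw [hM.ur τ' ⟨Q, hQ, hτ', hpQ, fun h4 => absurd h4 h3⟩, map_zero]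
            · obtain ⟨g, hg, -⟩ := conj_same hQ hP h3
              rw [← F_conj hM.add g τ']
              exact hf _ ⟨_, hg τ' hτ', rfl⟩
          rw [h2, ofAdd_zero]) σ hσ
      have h2 : f (M σ) = b * f (M x) := h1
      rw [h2, map_smul, smul_eq_mul])
  rw [(Submodule.mem_bot _).1 hb₁, add_zero] at hab
  refine comm_of_coset hM hP hPS hd hσ hτ₁ (a_ne hN hP hPS hd κ) ?_ hP rfl hτ
  rw [hab, hb]
  ext i j
  simp only [Matrix.smul_apply, Algebra.smul_def, smul_eq_mul, map_natCast]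

/-- at most two primes in `S` have norm `1` modulo `p` -/
def Two (p : ℕ) (S : Set (Ideal (𝓞 k))) : Prop :=
  ∀ u ∈ S, ∀ v ∈ S, ∀ w ∈ S, p ∣ Ideal.absNorm u - 1 → p ∣ Ideal.absNorm v - 1 →
    p ∣ Ideal.absNorm w - 1 → u = v ∨ v = w ∨ u = w

theorem fo_two [IsAlgClosed κ] (haxis : S_AXIS) (hlin : S_LIN) (h : OneE p ψ)
    (hN : NormV p s S ψ)
    (hγ : Multiplicative.toAdd (ψ γ) = 1) (hm : 0 < m) (hmp : m < p)
    (hx : Two p S) : FO (tame' κ p s S ψ γ) m := by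
  by_cases hno : ∃ P : Ideal (OO k), P.IsMaximal ∧ cm P ∈ S ∧ p ∣ Ideal.absNorm (cm P) - 1
  swap
  · exact fo_trivial haxis h hN hγ hm hmp hno
  obtain ⟨P1, hP1, hPS1, hd1⟩ := hno
  obtain ⟨P2, hP2, hPS2, hd2, hP12⟩ : ∃ P : Ideal (OO k), P.IsMaximal ∧ cm P ∈ S ∧
      p ∣ Ideal.absNorm (cm P) - 1 ∧ ∀ Q : Ideal (OO k), Q.IsMaximal → cm Q ∈ S →
        p ∣ Ideal.absNorm (cm Q) - 1 → cm Q = cm P1 ∨ cm Q = cm P := by
    by_cases h1 : ∃ P : Ideal (OO k), P.IsMaximal ∧ cm P ∈ S ∧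
        p ∣ Ideal.absNorm (cm P) - 1 ∧ cm P ≠ cm P1
    · obtain ⟨P, hP, hPS, hd, hne⟩ := h1
      refine ⟨P, hP, hPS, hd, fun Q hQ hQS hQd => ?_⟩
      rcases hx _ hQS _ hPS _ hPS1 hQd hd hd1 with h2 | h2 | h2
      · exact Or.inr h2
      · exact absurd h2 hne
      · exact Or.inl h2
    · push Not at h1
      exact ⟨P1, hP1, hPS1, hd1, fun Q hQ hQS hQd => Or.inl (h1 Q hQ hQS hQd)⟩
  intro M hM
  have hc := cp (κ := κ) h hN hγ
  let _ : Algebra (ZMod p) κ := ZMod.algebra κ p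
  obtain ⟨σ₁, hσ₁⟩ := exists_frobAt hP1 (cm_ne_bot hP1)
  obtain ⟨σ₂, hσ₂⟩ := exists_frobAt hP2 (cm_ne_bot hP2)
  set F : GF k → Matrix (Fin m) (Fin m) κ × ZMod p :=
    fun g => (M g, Multiplicative.toAdd (ψ g)) with hFdef
  have hF : ∀ g h, F (g * h) = F g + F h := by
    intro g h
    show (M (g * h), Multiplicative.toAdd (ψ (g * h))) = _
    rw [hM.add, map_mul, toAdd_mul]
    rfl
  have hFo : IsOpen {g | F g = 0} := by
    have h1 : {g | F g = 0} = {g | M g = 0} ∩ (ψ.ker : Set (GF k)) := by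
      ext g
      show (M g, Multiplicative.toAdd (ψ g)) = 0 ↔ M g = 0 ∧ ψ g = 1
      rw [Prod.mk_eq_zero]
      exact and_congr_right fun _ =>
        ⟨fun h => Multiplicative.toAdd.injective (h.trans toAdd_one.symm), fun h => by
          rw [h, toAdd_one]⟩
    rw [h1]
    exact hM.op.inter h.op
  set a1 : ZMod p := (((Ideal.absNorm (cm P1) - 1) / p ^ s : ℕ) : ZMod p) with ha1
  set a2 : ZMod p := (((Ideal.absNorm (cm P2) - 1) / p ^ s : ℕ) : ZMod p) with ha2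
  have ha1' : a1 ≠ 0 := a_ne hN hP1 hPS1 hd1 (ZMod p)
  have ha2' : a2 ≠ 0 := a_ne hN hP2 hPS2 hd2 (ZMod p)
  obtain ⟨x1, ⟨τ₁, hτ₁, rfl⟩, x2, ⟨τ₂, hτ₂, rfl⟩, hab⟩ := hlin p (Matrix (Fin m) (Fin m) κ × ZMod p)
    (img (p := p) F hF P1) (img (p := p) F hF P2) (a1⁻¹ • F σ₁) (a2⁻¹ • F σ₂) (fun f hf1 hf2 => by
      obtain ⟨n, hn⟩ := h.uni (comp F hF f) (comp_open F hF hFo f) (fun Q hQ hpQ τ' hτ' => by
        show Multiplicative.ofAdd (f (F τ')) = 1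
        have h2 : f (F τ') = 0 := by
          by_cases hQS : cm Q ∈ S ∧ p ∣ Ideal.absNorm (cm Q) - 1
          · rcases hP12 Q hQ hQS.1 hQS.2 with h3 | h3
            · obtain ⟨g, hg, -⟩ := conj_same hQ hP1 h3
              rw [← F_conj hF g τ']
              exact hf1 _ ⟨_, hg τ' hτ', rfl⟩
            · obtain ⟨g, hg, -⟩ := conj_same hQ hP2 h3
              rw [← F_conj hF g τ']
              exact hf2 _ ⟨_, hg τ' hτ', rfl⟩
          · have h3 : F τ' = 0 := by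
              show (M τ', Multiplicative.toAdd (ψ τ')) = 0
              rw [hM.ur τ' ⟨Q, hQ, hτ', hpQ, fun h4 h5 => hQS ⟨h4, h5⟩⟩, h.ur Q hQ hpQ τ' hτ',
                toAdd_one]
              rfl
            rw [h3, map_zero]
        rw [h2, ofAdd_zero])
      have hn' : ∀ g, f (F g) = n * Multiplicative.toAdd (ψ g) := by
        intro g
        have h1 := congrArg Multiplicative.toAdd (hn g)
        rw [toAdd_pow, nsmul_eq_mul] at h1
        exact h1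
      rw [map_smul, map_smul, hn', hn', (hN.val P1 hP1 hPS1 hd1).2.2 σ₁ hσ₁,
        (hN.val P2 hP2 hPS2 hd2).2.2 σ₂ hσ₂, smul_eq_mul, smul_eq_mul, ← ha1, ← ha2,
        mul_left_comm, inv_mul_cancel₀ ha1', mul_left_comm, inv_mul_cancel₀ ha2'])
  have hzs : ∀ (c : ZMod p) (g : GF k), F (g ^ c.val) = c • F g := by
    intro c g
    have : NeZero p := ⟨hp.out.ne_zero⟩
    rw [F_pow hF, ← Nat.cast_smul_eq_nsmul (ZMod p), ZMod.natCast_val, ZMod.cast_id', id_eq]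
  set x := σ₁ ^ a1⁻¹.val * τ₁ with hxdef
  have hx1 : F x = a1⁻¹ • F σ₁ + F τ₁ := by rw [hxdef, hF, hzs]
  have hx2 : F x = a2⁻¹ • F σ₂ + F τ₂ := hx1.trans hab
  have hkey : ∀ (P : Ideal (OO k)), P.IsMaximal → cm P ∈ S → p ∣ Ideal.absNorm (cm P) - 1 →
      ∀ (σ τ' : GF k), FrobAt (Ideal.absNorm (cm P)) P σ → InInertia P τ' →
      F x = ((((Ideal.absNorm (cm P) - 1) / p ^ s : ℕ) : ZMod p))⁻¹ • F σ + F τ' →
      ∀ (Q : Ideal (OO k)), Q.IsMaximal → cm Q = cm P → ∀ τ, InInertia Q τ →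
      M x * M τ - M τ * M x = M τ := by
    intro P hP hPS hd σ τ' hσ hτ' he Q hQ hQP τ hτ
    set a : ZMod p := (((Ideal.absNorm (cm P) - 1) / p ^ s : ℕ) : ZMod p) with hadef
    have ha : a ≠ 0 := a_ne hN hP hPS hd (ZMod p)
    refine comm_of_coset (τ₁ := τ' ^ a.val) hM hP hPS hd hσ (inertia_pow hτ' _)
      (a_ne hN hP hPS hd κ) ?_ hQ hQP hτ
    have h1 : a • F x = F σ + F (τ' ^ a.val) := by
      rw [he, smul_add, smul_smul, mul_inv_cancel₀ ha, one_smul, hzs]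
    have h2 := congrArg Prod.fst h1
    have h3 : a • M x = M σ + M (τ' ^ a.val) := h2
    rw [← h3, hadef]
    ext i j
    simp only [Matrix.smul_apply, Algebra.smul_def, smul_eq_mul, map_natCast]
  refine haxis κ p hp.out (GF k) _ hc m hm hmp M hM x ?_ ?_
  · show ZMod.castHom (dvd_refl p) κ (Multiplicative.toAdd (ψ x)) = 1
    have h1 := congrArg Prod.snd hx1
    have h2 : Multiplicative.toAdd (ψ x) = a1⁻¹ * Multiplicative.toAdd (ψ σ₁) +
        Multiplicative.toAdd (ψ τ₁) := h1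
    have hpP1 : (p : OO k) ∉ P1 := fun h0 => hN.hS _ hPS1 (natCast_mem_cm.2 h0)
    rw [h2, (hN.val P1 hP1 hPS1 hd1).2.2 σ₁ hσ₁, h.ur P1 hP1 hpP1 τ₁ hτ₁, toAdd_one, add_zero,
      ← ha1, inv_mul_cancel₀ ha1', map_one]
  · rintro τ σ a ⟨q, ⟨P, hP, hPS, hd, hτ, hσ, rfl⟩, -⟩
    rcases hP12 P hP hPS hd with h3 | h3
    · exact hkey P1 hP1 hPS1 hd1 σ₁ τ₁ hσ₁ hτ₁ hx1 P hP h3 τ hτ
    · exact hkey P2 hP2 hPS2 hd2 σ₂ τ₂ hσ₂ hτ₂ hx2 P hP h3 τ hτ

end

end Pool.Agent.Q15.JT
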