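import Pool.Agent.Q15.JT.NF3
import Pool.Agent.Q15.JT.J2
import Pool.Agent.Q15.JT.J3
import Pool.Agent.Q15.JT.J4

/-! Representations of number fields congruent to the identity: the theorem (project JT). -/

set_option autoImplicit false
set_option linter.unusedSectionVars false

open NumberField Matrix IsLocalRing Pool.Agent.W569.FM Pool.Agent.W571.FM Pool.Agent.W569.UF
  Pool.Agent.Q15.FMNT Pool.Agent.Q15.FMMain Pool.Agent.Q15.FMScal Pool.Agent.Q15.FM2C

namespace Pool.Agent.Q15.JT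

section tri
variable {R : Type} [CommRing R] {n : ℕ}

theorem tri_mul_diag {A B : Matrix (Fin n) (Fin n) R} (hA : ∀ i j, j < i → A i j = 0)
    (hB : ∀ i j, j < i → B i j = 0) (i : Fin n) : (A * B) i i = A i i * B i i := by
  rw [Matrix.mul_apply]
  refine Finset.sum_eq_single i (fun k _ hk => ?_) (fun h => absurd (Finset.mem_univ i) h)
  rcases lt_or_gt_of_ne hk with h | h
  · rw [hA i k h, zero_mul]
  · rw [hB k i h, mul_zero]

theorem tri_mul {A B : Matrix (Fin n) (Fin n) R} (hA : ∀ i j, j < i → A i j = 0)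
    (hB : ∀ i j, j < i → B i j = 0) (i j : Fin n) (hij : j < i) : (A * B) i j = 0 := by
  rw [Matrix.mul_apply]
  refine Finset.sum_eq_zero fun k _ => ?_
  rcases lt_or_ge k i with h | h
  · rw [hA i k h, zero_mul]
  · rw [hB k j (hij.trans_le h), mul_zero]

theorem tri_pow {A : Matrix (Fin n) (Fin n) R} (hA : ∀ i j, j < i → A i j = 0) (q : ℕ) :
    (∀ i j, j < i → (A ^ q) i j = 0) ∧ ∀ i, (A ^ q) i i = (A i i) ^ q := by
  induction q with
  | zero =>
    refine ⟨fun i j h => ?_, fun i => ?_⟩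
    · rw [pow_zero, Matrix.one_apply_ne h.ne']
    · rw [pow_zero, pow_zero, Matrix.one_apply_eq]
  | succ q ih =>
    refine ⟨fun i j h => ?_, fun i => ?_⟩
    · rw [pow_succ]
      exact tri_mul ih.1 hA i j h
    · rw [pow_succ, pow_succ, tri_mul_diag ih.1 hA, ih.2]

end tri

section
variable {E : Type} [NormedField E] [IsUltrametricDist E] {n : ℕ}

/-- the diagonal entries of a triangular form of an integral matrix are integral -/
theorem diag_integral (D : Matrix (Fin n) (Fin n) (OI E)) {Q Q' : Matrix (Fin n) (Fin n) E}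
    (hQ : Q * Q' = 1) (hQ' : Q' * Q = 1)
    (ht : ∀ i j, j < i → (Q' * D.map (algebraMap (OI E) E) * Q) i j = 0) (i : Fin n) :
    ∃ y : OI E, (y : E) = (Q' * D.map (algebraMap (OI E) E) * Q) i i := by
  set A := Q' * D.map (algebraMap (OI E) E) * Q with hA
  set x := A i i with hx
  have h1 : (scalar (Fin n) x - A).det = 0 := by
    rw [Matrix.det_of_upperTriangular]
    · refine Finset.prod_eq_zero (Finset.mem_univ i) ?_
      rw [Matrix.sub_apply, Matrix.scalar_apply, Matrix.diagonal_apply_eq, hx, sub_self]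
    · intro a b hab
      have hab' : b < a := hab
      rw [Matrix.sub_apply, Matrix.scalar_apply, Matrix.diagonal_apply_ne _ hab'.ne',
        ht a b hab', sub_self]
  have h2 : (scalar (Fin n) x - D.map (algebraMap (OI E) E)).det = 0 := by
    have h3 : scalar (Fin n) x - A = Q' * (scalar (Fin n) x - D.map (algebraMap (OI E) E)) * Q := by
      have h4 : Q' * scalar (Fin n) x * Q = scalar (Fin n) x := by
        have h5 : scalar (Fin n) x = x • (1 : Matrix (Fin n) (Fin n) E) := by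
          rw [Matrix.scalar_apply, Matrix.smul_one_eq_diagonal]
        rw [h5, Matrix.mul_smul, Matrix.mul_one, Matrix.smul_mul, hQ']
      rw [Matrix.mul_sub, Matrix.sub_mul, h4]
    rw [h3, Matrix.det_mul, Matrix.det_mul, mul_comm Q'.det, mul_assoc] at h1
    have h4 : Q'.det * Q.det = 1 := by rw [← Matrix.det_mul, hQ', Matrix.det_one]
    rwa [h4, mul_one] at h1
  have h3 : IsIntegral (OI E) x := by
    refine ⟨D.charpoly, Matrix.charpoly_monic D, ?_⟩
    rw [← Polynomial.eval_map, ← Matrix.charpoly_map, Matrix.eval_charpoly]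
    exact h2
  obtain ⟨y, hy⟩ := IsIntegrallyClosed.isIntegral_iff.1 h3
  exact ⟨y, hy⟩

end

section main

variable {E : Type} [NormedField E] [IsUltrametricDist E] [IsAlgClosed E] {G : Type} [Group G]
  [TopologicalSpace G] [IsTopologicalGroup G] [CompactSpace G]
  {p : ℕ} {π : OI E} {U : Set G} {T : G → G → ℕ → Prop} {t : Tame (ResidueField (OI E)) G}

/-- **triangular form** -/
theorem triangular (h : Setup E G p π U T t) {n : ℕ} (hnp : n < p)
    (hfo : ∀ m, 0 < m → m ≤ n → FO t m)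
    (D : G → Matrix (Fin n) (Fin n) (OI E)) (hD : Good π U T D) :
    ∃ Q Q' : Matrix (Fin n) (Fin n) E, Q * Q' = 1 ∧ Q' * Q = 1 ∧
      (∀ g i j, j < i → (Q' * (D g).map (algebraMap (OI E) E) * Q) i j = 0) ∧
      ∀ τ σ q, T τ σ q → ∀ i, (Q' * (D τ).map (algebraMap (OI E) E) * Q) i i = 0 := by
  obtain ⟨Q, Q', hQ, hQ', ht⟩ := flag (OI E) E G
    (fun n D => Good π U T D ∧ n < p ∧ ∀ m, 0 < m → m ≤ n → FO t m)
    (fun m n D B r s hrs hcomm hP => by
      have hmn : m ≤ n := by
        have h3 := card_le_of_injective (OI E) (Matrix.toLin' s) (by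
          apply Function.LeftInverse.injective (g := Matrix.toLin' r)
          intro x
          rw [← LinearMap.comp_apply, ← Matrix.toLin'_mul, hrs, Matrix.toLin'_one]
          rfl)
        simpa using h3
      exact ⟨hP.1.quot r s hrs hcomm, hmn.trans_lt hP.2.1,
        fun k hk hkm => hP.2.2 k hk (hkm.trans hmn)⟩)
    (fun n D hn hP => eigen h base sup rel split spec stable eig n hn hP.2.1 hP.2.2 D hP.1)
    n D ⟨hD, hnp, hfo⟩
  refine ⟨Q, Q', hQ, hQ', ht, fun τ σ q htt i => ?_⟩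
  obtain ⟨x, hx⟩ := diag_integral (D τ) hQ hQ' (ht τ) i
  obtain ⟨y, hy⟩ := diag_integral (D σ) hQ hQ' (ht σ) i
  rw [← hx]
  by_contra hne
  have hx0 : x ≠ 0 := fun h0 => hne (by rw [h0]; rfl)
  obtain ⟨b, hb⟩ := h.hb τ σ q htt
  have hta : t.T τ σ (residue (OI E) b) := (h.hT _ _ _).2 ⟨q, htt, b, hb, rfl⟩
  have ha := (h.cp.ψT _ _ _ hta).2.2
  -- the relation on the diagonal
  set φ := algebraMap (OI E) E with hφ
  have hR : ∀ g, Q' * (1 + π • D g).map φ * Q = 1 + (π : E) • (Q' * (D g).map φ * Q) := by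
    intro g
    have h1 : (1 + π • D g).map φ = 1 + (π : E) • (D g).map φ := by
      ext a b
      have hπφ : φ π = (π : E) := rfl
      rw [Matrix.map_apply, Matrix.add_apply, Matrix.add_apply, Matrix.smul_apply,
        Matrix.smul_apply, Matrix.map_apply, map_add, smul_eq_mul, smul_eq_mul, map_mul,
        Matrix.one_apply, Matrix.one_apply, hπφ]
      split_ifs
      · rw [map_one]
      · rw [map_zero]
    rw [h1, Matrix.mul_add, Matrix.add_mul, Matrix.mul_one, hQ', Matrix.mul_smul, Matrix.smul_mul]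
  have hRt : ∀ g i j, j < i → (Q' * (1 + π • D g).map φ * Q) i j = 0 := by
    intro g a b hab
    rw [hR, Matrix.add_apply, Matrix.smul_apply, ht g a b hab, smul_zero,
      Matrix.one_apply_ne hab.ne', add_zero]
  have hmul : ∀ A B : Matrix (Fin n) (Fin n) E, Q' * (A * B) * Q = (Q' * A * Q) * (Q' * B * Q) := by
    intro A B
    calc Q' * (A * B) * Q = Q' * A * (Q * Q') * B * Q := by
          rw [hQ, Matrix.mul_one, ← Matrix.mul_assoc]
      _ = _ := by simp only [Matrix.mul_assoc]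
  have hpow : ∀ (A : Matrix (Fin n) (Fin n) E) (k : ℕ), Q' * A ^ k * Q = (Q' * A * Q) ^ k := by
    intro A k
    induction k with
    | zero => rw [pow_zero, pow_zero, Matrix.mul_one, hQ']
    | succ k ih => rw [pow_succ, hmul, ih, ← pow_succ]
  have hrel0 := hD.rel τ σ q htt
  have hrel1 : (1 + π • D σ).map φ * (1 + π • D τ).map φ =
      ((1 + π • D τ).map φ) ^ q * (1 + π • D σ).map φ := by
    have h1 := congrArg (fun M : Matrix (Fin n) (Fin n) (OI E) => M.map φ) hrel0
    have h2 : ((1 + π • D τ) ^ q).map φ = ((1 + π • D τ).map φ) ^ q :=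
      map_pow φ.mapMatrix (1 + π • D τ) q
    rw [← h2, ← Matrix.map_mul, ← Matrix.map_mul]
    exact h1
  have h1 := congrArg (fun M => (Q' * M * Q) i i) hrel1
  have h1 : (Q' * ((1 + π • D σ).map φ * (1 + π • D τ).map φ) * Q) i i =
    (Q' * (((1 + π • D τ).map φ) ^ q * (1 + π • D σ).map φ) * Q) i i := h1
  rw [hmul, hmul, hpow, tri_mul_diag (hRt σ) (hRt τ), tri_mul_diag (tri_pow (hRt τ) q).1 (hRt σ),
    (tri_pow (hRt τ) q).2, hR, hR, Matrix.add_apply, Matrix.add_apply, Matrix.smul_apply,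
    Matrix.smul_apply, Matrix.one_apply_eq, ← hx, ← hy, smul_eq_mul, smul_eq_mul] at h1
  have h2 : (1 + π * y) * (1 + π * x) = (1 + π * x) ^ q * (1 + π * y) := by
    apply Subtype.ext
    push_cast
    exact h1
  -- apply the relation lemma in dimension one
  have h3 := (rel (OI E) p h.hp h.hp2 (h.hpm base) π x h.hπ0 h.hπ hx0 1 q
    (Matrix.of fun _ _ => y) 1 (by
      have e1 : (1 : Matrix (Fin 1) (Fin 1) (OI E)) + (π * x) • (1 : Matrix (Fin 1) (Fin 1) (OI E)) =
          (1 + π * x) • 1 := by rw [add_smul, one_smul]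
      rw [e1, smul_pow, one_pow, Matrix.smul_mul, Matrix.one_mul, Matrix.mul_smul, Matrix.mul_one]
      refine Matrix.ext fun a b => ?_
      rw [Matrix.smul_apply, Matrix.smul_apply, Matrix.add_apply, Matrix.smul_apply]
      have hab : a = b := Subsingleton.elim _ _
      rw [hab, Matrix.one_apply_eq]
      show (1 + π * x) * (1 + π * y) = (1 + π * x) ^ q * (1 + π * y)
      rw [← h2, mul_comm])).1 b hb
  rw [red_one, Matrix.mul_one, Matrix.one_mul, sub_self] at h3
  have h4 := congrFun (congrFun h3 0) 0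
  rw [Matrix.zero_apply, Matrix.smul_apply, Matrix.one_apply_eq, smul_eq_mul, mul_one] at h4
  exact ha h4.symm

end main

/-- triangular form, with diagonal characters unramified outside `p` -/
def Tri {k : Type} [Field k] {E : Type} [Field E] (p : ℕ) {n : ℕ} (ρ : GF k →* GL (Fin n) E) :
    Prop :=
  ∃ Q : GL (Fin n) E, (∀ g i j, j < i →
      ((Q⁻¹ * ρ g * Q : GL (Fin n) E) : Matrix (Fin n) (Fin n) E) i j = 0) ∧
    ∀ P : Ideal (OO k), P.IsMaximal → (p : OO k) ∉ P → ∀ τ, InInertia P τ → ∀ i,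
      ((Q⁻¹ * ρ τ * Q : GL (Fin n) E) : Matrix (Fin n) (Fin n) E) i i = 1

variable {k : Type} [Field k] [NumberField k]
  {E : Type} [NormedField E] [IsUltrametricDist E] [IsAlgClosed E]

/-- **the theorem for number fields** -/
theorem main {p s : ℕ} [hp : Fact p.Prime] (hp2 : p ≠ 2) (hs : s ≠ 0)
    (hpE0 : (p : E) ≠ 0) (hpE : ‖(p : E)‖ < 1) [CharP (ResidueField (OI E)) p]
    {S : Set (Ideal (𝓞 k))} {ψ : GF k →* Multiplicative (ZMod p)} {γ : GF k}
    (h : OneE p ψ) (hN : NormV p s S ψ) (hγ : Multiplicative.toAdd (ψ γ) = 1)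
    {n : ℕ} (hnp : n < p)
    (hfo : ∀ m, 0 < m → m ≤ n → FO (tame' (ResidueField (OI E)) p s S ψ γ) m)
    (ρ : GF k →* GL (Fin n) E) (hρ : Continuous ρ)
    (hc : ∀ g i j, ‖((ρ g : Matrix (Fin n) (Fin n) E) - 1) i j‖ ≤ ‖(p : E) ^ s‖)
    (hur : ∀ P : Ideal (OO k), P.IsMaximal → cm P ∉ S → (p : OO k) ∉ P →
      ∀ τ, InInertia P τ → ρ τ = 1) : Tri p ρ := by
  have hsu := setup base hp2 hs hpE0 hpE h hN hγ
  have hcoe : (((p : OI E) ^ s : OI E) : E) = (p : E) ^ s := by push_cast; rfl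
  obtain ⟨D, hD1, hD2, hD3⟩ := exists_D base hsu.hπ0 ρ hρ (fun g i j => by
    rw [hcoe]
    exact hc g i j)
  have hgood := good base sup rel test hp2 hs hpE0 hpE hN.hS hD1 hD2 hD3 hur
  obtain ⟨Q, Q', hQ, hQ', ht, hdiag⟩ := triangular hsu hnp hfo D hgood
  have hR : ∀ g, Q' * (ρ g : Matrix (Fin n) (Fin n) E) * Q =
      1 + (p : E) ^ s • (Q' * (D g).map (algebraMap (OI E) E) * Q) := by
    intro g
    have h1 : (ρ g : Matrix (Fin n) (Fin n) E) =
        1 + (p : E) ^ s • (D g).map (algebraMap (OI E) E) := by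
      rw [← hD1]
      ext a b
      rw [Matrix.map_apply, Matrix.add_apply, Matrix.add_apply, Matrix.smul_apply,
        Matrix.smul_apply, Matrix.map_apply, map_add, smul_eq_mul, smul_eq_mul, map_mul,
        Matrix.one_apply, Matrix.one_apply]
      have h2 : algebraMap (OI E) E ((p : OI E) ^ s) = (p : E) ^ s := hcoe
      rw [h2]
      split_ifs <;> simp
    rw [h1, Matrix.mul_add, Matrix.add_mul, Matrix.mul_one, hQ', Matrix.mul_smul, Matrix.smul_mul]
  refine ⟨⟨Q, Q', hQ, hQ'⟩, fun g i j hij => ?_, fun P hP hpP τ hτ i => ?_⟩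
  · show (Q' * (ρ g : Matrix (Fin n) (Fin n) E) * Q) i j = 0
    rw [hR, Matrix.add_apply, Matrix.smul_apply, ht g i j hij, smul_zero,
      Matrix.one_apply_ne hij.ne', add_zero]
  · show (Q' * (ρ τ : Matrix (Fin n) (Fin n) E) * Q) i i = 1
    rw [hR, Matrix.add_apply, Matrix.smul_apply, Matrix.one_apply_eq]
    have h0 : (Q' * (D τ).map (algebraMap (OI E) E) * Q) i i = 0 := by
      by_cases hPS : cm P ∈ S ∧ p ∣ Ideal.absNorm (cm P) - 1
      · obtain ⟨σ, hσ⟩ := exists_frobAt hP (cm_ne_bot hP)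
        exact hdiag τ σ _ ⟨P, hP, hPS.1, hPS.2, hτ, hσ, rfl⟩ i
      · have h1 := hgood.ur τ ⟨P, hP, hτ, hpP, fun h1 h2 => hPS ⟨h1, h2⟩⟩
        rw [h1]
        have h2 : (0 : Matrix (Fin n) (Fin n) (OI E)).map (algebraMap (OI E) E) = 0 := by
          ext a b
          simp
        rw [h2, Matrix.mul_zero, Matrix.zero_mul]
        rfl
    rw [h0, smul_zero, add_zero]

end Pool.Agent.Q15.JT
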