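import Mathlib

/-! Representations of a compact group congruent to the identity: statements (project JT). -/

set_option autoImplicit false

open Matrix IsLocalRing

namespace Pool.Agent.Q15.JT

/-- the ring of integers of an ultrametric normed field -/
noncomputable abbrev OI (E : Type) [NormedField E] [IsUltrametricDist E] : ValuationSubring E :=
  (NormedField.valuation (K := E)).valuationSubring

/-- reduction of a matrix -/
noncomputable abbrev red {O : Type} [CommRing O] [IsLocalRing O] {m n : Type}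
    (M : Matrix m n O) : Matrix m n (ResidueField O) := M.map (residue O)

/-- JOB JT-BASE -/
def S_BASE : Prop :=
  ∀ (E : Type) [NormedField E] [IsUltrametricDist E],
    (∀ x : E, x ∈ OI E ↔ ‖x‖ ≤ 1) ∧
    (∀ a : OI E, residue (OI E) a = 0 ↔ ‖(a : E)‖ < 1) ∧
    (IsAlgClosed E → IsAlgClosed (ResidueField (OI E)))

/-- JOB JT-SUP: on a compact space a continuous family of matrices is a scalar times a family which
is nonzero modulo the maximal ideal -/
def S_SUP : Prop :=
  ∀ (E : Type) [NormedField E] [IsUltrametricDist E] (G : Type) [TopologicalSpace G]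
    [CompactSpace G] (m n : ℕ) (F : G → Matrix (Fin m) (Fin n) (OI E)),
    (∀ i j, Continuous fun g => ((F g i j : OI E) : E)) → (∃ g, F g ≠ 0) →
    ∃ (c : OI E) (F1 : G → Matrix (Fin m) (Fin n) (OI E)), c ≠ 0 ∧ (∀ g, F g = c • F1 g) ∧
      (∃ g, red (F1 g) ≠ 0) ∧ ∀ i j, Continuous fun g => ((F1 g i j : OI E) : E)

/-- JOB JT-REL: the first order consequence of the tame relation -/
def S_REL : Prop :=
  ∀ (O : Type) [CommRing O] [IsDomain O] [IsLocalRing O] (p : ℕ), p.Prime → p ≠ 2 →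
    (p : O) ∈ maximalIdeal O → ∀ π c : O, π ≠ 0 → π ∈ maximalIdeal O → c ≠ 0 →
    ∀ (n q : ℕ) (D N : Matrix (Fin n) (Fin n) O),
      (1 + π • D) * (1 + (π * c) • N) = (1 + (π * c) • N) ^ q * (1 + π • D) →
      (∀ a : O, (q : O) - 1 = π * a →
        red D * red N - red N * red D = (residue O a) • red N) ∧
      (IsUnit ((q : O) - 1) → red N = 0)

/-- JOB JT-SPLIT: idempotent matrices over a local ring split -/
def S_SPLIT : Prop :=
  ∀ (O : Type) [CommRing O] [IsLocalRing O] (n : ℕ) (e : Matrix (Fin n) (Fin n) O), e * e = e →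
    e ≠ 0 → e ≠ 1 → ∃ (m : ℕ) (ι : Matrix (Fin n) (Fin m) O) (r : Matrix (Fin m) (Fin n) O),
      0 < m ∧ m < n ∧ r * ι = 1 ∧ ι * r = e

/-- JOB JT-SPEC: the idempotent of a generalized eigenspace of the reduction lifts -/
def S_SPEC : Prop :=
  ∀ (O : Type) [CommRing O] [IsDomain O] [IsLocalRing O] [IsIntegrallyClosed O] (E : Type)
    [Field E] [IsAlgClosed E] [Algebra O E] [IsFractionRing O E] (n : ℕ)
    (Y : Matrix (Fin n) (Fin n) O) (l : ResidueField O),
    ∃ e : Matrix (Fin n) (Fin n) O, e * e = e ∧ e * Y = Y * e ∧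
      ∀ w : Fin n → ResidueField O,
        ((red Y - l • (1 : Matrix (Fin n) (Fin n) (ResidueField O))) ^ n) *ᵥ w = 0 ↔
          red e *ᵥ w = w

/-- abstract tame data: `U` are the elements on which everything vanishes, `T τ σ a` says that `τ`
is an inertia element, `σ` a Frobenius element and `a` the value of the logarithm of the norm -/
structure Tame (κ : Type) [Field κ] (G : Type) where
  U : Set G
  T : G → G → κ → Prop
  ψ : G → κ
  γ : G

/-- the additive families of matrices with the first order relations -/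
structure FOrel {κ : Type} [Field κ] {G : Type} [Group G] [TopologicalSpace G] (t : Tame κ G)
    {n : ℕ} (M : G → Matrix (Fin n) (Fin n) κ) : Prop where
  add : ∀ g h, M (g * h) = M g + M h
  op : IsOpen {g | M g = 0}
  ur : ∀ u ∈ t.U, M u = 0
  rel : ∀ τ σ a, t.T τ σ a → M σ * M τ - M τ * M σ = a • M τ

/-- first order families of size `n` have an eigenvector -/
def FO {κ : Type} [Field κ] {G : Type} [Group G] [TopologicalSpace G] (t : Tame κ G)
    (n : ℕ) : Prop :=
  ∀ M : G → Matrix (Fin n) (Fin n) κ, FOrel t M →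
    ∃ v : Fin n → κ, v ≠ 0 ∧ ∀ g, ∃ c : κ, M g *ᵥ v = c • v

/-- characters which vanish on `U` and on the inertia elements are multiples of `ψ` -/
structure CP {κ : Type} [Field κ] {G : Type} [Group G] [TopologicalSpace G]
    (t : Tame κ G) : Prop where
  ψγ : t.ψ t.γ = 1
  ψU : ∀ u ∈ t.U, t.ψ u = 0
  ψT : ∀ τ σ a, t.T τ σ a → t.ψ τ = 0 ∧ t.ψ σ = a ∧ a ≠ 0
  char : ∀ f : G → κ, (∀ g h, f (g * h) = f g + f h) → IsOpen {g | f g = 0} →
    (∀ u ∈ t.U, f u = 0) → (∀ τ σ a, t.T τ σ a → f τ = 0) → ∀ g, f g = t.ψ g * f t.γ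

/-- JOB JT-STABLE: the generalized eigenspace of `X = M γ` for `l` is stable if `l + 1` is not an
eigenvalue; `M g` acts on it as `ψ g • X` -/
def S_STABLE : Prop :=
  ∀ (κ : Type) [Field κ] (G : Type) [Group G] [TopologicalSpace G] [IsTopologicalGroup G]
    (t : Tame κ G), CP t → ∀ (n : ℕ), (∀ m, 0 < m → m ≤ n → FO t m) →
    ∀ M : G → Matrix (Fin n) (Fin n) κ, FOrel t M → ∀ l : κ,
    (∀ v : Fin n → κ, M t.γ *ᵥ v = (l + 1) • v → v = 0) →
    ∀ (N : ℕ) (w : Fin n → κ),
      ((M t.γ - l • (1 : Matrix (Fin n) (Fin n) κ)) ^ N) *ᵥ w = 0 →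
      ∀ g, M g *ᵥ w = t.ψ g • (M t.γ *ᵥ w)

/-- JOB JT-EIG: commuting matrices have a common eigenvector -/
def S_EIG : Prop :=
  ∀ (E : Type) [Field E] [IsAlgClosed E] (G : Type) (n : ℕ), 0 < n →
    ∀ M : G → Matrix (Fin n) (Fin n) E, (∀ g h, M g * M h = M h * M g) →
    ∃ v : Fin n → E, v ≠ 0 ∧ ∀ g, ∃ c : E, M g *ᵥ v = c • v

/-- the multiplicative law of `D = (ρ - 1) / π` -/
def Law {O : Type} [CommRing O] (π : O) {G : Type} [Group G] {n : ℕ}
    (D : G → Matrix (Fin n) (Fin n) O) : Prop :=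
  ∀ g h, D (g * h) = D g + D h + π • (D g * D h)

/-- JOB JT-TEST: the representation `1 + π D` is determined by finite `p`-groups -/
def S_TEST : Prop :=
  ∀ (E : Type) [NormedField E] [IsUltrametricDist E] (G : Type) [Group G] [TopologicalSpace G]
    [IsTopologicalGroup G] (p : ℕ), p.Prime → (p : E) ≠ 0 → ‖(p : E)‖ < 1 →
    ∀ (π : OI E), ‖(π : E)‖ ≤ ‖(p : E)‖ → ∀ (n : ℕ) (D : G → Matrix (Fin n) (Fin n) (OI E)),
    Law π D → (∀ i j, Continuous fun g => ((D g i j : OI E) : E)) → ∀ x y : G,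
    (∀ (H : Type) [Group H], IsPGroup p H → ∀ f : G →* H, IsOpen (f.ker : Set G) → f x = f y) →
    (1 : Matrix (Fin n) (Fin n) (OI E)) + π • D x = 1 + π • D y

/-- JOB JT-AXIS: if `X` satisfies `[X, M τ] = M τ` for all inertia elements then there is an
eigenvector (in dimension less than the characteristic) -/
def S_AXIS : Prop :=
  ∀ (κ : Type) [Field κ] [IsAlgClosed κ] (p : ℕ) [CharP κ p], p.Prime →
    ∀ (G : Type) [Group G] [TopologicalSpace G] [IsTopologicalGroup G]
    (t : Tame κ G), CP t → ∀ n : ℕ, 0 < n → n < p → ∀ M : G → Matrix (Fin n) (Fin n) κ,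
    FOrel t M → ∀ x : G, t.ψ x = 1 → (∀ τ σ a, t.T τ σ a → M x * M τ - M τ * M x = M τ) →
    ∃ v : Fin n → κ, v ≠ 0 ∧ ∀ g, ∃ c : κ, M g *ᵥ v = c • v

/-- JOB JT-LIN: a point common to two cosets, from functionals -/
def S_LIN : Prop :=
  ∀ (p : ℕ) [Fact p.Prime] (W : Type) [AddCommGroup W] [Module (ZMod p) W]
    (A B : Submodule (ZMod p) W) (x y : W),
    (∀ f : W →ₗ[ZMod p] ZMod p, (∀ a ∈ A, f a = 0) → (∀ b ∈ B, f b = 0) → f x = f y) →
    ∃ a ∈ A, ∃ b ∈ B, x + a = y + b

/-- JOB JT-FLAG: from eigenvectors to triangular form. `P` is a property of families of matrices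
over `O` which passes to quotients by lines spanned by a primitive common eigenvector. -/
def S_FLAG : Prop :=
  ∀ (O : Type) [CommRing O] [IsDomain O] [ValuationRing O] (E : Type) [Field E] [Algebra O E]
    [IsFractionRing O E] (G : Type)
    (P : ∀ n : ℕ, (G → Matrix (Fin n) (Fin n) O) → Prop),
    (∀ (m n : ℕ) (D : G → Matrix (Fin n) (Fin n) O) (B : G → Matrix (Fin m) (Fin m) O)
      (r : Matrix (Fin m) (Fin n) O) (s : Matrix (Fin n) (Fin m) O), r * s = 1 →
      (∀ g, r * D g = B g * r) → P n D → P m B) →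
    (∀ (n : ℕ) (D : G → Matrix (Fin n) (Fin n) O), 0 < n → P n D →
      ∃ v : Fin n → E, v ≠ 0 ∧ ∀ g, ∃ c : E, (D g).map (algebraMap O E) *ᵥ v = c • v) →
    ∀ (n : ℕ) (D : G → Matrix (Fin n) (Fin n) O), P n D →
      ∃ Q Q' : Matrix (Fin n) (Fin n) E, Q * Q' = 1 ∧ Q' * Q = 1 ∧
        ∀ g i j, j < i → (Q' * (D g).map (algebraMap O E) * Q) i j = 0

end Pool.Agent.Q15.JT
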