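import Pool.Agent.Q15.JT.NF5

/-!
# Representations of Galois groups of number fields which are congruent to the identity

Let `p` be an odd prime and `K` a number field with exactly one extension `K₁` of degree `p` which is
normal over `K` and unramified outside `p`; for instance `ℚ`, or a totally real `p`-rational field, in
which case `K₁` is cyclotomic. Let `S` be a set of primes `v` of `K` not above `p` such that, if `N(v)`
is `1` modulo `p`, then `p ^ s` exactly divides `N(v) - 1` and the Frobenius elements at `v` act on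
`K₁` in the way prescribed by the norm (for `K = ℚ` and `s = 1` this only says that `p ^ 2` does not
divide `l - 1`). No condition is imposed at `p`.

The theorem: let `n < p`, and let `ρ : G_K → GL_n(E)` be a continuous representation over an
algebraically closed ultrametric extension `E` of `ℚ_p`, unramified outside `S` and `p`, and congruent
to the identity modulo `p ^ s`. Then `ρ` is triangularizable, and the diagonal characters are
unramified outside `p`, if at most two primes in `S` have norm `1` modulo `p`, or more generally if the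
Frobenius classes at these primes lie on one line up to inertia (`HasAxis`), or if the first order
families of matrices have common eigenvectors (`FirstOrder`).

In particular `ρ` is reducible if `n = 2`. For `K = ℚ` such representations are even.
-/

set_option autoImplicit false

namespace Pool.Agent.Q15.JT.Tri

open NumberField Matrix

/-- the absolute Galois group of the field `K`, with the Krull topology -/
abbrev AbsGal (K : Type) [Field K] : Type := Gal(AlgebraicClosure K/K)

/-- the ring of all algebraic integers -/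
abbrev ZBar (K : Type) [Field K] : Type := 𝓞 (AlgebraicClosure K)

section

variable {K : Type} [Field K] [NumberField K]

/-- `τ` lies in the inertia group at the prime ideal `P` of the ring of all algebraic integers -/
def InInertia (P : Ideal (ZBar K)) (τ : AbsGal K) : Prop := ∀ x : ZBar K, τ • x - x ∈ P

/-- the prime of `K` below `P` -/
noncomputable def below (P : Ideal (ZBar K)) : Ideal (𝓞 K) :=
  P.comap (algebraMap (𝓞 K) (ZBar K))

/-- `σ` is a Frobenius element at `P`: it acts on the residue field as `x ↦ x ^ N(v)`, where `v` is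
the prime of `K` below `P` -/
def IsFrobenius (P : Ideal (ZBar K)) (σ : AbsGal K) : Prop :=
  ∀ x : ZBar K, σ • x - x ^ Ideal.absNorm (below P) ∈ P

/-- the primes in `S` and the primes above `p` -/
def withP (p : ℕ) (S : Set (Ideal (𝓞 K))) : Set (Ideal (𝓞 K)) := {v | v ∈ S ∨ (p : 𝓞 K) ∈ v}

/-- the homomorphism `f` is trivial on the inertia groups at the primes which are not in `S` -/
def UnramifiedOutside (S : Set (Ideal (𝓞 K))) {A : Type} [Group A] (f : AbsGal K →* A) : Prop :=
  ∀ P : Ideal (ZBar K), P.IsMaximal → below P ∉ S → ∀ τ : AbsGal K, InInertia P τ → f τ = 1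

/-- The field `K` has exactly one extension of degree `p` which is normal over `K` and unramified
outside `p`: `ψ` is a character of order `p` unramified outside `p`, and every character of order `p`
unramified outside `p` is a power of it. -/
structure OneExtension (p : ℕ) (ψ : AbsGal K →* Multiplicative (ZMod p)) : Prop where
  isOpen : IsOpen (ψ.ker : Set (AbsGal K))
  unramified : UnramifiedOutside (withP p ∅) ψ
  nontrivial : ∃ g, ψ g ≠ 1
  unique : ∀ f : AbsGal K →* Multiplicative (ZMod p), IsOpen (f.ker : Set (AbsGal K)) →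
    UnramifiedOutside (withP p ∅) f → ∃ n : ℕ, ∀ g, f g = ψ g ^ n

/-- for the primes `v` in `S` with `N(v) = 1` modulo `p`, exactly `p ^ s` divides `N(v) - 1`, and `ψ`
takes the value `(N(v) - 1) / p ^ s` at the Frobenius elements (for instance, `ψ` is given by the
action on the roots of unity of order `p ^ (s + 1)` and `K(ζ_p)` contains those of order `p ^ s`) -/
def NormValues (p s : ℕ) (S : Set (Ideal (𝓞 K))) (ψ : AbsGal K →* Multiplicative (ZMod p)) : Prop :=
  ∀ P : Ideal (ZBar K), P.IsMaximal → below P ∈ S → p ∣ Ideal.absNorm (below P) - 1 →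
    p ^ s ∣ Ideal.absNorm (below P) - 1 ∧ ¬ p ^ (s + 1) ∣ Ideal.absNorm (below P) - 1 ∧
    ∀ σ, IsFrobenius P σ →
      Multiplicative.toAdd (ψ σ) = (((Ideal.absNorm (below P) - 1) / p ^ s : ℕ) : ZMod p)

/-- at most two primes in `S` have norm `1` modulo `p` -/
def AtMostTwo (p : ℕ) (S : Set (Ideal (𝓞 K))) : Prop :=
  ∀ u ∈ S, ∀ v ∈ S, ∀ w ∈ S, p ∣ Ideal.absNorm u - 1 → p ∣ Ideal.absNorm v - 1 →
    p ∣ Ideal.absNorm w - 1 → u = v ∨ v = w ∨ u = w

/-- There is an element `x` of the Galois group such that the Frobenius elements at the primes `v` in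
`S` with `N(v) = 1` modulo `p` are equal to `x ^ ((N(v) - 1) / p ^ s)`, up to inertia at `v`, in the
maximal abelian quotient of exponent `p` unramified outside `S` and `p`. -/
def HasAxis (p s : ℕ) (S : Set (Ideal (𝓞 K))) : Prop :=
  ∃ x : AbsGal K, ∀ P : Ideal (ZBar K), P.IsMaximal → below P ∈ S →
    p ∣ Ideal.absNorm (below P) - 1 →
    ∀ χ : AbsGal K →* Multiplicative (ZMod p), IsOpen (χ.ker : Set (AbsGal K)) →
      (∀ Q : Ideal (ZBar K), Q.IsMaximal → below Q ∉ withP p S ∨ below Q = below P →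
        ∀ τ, InInertia Q τ → χ τ = 1) →
      ∀ σ, IsFrobenius P σ → Multiplicative.toAdd (χ σ) =
        (((Ideal.absNorm (below P) - 1) / p ^ s : ℕ) : ZMod p) * Multiplicative.toAdd (χ x)

/-- Let `κ` be an algebraically closed field of characteristic `p`, `0 < m ≤ n`, and let `M` be a
continuous homomorphism from `G_K` to the additive group of `m` by `m` matrices over `κ`, unramified
outside `S` and `p`. Suppose that, for every inertia element `τ` and Frobenius element `σ` at a prime
above `v ∈ S`, we have `M(τ) = 0` if `N(v)` is not `1` modulo `p`, and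
`M(σ) M(τ) - M(τ) M(σ) = ((N(v) - 1) / p ^ s) M(τ)`. Then the matrices `M(g)` have a common
eigenvector. -/
def FirstOrder (p s n : ℕ) (S : Set (Ideal (𝓞 K))) : Prop :=
  ∀ (κ : Type) [Field κ] [IsAlgClosed κ] [CharP κ p], ∀ m, 0 < m → m ≤ n →
  ∀ M : AbsGal K → Matrix (Fin m) (Fin m) κ, (∀ g h, M (g * h) = M g + M h) →
    IsOpen {g | M g = 0} →
    (∀ P : Ideal (ZBar K), P.IsMaximal → below P ∉ withP p S → ∀ τ, InInertia P τ → M τ = 0) →
    (∀ P : Ideal (ZBar K), P.IsMaximal → below P ∈ S → ∀ τ, InInertia P τ →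
      (¬ p ∣ Ideal.absNorm (below P) - 1 → M τ = 0) ∧
      ∀ σ, IsFrobenius P σ →
        M σ * M τ - M τ * M σ = (((Ideal.absNorm (below P) - 1) / p ^ s : ℕ) : κ) • M τ) →
    ∃ v : Fin m → κ, v ≠ 0 ∧ ∀ g, ∃ c : κ, M g *ᵥ v = c • v

/-- the matrices of `ρ` are congruent to the identity modulo `p ^ s` -/
def Congruent {E : Type} [NormedField E] {n : ℕ} (p s : ℕ) (ρ : AbsGal K →* GL (Fin n) E) :
    Prop :=
  ∀ g i j, ‖((ρ g : Matrix (Fin n) (Fin n) E) - 1) i j‖ ≤ ‖(p : E) ^ s‖

/-- in a suitable basis the matrices of `ρ` are upper triangular, and the diagonal characters are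
unramified outside `p` -/
def Triangular {E : Type} [Field E] {n : ℕ} (p : ℕ) (ρ : AbsGal K →* GL (Fin n) E) : Prop :=
  ∃ B : GL (Fin n) E,
    (∀ g i j, j < i → ((B⁻¹ * ρ g * B : GL (Fin n) E) : Matrix (Fin n) (Fin n) E) i j = 0) ∧
    ∀ P : Ideal (ZBar K), P.IsMaximal → (p : ZBar K) ∉ P → ∀ τ, InInertia P τ →
      ∀ i, ((B⁻¹ * ρ τ * B : GL (Fin n) E) : Matrix (Fin n) (Fin n) E) i i = 1

end

/-- every representation of dimension less than `p`, over an algebraically closed ultrametric
extension of `ℚ_p`, which is continuous, unramified outside `S` and `p`, and congruent to the identity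
modulo `p ^ s`, is triangular, with diagonal characters unramified outside `p` -/
def AllTriangular {K : Type} [Field K] [NumberField K] (p s n : ℕ) [Fact p.Prime]
    (S : Set (Ideal (𝓞 K))) : Prop :=
  ∀ (E : Type) [NormedField E] [NormedAlgebra ℚ_[p] E] [IsUltrametricDist E] [IsAlgClosed E],
  ∀ ρ : AbsGal K →* GL (Fin n) E, Continuous ρ → UnramifiedOutside (withP p S) ρ →
    Congruent p s ρ → Triangular p ρ

/-- the prime ideals of `ℤ` generated by the numbers in `S` -/
def primeIdeals (S : Finset ℕ) : Set (Ideal (𝓞 ℚ)) := {v | ∃ l ∈ S, v = Ideal.span {(l : 𝓞 ℚ)}}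

/-- for three different primes `i`, `j`, `k` in `S` which are `1` modulo `p`, the quotient of
`i ^ ((k - 1) / p)` by `k ^ ((i - 1) / p)` is a `p`-th power modulo `j` (there is no condition if at
most two primes in `S` are `1` modulo `p`) -/
def PowerCondition (p : ℕ) (S : Finset ℕ) : Prop :=
  ∀ i ∈ S, ∀ j ∈ S, ∀ k ∈ S, i ≠ j → j ≠ k → i ≠ k → p ∣ i - 1 → p ∣ j - 1 → p ∣ k - 1 →
    ∃ x : ZMod j, (i : ZMod j) ^ ((k - 1) / p) = (k : ZMod j) ^ ((i - 1) / p) * x ^ p

section

open Pool.Agent.Q15.JT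

variable {K : Type} [Field K] [NumberField K]

theorem one_of {p : ℕ} {ψ : AbsGal K →* Multiplicative (ZMod p)} (h : OneExtension p ψ) :
    OneE p ψ := by
  have h0 : ∀ P : Ideal (ZBar K), (p : ZBar K) ∉ P ↔ below P ∉ withP p ∅ := by
    intro P
    show _ ↔ ¬ (below P ∈ (∅ : Set (Ideal (𝓞 K))) ∨ (p : 𝓞 K) ∈ below P)
    have h1 : (p : 𝓞 K) ∈ below P ↔ (p : ZBar K) ∈ P := Pool.Agent.W571.FM.natCast_mem_cm
    rw [h1]
    simp
  exact ⟨h.isOpen, fun P hP hpP => h.unramified P hP ((h0 P).1 hpP), h.nontrivial,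
    fun f hf hfu => h.unique f hf fun P hP hpP => hfu P hP ((h0 P).2 hpP)⟩

theorem notMem_withP {p : ℕ} {S : Set (Ideal (𝓞 K))} {P : Ideal (ZBar K)} (h1 : below P ∉ S)
    (h2 : (p : ZBar K) ∉ P) : below P ∉ withP p S := by
  rintro (h | h)
  · exact h1 h
  · exact h2 (Pool.Agent.W571.FM.natCast_mem_cm.1 h)

theorem of_notMem_withP {p : ℕ} {S : Set (Ideal (𝓞 K))} {P : Ideal (ZBar K)}
    (h : below P ∉ withP p S) : (p : ZBar K) ∉ P ∧ below P ∉ S :=
  ⟨fun h1 => h (Or.inr (Pool.Agent.W571.FM.natCast_mem_cm.2 h1)), fun h1 => h (Or.inl h1)⟩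

theorem number_fields (p s : ℕ) [hp : Fact p.Prime] (hp2 : p ≠ 2) (hs : s ≠ 0)
    (S : Set (Ideal (𝓞 K))) (hS : ∀ v ∈ S, (p : 𝓞 K) ∉ v)
    (ψ : AbsGal K →* Multiplicative (ZMod p)) (h : OneExtension p ψ) (hN : NormValues p s S ψ)
    (n : ℕ) (hn : n < p) (hc : AtMostTwo p S ∨ HasAxis p s S ∨ FirstOrder p s n S) :
    AllTriangular p s n S := by
  intro E _ _ _ _ ρ hρ hur hcong
  have hnorm : ‖(p : E)‖ = ‖(p : ℚ_[p])‖ := by
    have h1 := norm_algebraMap' E (p : ℚ_[p])
    rwa [map_natCast] at h1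
  have hpE : ‖(p : E)‖ < 1 := by
    rw [hnorm]
    exact Padic.norm_p_lt_one
  have hpE0 : (p : E) ≠ 0 := by
    intro h0
    rw [h0, norm_zero] at hnorm
    have h1 : (p : ℚ_[p]) = 0 := norm_eq_zero.1 hnorm.symm
    exact hp.out.ne_zero (Nat.cast_eq_zero.1 h1)
  have : CharP (IsLocalRing.ResidueField (OI E)) p := charP_res base hp.out hpE
  have : IsAlgClosed (IsLocalRing.ResidueField (OI E)) := (base E).2.2 inferInstance
  have h' := one_of h
  have hN' : NormV p s S ψ := ⟨hS, hN⟩
  obtain ⟨γ, hγ⟩ := exists_gen h'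
  have key := main (E := E) hp2 hs hpE0 hpE h' hN' hγ hn (fun m hm hmn => by
    rcases hc with hc | hc | hc
    · exact fo_two axis lin h' hN' hγ hm (hmn.trans_lt hn) hc
    · obtain ⟨x, hx⟩ := hc
      refine fo_axis axis lin h' hN' hγ hm (hmn.trans_lt hn) (x := x) ?_
      intro P hP hPS hd χ hχ hχu
      refine hx P hP hPS hd χ hχ fun Q hQ hQS => ?_
      rcases hQS with h1 | h1
      · exact hχu Q hQ (of_notMem_withP h1).1 (Or.inl (of_notMem_withP h1).2)
      · refine hχu Q hQ ?_ (Or.inr h1)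
        intro h2
        refine hS _ hPS ?_
        have h3 : (p : 𝓞 K) ∈ below Q := Pool.Agent.W571.FM.natCast_mem_cm.2 h2
        rwa [h1] at h3
    · refine fo_of hS ?_
      intro M h1 h2 h3 h4
      exact hc _ m hm hmn M h1 h2
        (fun P hP hPS => h3 P hP (of_notMem_withP hPS).2 (of_notMem_withP hPS).1) h4)
    ρ hρ hcong (fun P hP hPS hpP => hur P hP (notMem_withP hPS hpP))
  exact key

theorem rationals (p : ℕ) [hp : Fact p.Prime] (hp2 : p ≠ 2) (S : Finset ℕ)
    (hS : ∀ l ∈ S, l.Prime ∧ l ≠ p ∧ ¬ p ^ 2 ∣ l - 1) (n : ℕ) (hn : n < p)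
    (hc : PowerCondition p S ∨ FirstOrder p 1 n (primeIdeals S)) :
    AllTriangular p 1 n (primeIdeals S) := by
  obtain ⟨ψ, hψ, hfr⟩ := exists_one (p := p) hp2
  have hN : NormV p 1 (SQ S) ψ := normV hfr S hS
  have h1 : OneExtension p ψ := by
    have h0 : ∀ P : Ideal (ZBar ℚ), (p : ZBar ℚ) ∉ P ↔ below P ∉ withP p ∅ := by
      intro P
      show _ ↔ ¬ (below P ∈ (∅ : Set (Ideal (𝓞 ℚ))) ∨ (p : 𝓞 ℚ) ∈ below P)
      have h1 : (p : 𝓞 ℚ) ∈ below P ↔ (p : ZBar ℚ) ∈ P := Pool.Agent.W571.FM.natCast_mem_cm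
      rw [h1]
      simp
    exact ⟨hψ.op, fun P hP hpP => hψ.ur P hP ((h0 P).2 hpP), hψ.ne,
      fun f hf hfu => hψ.uni f hf fun P hP hpP => hfu P hP ((h0 P).1 hpP)⟩
  refine number_fields p 1 hp2 one_ne_zero (primeIdeals S) hN.hS ψ h1 hN.val n hn (Or.inr ?_)
  rcases hc with hc | hc
  · refine Or.inl ?_
    obtain ⟨x, hx⟩ := exists_axis (p := p) hp2 hψ hfr S hS (fun i hi j hj k hk hij hkj hdi hdj hdk => by
      by_cases hik : i = k
      · exact ⟨1, by rw [hik, one_pow, mul_one]⟩
      · exact hc i hi j hj k hk hij (Ne.symm hkj) hik hdi hdj hdk)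
    refine ⟨x, ?_⟩
    intro P hP hPS hd χ hχ hχu
    refine hx P hP hPS hd χ hχ fun Q hQ hpQ hQS => ?_
    rcases hQS with h2 | h2
    · exact hχu Q hQ (Or.inl (notMem_withP h2 hpQ))
    · exact hχu Q hQ (Or.inr h2)
  · exact Or.inr hc

end

end Pool.Agent.Q15.JT.Tri
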